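import Pool.Agent.H34.BN.Defs

/-! Crossing numbers of segments with convex sets and trapezoids (MP_d0a74c_co). -/

open Classical

namespace Pool.H34.BN

private lemma half_convex (g : ℝ × ℝ → ℝ)
    (hg : ∀ x y : ℝ × ℝ, ∀ a b : ℝ, a + b = 1 → g (a • x + b • y) = a * g x + b * g y) :
    Convex ℝ {w | 0 < g w} := by
  intro x hx y hy a b ha hb hab
  simp only [Set.mem_setOf_eq] at hx hy ⊢
  rw [hg x y a b hab]
  rcases ha.eq_or_lt with h0 | h0
  · subst h0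
    have : b = 1 := by linarith
    subst this
    simpa using hy
  · have h1 : 0 < a * g x := mul_pos h0 hx
    have h2 : 0 ≤ b * g y := mul_nonneg hb hy.le
    linarith

theorem trap_convex (T : Trap) : Convex ℝ T.car := by
  have h1 : Convex ℝ {w : ℝ × ℝ | 0 < w.1 - T.l} := by
    apply half_convex (fun w => w.1 - T.l)
    intro x y a b hab
    simp only [Prod.fst_add, Prod.smul_fst, smul_eq_mul]
    linear_combination T.l * hab
  have h2 : Convex ℝ {w : ℝ × ℝ | 0 < T.r - w.1} := by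
    apply half_convex (fun w => T.r - w.1)
    intro x y a b hab
    simp only [Prod.fst_add, Prod.smul_fst, smul_eq_mul]
    linear_combination (-T.r) * (hab)
  have h3 : Convex ℝ {w : ℝ × ℝ | 0 < w.2 - ht T.b w.1} := by
    apply half_convex (fun w => w.2 - ht T.b w.1)
    intro x y a b hab
    simp only [ht, Prod.fst_add, Prod.smul_fst, Prod.snd_add, Prod.smul_snd, smul_eq_mul]
    linear_combination (T.b.2) * (hab)
  have h4 : Convex ℝ {w : ℝ × ℝ | 0 < ht T.t w.1 - w.2} := by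
    apply half_convex (fun w => ht T.t w.1 - w.2)
    intro x y a b hab
    simp only [ht, Prod.fst_add, Prod.smul_fst, Prod.snd_add, Prod.smul_snd, smul_eq_mul]
    linear_combination (-T.t.2) * (hab)
  have h := (h1.inter h2).inter (h3.inter h4)
  have he : T.car = ({w : ℝ × ℝ | 0 < w.1 - T.l} ∩ {w : ℝ × ℝ | 0 < T.r - w.1}) ∩
      ({w : ℝ × ℝ | 0 < w.2 - ht T.b w.1} ∩ {w : ℝ × ℝ | 0 < ht T.t w.1 - w.2}) := by
    ext w
    simp only [Trap.car, Set.mem_setOf_eq, Set.mem_inter_iff, sub_pos]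
    tauto
  rw [he]
  exact h

theorem chi_le (D : Set (ℝ × ℝ)) (p q : ℝ × ℝ) : chi D p q ≤ 2 := by
  unfold chi
  split_ifs <;> simp

theorem chi_symm (D : Set (ℝ × ℝ)) (p q : ℝ × ℝ) : chi D p q = chi D q p := by
  unfold chi
  rw [segment_symm ℝ p q]
  split_ifs <;> simp_all

theorem chi_add {D : Set (ℝ × ℝ)} (hD : Convex ℝ D) {p q b : ℝ × ℝ}
    (hb : b ∈ segment ℝ p q) : chi D p q = chi D p b + chi D b q := by
  have key : ∀ s t : ℝ, s ≤ t →
      segment ℝ (AffineMap.lineMap p q s : ℝ × ℝ) (AffineMap.lineMap p q t) =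
        (AffineMap.lineMap p q : ℝ →ᵃ[ℝ] ℝ × ℝ) '' Set.Icc s t := by
    intro s t hst
    rw [← segment_eq_Icc hst]
    exact (image_segment ℝ (AffineMap.lineMap p q : ℝ →ᵃ[ℝ] ℝ × ℝ) s t).symm
  have hp : (AffineMap.lineMap p q : ℝ →ᵃ[ℝ] ℝ × ℝ) 0 = p := AffineMap.lineMap_apply_zero _ _
  have hq : (AffineMap.lineMap p q : ℝ →ᵃ[ℝ] ℝ × ℝ) 1 = q := AffineMap.lineMap_apply_one _ _
  have hpq := key 0 1 zero_le_one
  rw [hp, hq] at hpq
  rw [hpq] at hb
  obtain ⟨t, ht, rfl⟩ := hb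
  set f : ℝ →ᵃ[ℝ] ℝ × ℝ := AffineMap.lineMap p q with hf
  have hpb := key 0 t ht.1
  have hbq := key t 1 ht.2
  rw [hp] at hpb
  rw [hq] at hbq
  -- if D meets both parts then b is in D
  have hboth : ∀ w₁ ∈ segment ℝ p (f t), w₁ ∈ D → ∀ w₂ ∈ segment ℝ (f t) q, w₂ ∈ D →
      f t ∈ D := by
    intro w₁ h1 h1D w₂ h2 h2D
    rw [hpb] at h1
    rw [hbq] at h2
    obtain ⟨s₁, hs₁, rfl⟩ := h1
    obtain ⟨s₂, hs₂, rfl⟩ := h2
    have hseg := hD.segment_subset h1D h2D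
    rw [key s₁ s₂ (hs₁.2.trans hs₂.1)] at hseg
    exact hseg ⟨t, ⟨hs₁.2, hs₂.1⟩, rfl⟩
  have hsplit : (∃ w ∈ segment ℝ p q, w ∈ D) ↔
      (∃ w ∈ segment ℝ p (f t), w ∈ D) ∨ (∃ w ∈ segment ℝ (f t) q, w ∈ D) := by
    rw [hpb, hbq, hpq]
    constructor
    · rintro ⟨w, ⟨s, hs, rfl⟩, hw⟩
      rcases le_total s t with h | h
      · exact Or.inl ⟨_, ⟨s, ⟨hs.1, h⟩, rfl⟩, hw⟩
      · exact Or.inr ⟨_, ⟨s, ⟨h, hs.2⟩, rfl⟩, hw⟩
    · rintro (⟨w, ⟨s, hs, rfl⟩, hw⟩ | ⟨w, ⟨s, hs, rfl⟩, hw⟩)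
      · exact ⟨_, ⟨s, ⟨hs.1, hs.2.trans ht.2⟩, rfl⟩, hw⟩
      · exact ⟨_, ⟨s, ⟨ht.1.trans hs.1, hs.2⟩, rfl⟩, hw⟩
  have hpS : p ∈ segment ℝ p (f t) := left_mem_segment ℝ _ _
  have hqS : q ∈ segment ℝ (f t) q := right_mem_segment ℝ _ _
  have hbS : f t ∈ segment ℝ p (f t) := right_mem_segment ℝ _ _
  unfold chi
  by_cases hbD : f t ∈ D
  · have hm : ∃ w ∈ segment ℝ p q, w ∈ D := hsplit.2 (Or.inl ⟨_, hbS, hbD⟩)
    by_cases hpD : p ∈ D <;> by_cases hqD : q ∈ D <;> simp [hpD, hqD, hbD, hm]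
  · by_cases hpD : p ∈ D
    · by_cases hqD : q ∈ D
      · exact absurd (hboth p hpS hpD q hqS hqD) hbD
      · have hn : ¬ ∃ w ∈ segment ℝ (f t) q, w ∈ D := by
          rintro ⟨w, hw, hwD⟩
          exact hbD (hboth p hpS hpD w hw hwD)
        simp only [hpD, hqD, hbD, hn, if_true, if_false]
    · by_cases hqD : q ∈ D
      · have hn : ¬ ∃ w ∈ segment ℝ p (f t), w ∈ D := by
          rintro ⟨w, hw, hwD⟩
          exact hbD (hboth w hw hwD q hqS hqD)
        simp only [hpD, hqD, hbD, hn, if_true, if_false]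
      · simp only [hpD, hqD, hbD, if_false, hsplit]
        by_cases h1 : ∃ w ∈ segment ℝ p (f t), w ∈ D
        · have hn : ¬ ∃ w ∈ segment ℝ (f t) q, w ∈ D := by
            rintro ⟨w, hw, hwD⟩
            obtain ⟨w', hw', hwD'⟩ := h1
            exact hbD (hboth w' hw' hwD' w hw hwD)
          simp only [h1, hn, true_or, if_true, if_false]
        · by_cases h2 : ∃ w ∈ segment ℝ (f t) q, w ∈ D
          · simp only [h1, h2, or_true, if_true, if_false]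
          · simp only [h1, h2, or_self, if_false]

theorem chi_meets (T : Trap) {p q : ℝ × ℝ} (hpq : p.1 ≠ q.1) (h : chi T.car p q ≠ 0) :
    Meets (lin p q) T.car := by
  have hex : ∃ w ∈ segment ℝ p q, w ∈ T.car := by
    by_cases hp : p ∈ T.car
    · exact ⟨p, left_mem_segment ℝ _ _, hp⟩
    · by_cases hq : q ∈ T.car
      · exact ⟨q, right_mem_segment ℝ _ _, hq⟩
      · by_contra hn
        apply h
        unfold chi
        simp only [hp, hq, hn, if_false]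
  obtain ⟨w, hw, hwT⟩ := hex
  refine ⟨w, hwT, ?_⟩
  rw [segment_eq_image'] at hw
  obtain ⟨s, _, rfl⟩ := hw
  have hne : q.1 - p.1 ≠ 0 := sub_ne_zero.2 (Ne.symm hpq)
  simp only [ht, lin, Prod.fst_add, Prod.snd_add, Prod.smul_fst, Prod.smul_snd, Prod.fst_sub,
    Prod.snd_sub, smul_eq_mul]
  field_simp
  ring

end Pool.H34.BN
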