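import Pool.Agent.H34.BN.Defs

/-! T4: the crossing number `chi` depends only on the signs of 20 affine functionals. -/

open Classical

namespace Pool.H34.BN

/-- the four functionals whose positivity defines the trapezoid -/
def trapG (T : Trap) : Fin 4 → ℝ × ℝ × ℝ :=
  ![(1, 0, -T.l), (-1, 0, T.r), (-T.b.1, 1, -T.b.2), (T.t.1, -1, T.t.2)]

theorem mem_car_iff (T : Trap) (w : ℝ × ℝ) : w ∈ T.car ↔ ∀ j, 0 < aff (trapG T j) w := by
  constructor
  · rintro ⟨h1, h2, h3, h4⟩ j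
    unfold ht at h3 h4
    fin_cases j
    · show 0 < 1 * w.1 + 0 * w.2 + -T.l
      linarith
    · show 0 < -1 * w.1 + 0 * w.2 + T.r
      linarith
    · show 0 < -T.b.1 * w.1 + 1 * w.2 + -T.b.2
      linarith
    · show 0 < T.t.1 * w.1 + -1 * w.2 + T.t.2
      linarith
  · intro h
    have h0 : 0 < 1 * w.1 + 0 * w.2 + -T.l := h 0
    have h1 : 0 < -1 * w.1 + 0 * w.2 + T.r := h 1
    have h2 : 0 < -T.b.1 * w.1 + 1 * w.2 + -T.b.2 := h 2
    have h3 : 0 < T.t.1 * w.1 + -1 * w.2 + T.t.2 := h 3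
    refine ⟨by linarith, by linarith, ?_, ?_⟩
    · unfold ht
      linarith
    · unfold ht
      linarith

theorem exists_u {ι : Type} [Fintype ι] (a b b' : ι → ℝ) (hb : ∀ j, 0 < b j ↔ 0 < b' j)
    (hh : ∀ j k, 0 < a k * b j - a j * b k ↔ 0 < a k * b' j - a j * b' k)
    (h : ∃ u : ℝ, 0 ≤ u ∧ u ≤ 1 ∧ ∀ j, 0 < (1 - u) * a j + u * b j) :
    ∃ u : ℝ, 0 ≤ u ∧ u ≤ 1 ∧ ∀ j, 0 < (1 - u) * a j + u * b' j := by
  obtain ⟨u, hu0, hu1, hu⟩ := h
  let lo : Finset ℝ := insert 0 ((Finset.univ.filter (fun j => a j ≤ 0 ∧ 0 < b' j)).image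
    (fun j => -a j / (b' j - a j)))
  let hi : Finset ℝ := insert 1 ((Finset.univ.filter (fun j => 0 < a j ∧ b' j ≤ 0)).image
    (fun j => a j / (a j - b' j)))
  have hlt : ∀ x ∈ lo, ∀ y ∈ hi, x < y := by
    intro x hx y hy
    rcases Finset.mem_insert.1 hx with rfl | hx
    · rcases Finset.mem_insert.1 hy with rfl | hy
      · exact one_pos
      · obtain ⟨k, hk, rfl⟩ := Finset.mem_image.1 hy
        obtain ⟨-, hk1, hk2⟩ := Finset.mem_filter.1 hk
        exact div_pos hk1 (by linarith)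
    · obtain ⟨j, hj, rfl⟩ := Finset.mem_image.1 hx
      obtain ⟨-, hj1, hj2⟩ := Finset.mem_filter.1 hj
      rcases Finset.mem_insert.1 hy with rfl | hy
      · rw [div_lt_one (by linarith)]
        linarith
      · obtain ⟨k, hk, rfl⟩ := Finset.mem_image.1 hy
        obtain ⟨-, hk1, hk2⟩ := Finset.mem_filter.1 hk
        have hbj : 0 < b j := (hb j).2 hj2
        have hbk : b k ≤ 0 := by
          by_contra hcon
          push Not at hcon
          exact absurd ((hb k).1 hcon) (by linarith)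
        have h1 := mul_pos hk1 (hu j)
        have h2 := mul_nonneg (neg_nonneg.2 hj1) (hu k).le
        have h3 : 0 < u * (a k * b j - a j * b k) := by nlinarith [h1, h2]
        have h4 : 0 < a k * b j - a j * b k := by
          by_contra hcon
          push Not at hcon
          have := mul_nonpos_of_nonneg_of_nonpos hu0 hcon
          linarith
        have h5 := (hh j k).1 h4
        rw [div_lt_div_iff₀ (by linarith) (by linarith)]
        nlinarith [h5]
  obtain ⟨m, hm1, hm2⟩ := Order.exists_between_finsets lo hi hlt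
  have hm0 : 0 < m := hm1 0 (Finset.mem_insert_self _ _)
  have hm3 : m < 1 := hm2 1 (Finset.mem_insert_self _ _)
  refine ⟨m, hm0.le, hm3.le, fun j => ?_⟩
  rcases lt_or_ge 0 (a j) with ha | ha
  · rcases lt_or_ge 0 (b' j) with hb' | hb'
    · have h1 := mul_pos (sub_pos.2 hm3) ha
      have h2 := mul_pos hm0 hb'
      linarith
    · have h1 := hm2 (a j / (a j - b' j)) (Finset.mem_insert_of_mem
        (Finset.mem_image.2 ⟨j, Finset.mem_filter.2 ⟨Finset.mem_univ _, ha, hb'⟩, rfl⟩))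
      rw [lt_div_iff₀ (by linarith)] at h1
      linarith
  · rcases lt_or_ge 0 (b' j) with hb' | hb'
    · have h1 := hm1 (-a j / (b' j - a j)) (Finset.mem_insert_of_mem
        (Finset.mem_image.2 ⟨j, Finset.mem_filter.2 ⟨Finset.mem_univ _, ha, hb'⟩, rfl⟩))
      rw [div_lt_iff₀ (by linarith)] at h1
      linarith
    · exfalso
      have hbj : b j ≤ 0 := by
        by_contra hcon
        push Not at hcon
        exact absurd ((hb j).1 hcon) (by linarith)
      have h1 := mul_nonpos_of_nonneg_of_nonpos (sub_nonneg.2 hu1) ha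
      have h2 := mul_nonpos_of_nonneg_of_nonpos hu0 hbj
      have h3 := hu j
      linarith

theorem aff_comb (g : ℝ × ℝ × ℝ) (p z : ℝ × ℝ) (u : ℝ) :
    aff g ((1 - u) • p + u • z) = (1 - u) * aff g p + u * aff g z := by
  simp only [aff, Prod.fst_add, Prod.snd_add, Prod.smul_fst, Prod.smul_snd, smul_eq_mul]
  ring

theorem seg_iff (T : Trap) (p z : ℝ × ℝ) :
    (∃ w ∈ segment ℝ p z, w ∈ T.car) ↔
      ∃ u : ℝ, 0 ≤ u ∧ u ≤ 1 ∧ ∀ j, 0 < (1 - u) * aff (trapG T j) p + u * aff (trapG T j) z := by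
  rw [segment_eq_image]
  constructor
  · rintro ⟨w, ⟨u, ⟨hu0, hu1⟩, rfl⟩, hw⟩
    refine ⟨u, hu0, hu1, fun j => ?_⟩
    rw [← aff_comb]
    exact (mem_car_iff T _).1 hw j
  · rintro ⟨u, hu0, hu1, hu⟩
    refine ⟨_, ⟨u, ⟨hu0, hu1⟩, rfl⟩, (mem_car_iff T _).2 fun j => ?_⟩
    rw [aff_comb]
    exact hu j

/-- the combination `g_k(p) g_j - g_j(p) g_k` -/
def hcomb (T : Trap) (p : ℝ × ℝ) (jk : Fin 4 × Fin 4) : ℝ × ℝ × ℝ :=
  (aff (trapG T jk.2) p * (trapG T jk.1).1 - aff (trapG T jk.1) p * (trapG T jk.2).1,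
   aff (trapG T jk.2) p * (trapG T jk.1).2.1 - aff (trapG T jk.1) p * (trapG T jk.2).2.1,
   aff (trapG T jk.2) p * (trapG T jk.1).2.2 - aff (trapG T jk.1) p * (trapG T jk.2).2.2)

theorem aff_hcomb (T : Trap) (p z : ℝ × ℝ) (j k : Fin 4) :
    aff (hcomb T p (j, k)) z = aff (trapG T k) p * aff (trapG T j) z
      - aff (trapG T j) p * aff (trapG T k) z := by
  show (aff (trapG T k) p * (trapG T j).1 - aff (trapG T j) p * (trapG T k).1) * z.1
    + (aff (trapG T k) p * (trapG T j).2.1 - aff (trapG T j) p * (trapG T k).2.1) * z.2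
    + (aff (trapG T k) p * (trapG T j).2.2 - aff (trapG T j) p * (trapG T k).2.2) = _
  generalize aff (trapG T k) p = s
  generalize aff (trapG T j) p = t
  unfold aff
  ring

theorem chi_sign (T : Trap) (p : ℝ × ℝ) :
    ∃ G : Fin 20 → ℝ × ℝ × ℝ, ∀ z z' : ℝ × ℝ,
      (∀ i, 0 < aff (G i) z ↔ 0 < aff (G i) z') → chi T.car p z = chi T.car p z' := by
  have hcard : Fintype.card (Fin 4 ⊕ (Fin 4 × Fin 4)) = 20 := by simp
  let e : (Fin 4 ⊕ (Fin 4 × Fin 4)) ≃ Fin 20 := Fintype.equivFinOfCardEq hcard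
  refine ⟨fun i => Sum.elim (trapG T) (hcomb T p) (e.symm i), fun z z' h => ?_⟩
  have hg : ∀ j, 0 < aff (trapG T j) z ↔ 0 < aff (trapG T j) z' := by
    intro j
    have := h (e (Sum.inl j))
    simpa using this
  have hk : ∀ j k, 0 < aff (trapG T k) p * aff (trapG T j) z - aff (trapG T j) p * aff (trapG T k) z
      ↔ 0 < aff (trapG T k) p * aff (trapG T j) z' - aff (trapG T j) p * aff (trapG T k) z' := by
    intro j k
    have := h (e (Sum.inr (j, k)))
    simp only [Equiv.symm_apply_apply, Sum.elim_inr] at this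
    rw [aff_hcomb, aff_hcomb] at this
    exact this
  have h1 : z ∈ T.car ↔ z' ∈ T.car := by
    rw [mem_car_iff, mem_car_iff]
    exact forall_congr' hg
  have h2 : (∃ w ∈ segment ℝ p z, w ∈ T.car) ↔ (∃ w ∈ segment ℝ p z', w ∈ T.car) := by
    rw [seg_iff, seg_iff]
    constructor
    · exact exists_u _ _ _ hg hk
    · exact exists_u _ _ _ (fun j => (hg j).symm) (fun j k => (hk j k).symm)
  unfold chi
  by_cases hp : p ∈ T.car
  · rw [if_pos hp, if_pos hp]
    by_cases hz : z ∈ T.car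
    · rw [if_pos hz, if_pos (h1.1 hz)]
    · rw [if_neg hz, if_neg (fun h3 => hz (h1.2 h3))]
  · rw [if_neg hp, if_neg hp]
    by_cases hz : z ∈ T.car
    · rw [if_pos hz, if_pos (h1.1 hz)]
    · rw [if_neg hz, if_neg (fun h3 => hz (h1.2 h3))]
      by_cases hs : ∃ w ∈ segment ℝ p z, w ∈ T.car
      · rw [if_pos hs, if_pos (h2.1 hs)]
      · rw [if_neg hs, if_neg (fun h3 => hs (h2.2 h3))]

end Pool.H34.BN
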