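import Pool.Agent.H34.BN.CutB

/-! The cutting lemma `cut`. -/

open Classical

namespace Pool.H34.BN

theorem CutAux.big_trap (X : Finset (ℝ × ℝ)) :
    ∃ T : Trap, ∀ z ∈ X, z ∈ T.car := by
  obtain ⟨A, Y, hB⟩ := CutAux.box_exists X
  refine ⟨⟨-A, A, (0, -Y), (0, Y)⟩, fun z hz => ?_⟩
  have h1 := abs_lt.mp (hB.1 z hz).1
  have h2 := abs_lt.mp (hB.1 z hz).2
  refine ⟨h1.1, h1.2, ?_, ?_⟩
  · simp only [ht]; linarith [h2.1]
  · simp only [ht]; linarith [h2.2]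

theorem cut (X : Finset (ℝ × ℝ)) (hX : Gen X) (hX3 : NoThree X) (X' : Finset (ℝ × ℝ))
    (hX' : X' ⊆ X) (g : ℕ) (hg : 1 ≤ g) (hg' : g ≤ X'.card) :
    ∃ T : Trap, (X'.filter (fun x => x ∈ T.car)).card = g ∧
      ((X.offDiag.filter (fun e => Meets (lin e.1 e.2) T.car)).card : ℝ)
        ≤ 400 * Real.sqrt ((g : ℝ) / X'.card) * (X.card : ℝ) ^ 2 := by
  have hdist : ∀ p ∈ X', ∀ q ∈ X', p.1 = q.1 → p = q :=
    fun p hp q hq h => hX.1 p (hX' hp) q (hX' hq) h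
  have hmpos : 0 < X'.card := lt_of_lt_of_le hg hg'
  have hmR : (0 : ℝ) < X'.card := by exact_mod_cast hmpos
  have hgR : (1 : ℝ) ≤ g := by exact_mod_cast hg
  by_cases hcase : X'.card < 288 * g
  · obtain ⟨T, hT⟩ := CutAux.big_trap X'
    have hTc : (X'.filter (fun x => x ∈ T.car)).card = g + (X'.card - g) := by
      rw [Finset.filter_true_of_mem hT]; omega
    obtain ⟨T', -, hT'⟩ := CutAux.shrink X' hdist g _ T hTc
    refine ⟨T', hT', ?_⟩
    have h1 : ((X.offDiag.filter (fun e => Meets (lin e.1 e.2) T'.car)).card : ℝ)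
        ≤ (X.card : ℝ) ^ 2 := by
      have h2 : (X.offDiag.filter (fun e => Meets (lin e.1 e.2) T'.car)).card ≤ X.card ^ 2 := by
        refine (Finset.card_filter_le _ _).trans ?_
        rw [Finset.offDiag_card, sq]
        exact Nat.sub_le _ _
      exact_mod_cast h2
    have h3 : (1 : ℝ) ≤ 400 * Real.sqrt ((g : ℝ) / X'.card) := by
      have h4 : (1 / 400 : ℝ) ≤ Real.sqrt ((g : ℝ) / X'.card) := by
        refine Real.le_sqrt_of_sq_le ?_
        rw [le_div_iff₀ hmR]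
        have h5 : (X'.card : ℝ) < 288 * g := by exact_mod_cast hcase
        nlinarith
      linarith
    calc _ ≤ (X.card : ℝ) ^ 2 := h1
      _ = 1 * (X.card : ℝ) ^ 2 := (one_mul _).symm
      _ ≤ _ := mul_le_mul_of_nonneg_right h3 (by positivity)
  · have hcase' : 288 * g ≤ X'.card := not_lt.mp hcase
    obtain ⟨r, hr⟩ : ∃ r, r = Nat.sqrt (X'.card / (8 * g)) := ⟨_, rfl⟩
    have hr1 : r * r ≤ X'.card / (8 * g) := hr ▸ Nat.sqrt_le _
    have hr2 : X'.card / (8 * g) < (r + 1) * (r + 1) := by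
      rw [hr]; exact Nat.lt_succ_sqrt _
    have h8g : 0 < 8 * g := by omega
    have h36 : 36 ≤ X'.card / (8 * g) := by
      rw [Nat.le_div_iff_mul_le h8g]; omega
    have hr6 : 6 ≤ r := by
      rw [hr, Nat.le_sqrt]; omega
    obtain ⟨s, hs⟩ : ∃ s, r = s + 2 := ⟨r - 2, by omega⟩
    have hs4 : 4 ≤ s := by omega
    have hm1 : 8 * g * (s + 2) ^ 2 ≤ X'.card := by
      rw [Nat.le_div_iff_mul_le h8g, hs] at hr1
      calc 8 * g * (s + 2) ^ 2 = (s + 2) * (s + 2) * (8 * g) := by ring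
        _ ≤ _ := hr1
    have hm2 : X'.card < (s + 3) * (s + 3) * (8 * g) := by
      rw [Nat.div_lt_iff_lt_mul h8g, hs] at hr2
      exact hr2
    obtain ⟨T, hTg, hTm⟩ := CutAux.core X hX hX3 X' hX' g s hg (by omega) hm1
    obtain ⟨T', hT'c, hT'g⟩ := CutAux.shrink X' hdist g _ T (Nat.add_sub_cancel' hTg).symm
    refine ⟨T', hT'g, ?_⟩
    have hle : (X.offDiag.filter (fun e => Meets (lin e.1 e.2) T'.car)).card
        ≤ (X.offDiag.filter (fun e => Meets (lin e.1 e.2) T.car)).card := by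
      refine Finset.card_le_card ?_
      intro e he
      rw [Finset.mem_filter] at he ⊢
      obtain ⟨w, hw, hwe⟩ := he.2
      exact ⟨he.1, w, hT'c hw, hwe⟩
    have hsR : (4 : ℝ) ≤ s := by exact_mod_cast hs4
    have h1 : (s : ℝ) * ((X.offDiag.filter (fun e => Meets (lin e.1 e.2) T'.car)).card : ℝ)
        ≤ 48 * (X.card : ℝ) ^ 2 := by
      have h2 : s * (X.offDiag.filter (fun e => Meets (lin e.1 e.2) T'.car)).card
        ≤ 48 * X.card ^ 2 := (Nat.mul_le_mul_left _ hle).trans hTm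
      exact_mod_cast h2
    have h3 : (48 : ℝ) ≤ s * (400 * Real.sqrt ((g : ℝ) / X'.card)) := by
      have hmlt : (X'.card : ℝ) < (s + 3) * (s + 3) * (8 * g) := by exact_mod_cast hm2
      have h4 : (48 / (400 * s) : ℝ) ≤ Real.sqrt ((g : ℝ) / X'.card) := by
        refine Real.le_sqrt_of_sq_le ?_
        rw [le_div_iff₀ hmR, div_pow, div_mul_eq_mul_div, div_le_iff₀ (by positivity)]
        have h5 : (s + 3 : ℝ) * (s + 3) ≤ 49 / 16 * (s : ℝ) ^ 2 := by nlinarith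
        have h6 : (s + 3 : ℝ) * (s + 3) * (8 * g) ≤ 49 / 16 * (s : ℝ) ^ 2 * (8 * g) :=
          mul_le_mul_of_nonneg_right h5 (by positivity)
        nlinarith [mul_nonneg (sq_nonneg (s : ℝ)) (by linarith : (0 : ℝ) ≤ g)]
      have h7 := mul_le_mul_of_nonneg_left h4 (by positivity : (0 : ℝ) ≤ 400 * s)
      calc (48 : ℝ) = 400 * s * (48 / (400 * s)) := by field_simp
        _ ≤ _ := h7
        _ = _ := by ring
    obtain ⟨c, hc⟩ : ∃ c : ℝ, c
      = ((X.offDiag.filter (fun e => Meets (lin e.1 e.2) T'.car)).card : ℝ) := ⟨_, rfl⟩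
    obtain ⟨u, hu⟩ : ∃ u : ℝ, u = 400 * Real.sqrt ((g : ℝ) / X'.card) := ⟨_, rfl⟩
    rw [← hc] at h1 ⊢
    rw [← hu] at h3 ⊢
    have h8 : (s : ℝ) * c ≤ s * (u * (X.card : ℝ) ^ 2) := by
      calc (s : ℝ) * c ≤ 48 * (X.card : ℝ) ^ 2 := h1
        _ ≤ (s * u) * (X.card : ℝ) ^ 2 := mul_le_mul_of_nonneg_right h3 (by positivity)
        _ = _ := by ring
    exact le_of_mul_le_mul_left h8 (by linarith)

end Pool.H34.BN
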