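import Pool.Agent.H34.BN.Trap1

/-! Helpers for `cut`: lines through a point of `X`, bad samples, existence of the trapezoid of a
good point, shrinking of a trapezoid. -/

open Classical

namespace Pool.H34.BN.CutAux

/-- `z` on the line through `p`, `q` -/
theorem collinear_of_ht {p q z : ℝ × ℝ} (hpq : p.1 ≠ q.1) (h : ht (lin p q) z.1 = z.2) :
    Collinear ℝ ({p, q, z} : Set (ℝ × ℝ)) := by
  rw [collinear_iff_of_mem (p₀ := p) (by simp)]
  refine ⟨q - p, ?_⟩
  have hd : q.1 - p.1 ≠ 0 := sub_ne_zero.mpr (Ne.symm hpq)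
  intro w hw
  simp only [Set.mem_insert_iff, Set.mem_singleton_iff] at hw
  rcases hw with rfl | rfl | rfl
  · exact ⟨0, by simp⟩
  · exact ⟨1, by simp⟩
  · refine ⟨(w.1 - p.1) / (q.1 - p.1), ?_⟩
    have h' : w.2 = (q.2 - p.2) / (q.1 - p.1) * w.1 + (p.2 - (q.2 - p.2) / (q.1 - p.1) * p.1) := by
      rw [← h]; rfl
    ext
    · simp only [vadd_eq_add, Prod.fst_add, Prod.smul_fst, Prod.fst_sub, smul_eq_mul]
      field_simp
      ring
    · simp only [vadd_eq_add, Prod.snd_add, Prod.smul_snd, Prod.snd_sub, smul_eq_mul]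
      rw [h']
      field_simp
      ring

theorem card_E (X : Finset (ℝ × ℝ)) :
    Fintype.card {e // e ∈ X.offDiag} = X.card * (X.card - 1) := by
  rw [Fintype.card_coe, Finset.offDiag_card, Nat.mul_sub_one]

theorem on_line_card (X : Finset (ℝ × ℝ)) (hX : Gen X) (hX3 : NoThree X) (z : ℝ × ℝ)
    (hz : z ∈ X) :
    X.card * (Finset.univ.filter
      (fun e : {e // e ∈ X.offDiag} => ht (lin e.1.1 e.1.2) z.1 = z.2)).card
      ≤ 2 * Fintype.card {e // e ∈ X.offDiag} := by
  have h1 : (Finset.univ.filter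
      (fun e : {e // e ∈ X.offDiag} => ht (lin e.1.1 e.1.2) z.1 = z.2)).card
      ≤ (({z} ×ˢ X.erase z) ∪ (X.erase z ×ˢ {z})).card := by
    refine Finset.card_le_card_of_injOn (fun e => e.1) ?_ (fun a _ b _ hab => Subtype.ext hab)
    intro e he
    have he' : ht (lin e.1.1 e.1.2) z.1 = z.2 := by simpa using he
    have hm := e.2
    rw [Finset.mem_offDiag] at hm
    obtain ⟨hp, hq, hne⟩ := hm
    have hpq : e.1.1.1 ≠ e.1.2.1 := fun h => hne (hX.1 _ hp _ hq h)
    have hcol := collinear_of_ht hpq he'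
    simp only [Finset.coe_union, Finset.coe_product, Set.mem_union, Set.mem_prod,
      Finset.mem_coe, Finset.mem_singleton, Finset.mem_erase]
    by_cases h1 : e.1.1 = z
    · left
      exact ⟨h1, fun h => hne (h1.trans h.symm), hq⟩
    · by_cases h2 : e.1.2 = z
      · right
        exact ⟨⟨h1, hp⟩, h2⟩
      · exact absurd hcol (hX3 _ hp _ hq _ hz hne h1 h2)
  have h2 : (({z} ×ˢ X.erase z) ∪ (X.erase z ×ˢ {z})).card ≤ 2 * (X.card - 1) := by
    refine (Finset.card_union_le _ _).trans ?_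
    rw [Finset.card_product, Finset.card_product, Finset.card_singleton,
      Finset.card_erase_of_mem hz]
    omega
  rw [card_E]
  calc _ ≤ X.card * (2 * (X.card - 1)) := Nat.mul_le_mul_left _ (h1.trans h2)
    _ = 2 * (X.card * (X.card - 1)) := by ring

/-- bad samples are rare -/
theorem bad_card (X : Finset (ℝ × ℝ)) (hX : Gen X) (hX3 : NoThree X) (z : ℝ × ℝ)
    (hz : z ∈ X) (s : ℕ) :
    X.card * (Finset.univ.filter
      (fun τ : Fin s → {e // e ∈ X.offDiag} => ¬ Good τ z)).card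
      ≤ 2 * s * (Fintype.card {e // e ∈ X.offDiag}) ^ s := by
  obtain ⟨B, hB⟩ : ∃ B : Finset {e // e ∈ X.offDiag}, B = Finset.univ.filter
      (fun e : {e // e ∈ X.offDiag} => ht (lin e.1.1 e.1.2) z.1 = z.2) := ⟨_, rfl⟩
  have hBc : X.card * B.card ≤ 2 * Fintype.card {e // e ∈ X.offDiag} := by
    rw [hB]; exact on_line_card X hX hX3 z hz
  have hone : ∀ i : Fin s, X.card * (Finset.univ.filter
      (fun τ : Fin s → {e // e ∈ X.offDiag} => τ i ∈ B)).card
        ≤ 2 * (Fintype.card {e // e ∈ X.offDiag}) ^ s := by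
    intro i
    have h1 : (Finset.univ.filter
      (fun τ : Fin s → {e // e ∈ X.offDiag} => τ i ∈ B)).card
        ≤ (Fintype.piFinset (fun j : Fin s => if j = i then B else Finset.univ)).card := by
      refine Finset.card_le_card ?_
      intro τ hτ
      have hτ' : τ i ∈ B := by simpa using hτ
      rw [Fintype.mem_piFinset]
      intro j
      by_cases hj : j = i
      · subst hj; simpa using hτ'
      · simp [hj]
    have h2 : (Fintype.piFinset (fun j : Fin s => if j = i then B else Finset.univ)).card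
        = B.card * (Fintype.card {e // e ∈ X.offDiag}) ^ (s - 1) := by
      rw [Fintype.card_piFinset, ← Finset.mul_prod_erase Finset.univ _ (Finset.mem_univ i)]
      congr 1
      · simp
      · rw [Finset.prod_congr rfl (g := fun _ => Fintype.card {e // e ∈ X.offDiag})]
        · rw [Finset.prod_const, Finset.card_erase_of_mem (Finset.mem_univ i), Finset.card_univ,
            Fintype.card_fin]
        · intro j hj
          have : j ≠ i := (Finset.mem_erase.mp hj).1
          rw [if_neg this]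
          rfl
    have hs : s = (s - 1) + 1 := by have := i.2; omega
    calc _ ≤ X.card * (B.card * (Fintype.card {e // e ∈ X.offDiag}) ^ (s - 1)) :=
          Nat.mul_le_mul_left _ (h1.trans h2.le)
      _ = (X.card * B.card) * (Fintype.card {e // e ∈ X.offDiag}) ^ (s - 1) := by ring
      _ ≤ (2 * Fintype.card {e // e ∈ X.offDiag}) *
            (Fintype.card {e // e ∈ X.offDiag}) ^ (s - 1) := Nat.mul_le_mul_right _ hBc
      _ = 2 * (Fintype.card {e // e ∈ X.offDiag}) ^ ((s - 1) + 1) := by ring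
      _ = 2 * (Fintype.card {e // e ∈ X.offDiag}) ^ s := by rw [← hs]
  have hsub : (Finset.univ.filter
      (fun τ : Fin s → {e // e ∈ X.offDiag} => ¬ Good τ z))
      ⊆ Finset.univ.biUnion (fun i : Fin s => Finset.univ.filter
      (fun τ : Fin s → {e // e ∈ X.offDiag} => τ i ∈ B)) := by
    intro τ hτ
    have hτ' : ¬ Good τ z := by simpa using hτ
    unfold Good at hτ'
    push Not at hτ'
    obtain ⟨i, hi⟩ := hτ'
    simp only [Finset.mem_biUnion, Finset.mem_univ, true_and, Finset.mem_filter]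
    exact ⟨i, by rw [hB]; simpa using hi⟩
  calc _ ≤ X.card * ∑ i : Fin s, (Finset.univ.filter
      (fun τ : Fin s → {e // e ∈ X.offDiag} => τ i ∈ B)).card :=
          Nat.mul_le_mul_left _ ((Finset.card_le_card hsub).trans Finset.card_biUnion_le)
    _ = ∑ i : Fin s, X.card * (Finset.univ.filter
      (fun τ : Fin s → {e // e ∈ X.offDiag} => τ i ∈ B)).card := Finset.mul_sum _ _ _
    _ ≤ ∑ _i : Fin s, 2 * (Fintype.card {e // e ∈ X.offDiag}) ^ s :=
          Finset.sum_le_sum (fun i _ => hone i)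
    _ = 2 * s * (Fintype.card {e // e ∈ X.offDiag}) ^ s := by
        rw [Finset.sum_const, Finset.card_univ, Fintype.card_fin, smul_eq_mul]; ring

/-- the trapezoid of a good point exists -/
theorem trap_of_good (X : Finset (ℝ × ℝ)) (hX : Gen X) (A Y : ℝ) (hB : Box X A Y) {s : ℕ}
    (τ : Fin s → {e // e ∈ X.offDiag}) (z : ℝ × ℝ) (hz : z ∈ X) (hg : Good τ z) :
    ∃ T, IsTrap (SS Y τ) A z T := by
  have hzB := hB.1 z hz
  have hzY := abs_lt.mp hzB.2
  have hY : 0 < Y := lt_of_le_of_lt (abs_nonneg _) hzB.2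
  have hline : ∀ i, |ht (lin (τ i).1.1 (τ i).1.2) z.1| < Y := fun i => hB.2 _ (τ i).2 z hz
  refine isTrap_exists (SS Y τ) A Y z (by simp [SS]) (by simp [SS]) hzB.2 hzB.1 ?_ ?_
  · intro L hL
    simp only [SS, Finset.mem_insert, Finset.mem_image, Finset.mem_univ, true_and] at hL
    rcases hL with rfl | rfl | ⟨i, rfl⟩
    · simp only [ht]; intro h; linarith [hzY.2]
    · simp only [ht]; intro h; linarith [hzY.1]
    · exact hg i
  · intro L hL M hM hLM
    simp only [SS, Finset.mem_insert, Finset.mem_image, Finset.mem_univ, true_and] at hL hM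
    rcases hL with rfl | rfl | ⟨i, rfl⟩ <;> rcases hM with rfl | rfl | ⟨j, rfl⟩
    · rfl
    · simp only [ht] at hLM; exfalso; linarith
    · exfalso
      have := abs_lt.mp (hline j)
      rw [← hLM] at this
      simp only [ht] at this
      linarith [this.2]
    · simp only [ht] at hLM; exfalso; linarith
    · rfl
    · exfalso
      have := abs_lt.mp (hline j)
      rw [← hLM] at this
      simp only [ht] at this
      linarith [this.1]
    · exfalso
      have := abs_lt.mp (hline i)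
      rw [hLM] at this
      simp only [ht] at this
      linarith [this.2]
    · exfalso
      have := abs_lt.mp (hline i)
      rw [hLM] at this
      simp only [ht] at this
      linarith [this.1]
    · have hi := (τ i).2
      have hj := (τ j).2
      rw [Finset.mem_offDiag] at hi hj
      rcases hX.2 _ hi.1 _ hi.2.1 _ hj.1 _ hj.2.1 hi.2.2 hj.2.2 z hz hLM with h | h
      · exact h
      · exact absurd h (hg i)

/-- shrinking the right wall until exactly `g` points are left -/
theorem shrink (X' : Finset (ℝ × ℝ)) (hX' : ∀ p ∈ X', ∀ q ∈ X', p.1 = q.1 → p = q) (g : ℕ) :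
    ∀ (k : ℕ) (T : Trap), (X'.filter (fun x => x ∈ T.car)).card = g + k →
      ∃ T' : Trap, T'.car ⊆ T.car ∧ (X'.filter (fun x => x ∈ T'.car)).card = g := by
  intro k
  induction k with
  | zero => exact fun T hT => ⟨T, subset_rfl, by simpa using hT⟩
  | succ k ih =>
    intro T hT
    have hne : (X'.filter (fun x => x ∈ T.car)).Nonempty := by
      rw [← Finset.card_pos, hT]; omega
    obtain ⟨x0, hx0, hmax⟩ := Finset.exists_max_image _ (fun x : ℝ × ℝ => x.1) hne
    rw [Finset.mem_filter] at hx0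
    have hx0c : T.l < x0.1 ∧ x0.1 < T.r ∧ ht T.b x0.1 < x0.2 ∧ x0.2 < ht T.t x0.1 := hx0.2
    have hcar : (Trap.mk T.l x0.1 T.b T.t).car ⊆ T.car := by
      intro w hw
      have hw' : T.l < w.1 ∧ w.1 < x0.1 ∧ ht T.b w.1 < w.2 ∧ w.2 < ht T.t w.1 := hw
      exact ⟨hw'.1, hw'.2.1.trans hx0c.2.1, hw'.2.2⟩
    have heq : X'.filter (fun x => x ∈ (Trap.mk T.l x0.1 T.b T.t).car)
        = (X'.filter (fun x => x ∈ T.car)).erase x0 := by
      ext w
      rw [Finset.mem_filter, Finset.mem_erase, Finset.mem_filter]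
      constructor
      · rintro ⟨hw, hwc⟩
        refine ⟨?_, hw, hcar hwc⟩
        rintro rfl
        exact lt_irrefl _ hwc.2.1
      · rintro ⟨hne', hw, hwc⟩
        have hwc' : T.l < w.1 ∧ w.1 < T.r ∧ ht T.b w.1 < w.2 ∧ w.2 < ht T.t w.1 := hwc
        have hle : w.1 ≤ x0.1 := hmax w (Finset.mem_filter.mpr ⟨hw, hwc⟩)
        have hlt : w.1 < x0.1 := lt_of_le_of_ne hle (fun h => hne' (hX' _ hw _ hx0.1 h))
        exact ⟨hw, hwc'.1, hlt, hwc'.2.2⟩
    have hc : (X'.filter (fun x => x ∈ (Trap.mk T.l x0.1 T.b T.t).car)).card = g + k := by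
      rw [heq, Finset.card_erase_of_mem (Finset.mem_filter.mpr hx0), hT]; rfl
    obtain ⟨T', hT', hT'c⟩ := ih _ hc
    exact ⟨T', hT'.trans hcar, hT'c⟩

/-- a large box exists -/
theorem box_exists (X : Finset (ℝ × ℝ)) : ∃ A Y : ℝ, Box X A Y := by
  obtain ⟨A, hA⟩ : ∃ A : ℝ, ∀ z ∈ X, |z.1| < A := by
    refine ⟨∑ z ∈ X, |z.1| + 1, fun z hz => ?_⟩
    have := Finset.single_le_sum (f := fun z : ℝ × ℝ => |z.1|) (fun i _ => abs_nonneg _) hz
    linarith
  obtain ⟨Y1, hY1⟩ : ∃ Y : ℝ, ∀ z ∈ X, |z.2| < Y := by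
    refine ⟨∑ z ∈ X, |z.2| + 1, fun z hz => ?_⟩
    have := Finset.single_le_sum (f := fun z : ℝ × ℝ => |z.2|) (fun i _ => abs_nonneg _) hz
    linarith
  obtain ⟨Y2, hY2⟩ : ∃ Y : ℝ, ∀ u ∈ X.offDiag ×ˢ X, |ht (lin u.1.1 u.1.2) u.2.1| < Y := by
    refine ⟨∑ u ∈ X.offDiag ×ˢ X, |ht (lin u.1.1 u.1.2) u.2.1| + 1, fun u hu => ?_⟩
    have := Finset.single_le_sum
      (f := fun u : ((ℝ × ℝ) × (ℝ × ℝ)) × (ℝ × ℝ) => |ht (lin u.1.1 u.1.2) u.2.1|)
      (fun i _ => abs_nonneg _) hu
    linarith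
  refine ⟨A, max Y1 Y2, ⟨fun z hz => ⟨hA z hz, lt_max_of_lt_left (hY1 z hz)⟩, ?_⟩⟩
  intro e he z hz
  exact lt_max_of_lt_right (hY2 (e, z) (Finset.mem_product.mpr ⟨he, hz⟩))

theorem SS_card {X : Finset (ℝ × ℝ)} (Y : ℝ) {s : ℕ} (τ : Fin s → {e // e ∈ X.offDiag}) :
    (SS Y τ).card ≤ s + 2 := by
  unfold SS
  refine (Finset.card_insert_le _ _).trans ?_
  have h1 := Finset.card_insert_le ((0 : ℝ), -Y)
    (Finset.univ.image (fun i => lin (τ i).1.1 (τ i).1.2))
  have h2 : (Finset.univ.image (fun i => lin (τ i).1.1 (τ i).1.2)).card ≤ s := by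
    refine Finset.card_image_le.trans ?_
    rw [Finset.card_univ, Fintype.card_fin]
  omega

end Pool.H34.BN.CutAux
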