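import Pool.Agent.H34.BN.Defs

/-! Uniqueness, stability and counting of the trapezoids of a vertical decomposition. -/

open Classical

namespace Pool.H34.BN

theorem ht_two {L M : ℝ × ℝ} {x y : ℝ} (hxy : x ≠ y) (hx : ht L x = ht M x)
    (hy : ht L y = ht M y) : L = M := by
  unfold ht at hx hy
  have h1 : (L.1 - M.1) * (x - y) = 0 := by linarith
  have h2 : L.1 = M.1 := by
    rcases mul_eq_zero.1 h1 with h | h
    · linarith
    · exact absurd (by linarith) hxy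
  have h3 : L.2 = M.2 := by rw [h2] at hx; linarith
  exact Prod.ext h2 h3

theorem isTrap_lt {S : Finset (ℝ × ℝ)} {A : ℝ} {z : ℝ × ℝ} {T : Trap} (h : IsTrap S A z T)
    {x : ℝ} (h1 : T.l < x) (h2 : x < T.r) : ht T.b x < ht T.t x := by
  obtain ⟨htS, hbS, hz, hA1, hA2, hmeet, hcross, hl, hr⟩ := h
  obtain ⟨z1, z2, z3, z4⟩ := hz
  have hne : T.b ≠ T.t := by
    intro e
    rw [e] at z3
    exact absurd (z3.trans z4) (lt_irrefl _)
  have key : ∀ u, T.l < u → u < T.r → ht T.b u ≠ ht T.t u := fun u hu1 hu2 =>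
    (hcross T.b hbS u hu1 hu2).1 hne
  by_contra hcon
  have hcon' : ht T.t x < ht T.b x :=
    lt_of_le_of_ne (not_lt.1 hcon) (fun e => key x h1 h2 e.symm)
  have hc : ContinuousOn (fun u => ht T.t u - ht T.b u) (Set.uIcc x z.1) := by
    unfold ht
    fun_prop
  have h0 : (0 : ℝ) ∈ Set.uIcc ((fun u => ht T.t u - ht T.b u) x)
      ((fun u => ht T.t u - ht T.b u) z.1) := by
    rw [Set.mem_uIcc]
    left
    constructor
    · simp only
      linarith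
    · simp only
      linarith
  obtain ⟨u, hu, hu0⟩ := intermediate_value_uIcc hc h0
  simp only at hu0
  rw [Set.mem_uIcc] at hu
  have hu1 : T.l < u ∧ u < T.r := by
    rcases hu with ⟨a, b⟩ | ⟨a, b⟩
    · exact ⟨by linarith, by linarith⟩
    · exact ⟨by linarith, by linarith⟩
  exact key u hu1.1 hu1.2 (by linarith)

/-- no line of `S` lies strictly between the bottom and the top of a trapezoid -/
theorem isTrap_out {S : Finset (ℝ × ℝ)} {A : ℝ} {z : ℝ × ℝ} {T : Trap} (h : IsTrap S A z T)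
    {L : ℝ × ℝ} (hL : L ∈ S) {x : ℝ} (h1 : T.l < x) (h2 : x < T.r) :
    ht L x ≤ ht T.b x ∨ ht T.t x ≤ ht L x := by
  by_contra hcon
  push Not at hcon
  exact h.2.2.2.2.2.1 L hL ⟨(x, ht L x), ⟨h1, h2, hcon.1, hcon.2⟩, rfl⟩

theorem isTrap_l_le {S : Finset (ℝ × ℝ)} {A : ℝ} {z z' : ℝ × ℝ} {T T' : Trap}
    (h : IsTrap S A z T) (h' : IsTrap S A z' T') (ht : T.t = T'.t) (hb : T.b = T'.b)
    (hlr : T'.l < T.r) : T'.l ≤ T.l := by
  by_contra hcon
  push Not at hcon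
  obtain ⟨htS, hbS, hz, hA1, hA2, hmeet, hcross, hl, hr⟩ := h
  obtain ⟨htS', hbS', hz', hA1', hA2', hmeet', hcross', hl', hr'⟩ := h'
  rcases hl' with e | ⟨L, hL, ⟨h1, h2⟩ | ⟨h1, h2⟩⟩
  · linarith
  · rw [← ht] at h1 h2
    exact (hcross L hL T'.l hcon hlr).1 h1 h2
  · rw [← hb] at h1 h2
    exact (hcross L hL T'.l hcon hlr).2 h1 h2

theorem isTrap_r_le {S : Finset (ℝ × ℝ)} {A : ℝ} {z z' : ℝ × ℝ} {T T' : Trap}
    (h : IsTrap S A z T) (h' : IsTrap S A z' T') (ht : T.t = T'.t) (hb : T.b = T'.b)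
    (hlr : T.l < T'.r) : T.r ≤ T'.r := by
  by_contra hcon
  push Not at hcon
  obtain ⟨htS, hbS, hz, hA1, hA2, hmeet, hcross, hl, hr⟩ := h
  obtain ⟨htS', hbS', hz', hA1', hA2', hmeet', hcross', hl', hr'⟩ := h'
  rcases hr' with e | ⟨L, hL, ⟨h1, h2⟩ | ⟨h1, h2⟩⟩
  · linarith
  · rw [← ht] at h1 h2
    exact (hcross L hL T'.r hlr hcon).1 h1 h2
  · rw [← hb] at h1 h2
    exact (hcross L hL T'.r hlr hcon).2 h1 h2

theorem isTrap_wid {S : Finset (ℝ × ℝ)} {A : ℝ} {z : ℝ × ℝ} {T : Trap} (h : IsTrap S A z T) :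
    T.l < T.r := h.2.2.1.1.trans h.2.2.1.2.1

theorem isTrap_eq {S : Finset (ℝ × ℝ)} {A : ℝ} {z z' : ℝ × ℝ} {T T' : Trap}
    (h : IsTrap S A z T) (h' : IsTrap S A z' T') (ht : T.t = T'.t) (hb : T.b = T'.b)
    (h1 : T.l < T'.r) (h2 : T'.l < T.r) : T = T' := by
  have e1 : T.l = T'.l := le_antisymm
    (isTrap_l_le h' h ht.symm hb.symm h1) (isTrap_l_le h h' ht hb h2)
  have e2 : T.r = T'.r := le_antisymm
    (isTrap_r_le h h' ht hb h1) (isTrap_r_le h' h ht.symm hb.symm h2)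
  cases T
  cases T'
  simp only at e1 e2 ht hb
  subst e1 e2 ht hb
  rfl

theorem isTrap_unique {S : Finset (ℝ × ℝ)} {A : ℝ} {z : ℝ × ℝ} {T T' : Trap}
    (htie : ∀ L ∈ S, ∀ M ∈ S, ht L z.1 = ht M z.1 → L = M)
    (h : IsTrap S A z T) (h' : IsTrap S A z T') : T = T' := by
  have hz := h.2.2.1
  have hz' := h'.2.2.1
  obtain ⟨z1, z2, z3, z4⟩ := hz
  obtain ⟨y1, y2, y3, y4⟩ := hz'
  have et : T.t = T'.t := by
    apply htie _ h.1 _ h'.1
    apply le_antisymm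
    · rcases isTrap_out h h'.1 z1 z2 with a | a
      · linarith
      · exact a
    · rcases isTrap_out h' h.1 y1 y2 with a | a
      · linarith
      · exact a
  have eb : T.b = T'.b := by
    apply htie _ h.2.1 _ h'.2.1
    apply le_antisymm
    · rcases isTrap_out h' h.2.1 y1 y2 with a | a
      · exact a
      · linarith
    · rcases isTrap_out h h'.2.1 z1 z2 with a | a
      · exact a
      · linarith
  exact isTrap_eq h h' et eb (z1.trans y2) (y1.trans z2)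

theorem isTrap_stable {S : Finset (ℝ × ℝ)} {A : ℝ} {z : ℝ × ℝ} {T : Trap}
    (h : IsTrap S A z T) :
    ∃ D : Finset (ℝ × ℝ), D.card ≤ 4 ∧ D ⊆ S ∧
      ∀ S' : Finset (ℝ × ℝ), D ⊆ S' → S' ⊆ S → IsTrap S' A z T := by
  obtain ⟨htS, hbS, hz, hA1, hA2, hmeet, hcross, hl, hr⟩ := h
  have hl2 : ∃ L ∈ S, T.l = -A ∨
      ((L ≠ T.t ∧ ht L T.l = ht T.t T.l) ∨ (L ≠ T.b ∧ ht L T.l = ht T.b T.l)) := by
    rcases hl with e | ⟨L, hL, e⟩
    · exact ⟨T.t, htS, Or.inl e⟩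
    · exact ⟨L, hL, Or.inr e⟩
  have hr2 : ∃ L ∈ S, T.r = A ∨
      ((L ≠ T.t ∧ ht L T.r = ht T.t T.r) ∨ (L ≠ T.b ∧ ht L T.r = ht T.b T.r)) := by
    rcases hr with e | ⟨L, hL, e⟩
    · exact ⟨T.t, htS, Or.inl e⟩
    · exact ⟨L, hL, Or.inr e⟩
  obtain ⟨L1, hL1, e1⟩ := hl2
  obtain ⟨L2, hL2, e2⟩ := hr2
  refine ⟨{T.t, T.b, L1, L2}, Finset.card_le_four, ?_, ?_⟩
  · intro x hx
    simp only [Finset.mem_insert, Finset.mem_singleton] at hx
    rcases hx with rfl | rfl | rfl | rfl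
    · exact htS
    · exact hbS
    · exact hL1
    · exact hL2
  · intro S' hD hS'
    refine ⟨hD (by simp), hD (by simp), hz, hA1, hA2, fun L hL => hmeet L (hS' hL),
      fun L hL => hcross L (hS' hL), ?_, ?_⟩
    · rcases e1 with e | e
      · exact Or.inl e
      · exact Or.inr ⟨L1, hD (by simp), e⟩
    · rcases e2 with e | e
      · exact Or.inl e
      · exact Or.inr ⟨L2, hD (by simp), e⟩

/-- same top, same left end -/
theorem isTrap_eq_top {S : Finset (ℝ × ℝ)} {A : ℝ} {z z' : ℝ × ℝ} {T T' : Trap}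
    (h : IsTrap S A z T) (h' : IsTrap S A z' T') (et : T.t = T'.t) (el : T.l = T'.l) :
    T = T' := by
  have w1 := isTrap_wid h
  have w2 := isTrap_wid h'
  have hm : T.l < min T.r T'.r := lt_min w1 (el ▸ w2)
  have key : ∀ x, T.l < x → x < min T.r T'.r → ht T.b x = ht T'.b x := by
    intro x hx1 hx2
    have a1 : x < T.r := lt_of_lt_of_le hx2 (min_le_left _ _)
    have a2 : x < T'.r := lt_of_lt_of_le hx2 (min_le_right _ _)
    have a3 : T'.l < x := el ▸ hx1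
    have b1 := isTrap_lt h hx1 a1
    have b2 := isTrap_lt h' a3 a2
    apply le_antisymm
    · rcases isTrap_out h' h.2.1 a3 a2 with a | a
      · exact a
      · rw [← et] at a; linarith
    · rcases isTrap_out h h'.2.1 hx1 a1 with a | a
      · exact a
      · rw [et] at a; linarith
  have eb : T.b = T'.b := by
    obtain ⟨x, hx1, hx2⟩ := exists_between hm
    obtain ⟨y, hy1, hy2⟩ := exists_between hx1
    exact ht_two (ne_of_gt hy2) (key x hx1 hx2) (key y hy1 (hy2.trans hx2))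
  exact isTrap_eq h h' et eb (el ▸ w2) (el ▸ w1)

/-- same bottom, same left end -/
theorem isTrap_eq_bot {S : Finset (ℝ × ℝ)} {A : ℝ} {z z' : ℝ × ℝ} {T T' : Trap}
    (h : IsTrap S A z T) (h' : IsTrap S A z' T') (eb : T.b = T'.b) (el : T.l = T'.l) :
    T = T' := by
  have w1 := isTrap_wid h
  have w2 := isTrap_wid h'
  have hm : T.l < min T.r T'.r := lt_min w1 (el ▸ w2)
  have key : ∀ x, T.l < x → x < min T.r T'.r → ht T.t x = ht T'.t x := by
    intro x hx1 hx2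
    have a1 : x < T.r := lt_of_lt_of_le hx2 (min_le_left _ _)
    have a2 : x < T'.r := lt_of_lt_of_le hx2 (min_le_right _ _)
    have a3 : T'.l < x := el ▸ hx1
    have b1 := isTrap_lt h hx1 a1
    have b2 := isTrap_lt h' a3 a2
    apply le_antisymm
    · rcases isTrap_out h h'.1 hx1 a1 with a | a
      · rw [eb] at a; linarith
      · exact a
    · rcases isTrap_out h' h.1 a3 a2 with a | a
      · rw [← eb] at a; linarith
      · exact a
  have et : T.t = T'.t := by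
    obtain ⟨x, hx1, hx2⟩ := exists_between hm
    obtain ⟨y, hy1, hy2⟩ := exists_between hx1
    exact ht_two (ne_of_gt hy2) (key x hx1 hx2) (key y hy1 (hy2.trans hx2))
  exact isTrap_eq h h' et eb (el ▸ w2) (el ▸ w1)

/-- the labels of a trapezoid -/
def Lab (A : ℝ) (T : Trap) (k : Bool × (ℝ × ℝ) × (ℝ × ℝ)) : Prop :=
  (k.1 = false ∧ k.2.1 = T.t ∧ k.2.2 = T.t ∧ T.l = -A) ∨
  (k.1 = false ∧ k.2.1 = T.t ∧ k.2.2 ≠ T.t ∧ ht k.2.2 T.l = ht T.t T.l) ∨
  (k.1 = true ∧ k.2.1 = T.b ∧ k.2.2 ≠ T.b ∧ ht k.2.2 T.l = ht T.b T.l)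

theorem lab_exists {S : Finset (ℝ × ℝ)} {A : ℝ} {z : ℝ × ℝ} {T : Trap} (h : IsTrap S A z T) :
    ∃ k, k ∈ (Finset.univ : Finset Bool) ×ˢ (S ×ˢ S) ∧ Lab A T k := by
  obtain ⟨htS, hbS, hz, hA1, hA2, hmeet, hcross, hl, hr⟩ := h
  rcases hl with e | ⟨L, hL, ⟨h1, h2⟩ | ⟨h1, h2⟩⟩
  · exact ⟨(false, T.t, T.t), by simp [htS], Or.inl ⟨rfl, rfl, rfl, e⟩⟩
  · exact ⟨(false, T.t, L), by simp [htS, hL], Or.inr (Or.inl ⟨rfl, rfl, h1, h2⟩)⟩
  · exact ⟨(true, T.b, L), by simp [hbS, hL], Or.inr (Or.inr ⟨rfl, rfl, h1, h2⟩)⟩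

theorem lab_inj {S : Finset (ℝ × ℝ)} {A : ℝ} {z z' : ℝ × ℝ} {T T' : Trap}
    (h : IsTrap S A z T) (h' : IsTrap S A z' T') {k : Bool × (ℝ × ℝ) × (ℝ × ℝ)}
    (hk : Lab A T k) (hk' : Lab A T' k) : T = T' := by
  obtain ⟨i, M, L⟩ := k
  unfold Lab at hk hk'
  simp only at hk hk'
  rcases hk with ⟨a1, a2, a3, a4⟩ | ⟨a1, a2, a3, a4⟩ | ⟨a1, a2, a3, a4⟩ <;>
  rcases hk' with ⟨b1, b2, b3, b4⟩ | ⟨b1, b2, b3, b4⟩ | ⟨b1, b2, b3, b4⟩
  · exact isTrap_eq_top h h' (a2.symm.trans b2) (a4.trans b4.symm)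
  · exact absurd (a3.trans (a2.symm.trans b2)) b3
  · rw [a1] at b1; exact absurd b1 (by simp)
  · exact absurd (b3.trans (b2.symm.trans a2)) a3
  · have et : T.t = T'.t := a2.symm.trans b2
    refine isTrap_eq_top h h' et ?_
    by_contra hne
    rw [← et] at b4
    exact a3 (ht_two hne a4 b4)
  · rw [a1] at b1; exact absurd b1 (by simp)
  · rw [a1] at b1; exact absurd b1 (by simp)
  · rw [a1] at b1; exact absurd b1 (by simp)
  · have eb : T.b = T'.b := a2.symm.trans b2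
    refine isTrap_eq_bot h h' eb ?_
    by_contra hne
    rw [← eb] at b4
    exact a3 (ht_two hne a4 b4)

theorem isTrap_count (S : Finset (ℝ × ℝ)) (A : ℝ) (F : Finset Trap)
    (hF : ∀ T ∈ F, ∃ z, IsTrap S A z T) : F.card ≤ 2 * S.card ^ 2 := by
  have hex : ∀ T, ∃ k : Bool × (ℝ × ℝ) × (ℝ × ℝ), T ∈ F →
      (k ∈ (Finset.univ : Finset Bool) ×ˢ (S ×ˢ S) ∧ Lab A T k) := by
    intro T
    by_cases hT : T ∈ F
    · obtain ⟨z, hz⟩ := hF T hT
      obtain ⟨k, hk⟩ := lab_exists hz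
      exact ⟨k, fun _ => hk⟩
    · exact ⟨(false, 0, 0), fun h => absurd h hT⟩
  choose f hf using hex
  have hcard : F.card ≤ ((Finset.univ : Finset Bool) ×ˢ (S ×ˢ S)).card := by
    apply Finset.card_le_card_of_injOn f
    · intro T hT
      exact (hf T hT).1
    · intro T hT T' hT' e
      obtain ⟨z, hz⟩ := hF T hT
      obtain ⟨z', hz'⟩ := hF T' hT'
      exact lab_inj hz hz' (hf T hT).2 (e ▸ (hf T' hT').2)
  refine hcard.trans (le_of_eq ?_)
  rw [Finset.card_product, Finset.card_product, Finset.card_univ, Fintype.card_bool]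
  ring

end Pool.H34.BN
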