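import Pool.Agent.H34.BN.Trap1
import Pool.Agent.H34.BN.Trap2

/-! The sampling step (helper9). -/

open Classical

namespace Pool.H34.BN

theorem cs_abstract {E : Type} [Fintype E] (s c : ℕ) (R : (Fin s → E) → E → Prop)
    (h : ∀ τ : Fin (s + 1) → E,
      (Finset.univ.filter (fun i => R (i.removeNth τ) (τ i))).card ≤ c) :
    (s + 1) * (Finset.univ.filter (fun x : (Fin s → E) × E => R x.1 x.2)).card
      ≤ c * (Fintype.card E) ^ (s + 1) := by
  have key : ∀ i : Fin (s + 1),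
      (Finset.univ.filter (fun τ : Fin (s + 1) → E => R (i.removeNth τ) (τ i))).card
        = (Finset.univ.filter (fun x : (Fin s → E) × E => R x.1 x.2)).card := by
    intro i
    refine Finset.card_bij' (fun τ _ => (i.removeNth τ, τ i))
      (fun x _ => (i.insertNth x.2 x.1 : Fin (s + 1) → E)) ?_ ?_ ?_ ?_
    · intro τ hτ
      rw [Finset.mem_filter] at hτ ⊢
      exact ⟨Finset.mem_univ _, hτ.2⟩
    · intro x hx
      rw [Finset.mem_filter] at hx ⊢
      refine ⟨Finset.mem_univ _, ?_⟩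
      have h1 : i.removeNth (i.insertNth x.2 x.1 : Fin (s + 1) → E) = x.1 :=
        Fin.removeNth_insertNth (α := fun _ => E) i x.2 x.1
      have h2 : (i.insertNth x.2 x.1 : Fin (s + 1) → E) i = x.2 :=
        Fin.insertNth_apply_same (α := fun _ => E) i x.2 x.1
      rw [h1, h2]
      exact hx.2
    · intro τ _
      exact Fin.insertNth_self_removeNth (α := fun _ => E) i τ
    · intro x _
      have h1 : i.removeNth (i.insertNth x.2 x.1 : Fin (s + 1) → E) = x.1 :=
        Fin.removeNth_insertNth (α := fun _ => E) i x.2 x.1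
      have h2 : (i.insertNth x.2 x.1 : Fin (s + 1) → E) i = x.2 :=
        Fin.insertNth_apply_same (α := fun _ => E) i x.2 x.1
      exact Prod.ext h1 h2
  have h1 : ∑ i : Fin (s + 1),
      (Finset.univ.filter (fun τ : Fin (s + 1) → E => R (i.removeNth τ) (τ i))).card
      = ∑ τ : Fin (s + 1) → E,
        (Finset.univ.filter (fun i => R (i.removeNth τ) (τ i))).card := by
    simp only [Finset.card_filter]
    exact Finset.sum_comm
  rw [Finset.sum_congr rfl (fun i _ => key i), Finset.sum_const, Finset.card_univ,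
    Fintype.card_fin, smul_eq_mul] at h1
  rw [h1]
  refine (Finset.sum_le_card_nsmul _ _ c (fun τ _ => h τ)).trans ?_
  rw [Finset.card_univ, Fintype.card_fun, Fintype.card_fin, smul_eq_mul, mul_comm]

/-- the members of `SS` -/
lemma mem_SS {X : Finset (ℝ × ℝ)} {Y : ℝ} {s : ℕ} {τ : Fin s → {e // e ∈ X.offDiag}}
    {L : ℝ × ℝ} : L ∈ SS Y τ ↔ L = ((0 : ℝ), Y) ∨ L = ((0 : ℝ), -Y) ∨
      ∃ i, lin (τ i).1.1 (τ i).1.2 = L := by
  unfold SS
  rw [Finset.mem_insert, Finset.mem_insert, Finset.mem_image]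
  simp only [Finset.mem_univ, true_and]

lemma SS_tie {X : Finset (ℝ × ℝ)} (hX : Gen X) {A Y : ℝ} (hB : Box X A Y) {s : ℕ}
    (τ : Fin s → {e // e ∈ X.offDiag}) {z : ℝ × ℝ} (hz : z ∈ X) (hg : Good τ z) :
    ∀ L ∈ SS Y τ, ∀ M ∈ SS Y τ, ht L z.1 = ht M z.1 → L = M := by
  have hY : 0 < Y := lt_of_le_of_lt (abs_nonneg _) (hB.1 z hz).2
  have hb1 : ht ((0 : ℝ), Y) z.1 = Y := by
    unfold ht
    simp only [zero_mul, zero_add]
  have hb2 : ht ((0 : ℝ), -Y) z.1 = -Y := by
    unfold ht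
    simp only [zero_mul, zero_add]
  have hl : ∀ i, -Y < ht (lin (τ i).1.1 (τ i).1.2) z.1 ∧
      ht (lin (τ i).1.1 (τ i).1.2) z.1 < Y := fun i =>
    abs_lt.1 (hB.2 _ (τ i).2 z hz)
  intro L hL M hM h
  rcases mem_SS.1 hL with rfl | rfl | ⟨i, rfl⟩ <;> rcases mem_SS.1 hM with rfl | rfl | ⟨j, rfl⟩
  · rfl
  · exfalso
    rw [hb1, hb2] at h
    linarith
  · exfalso
    rw [hb1] at h
    linarith [(hl j).2]
  · exfalso
    rw [hb1, hb2] at h
    linarith
  · rfl
  · exfalso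
    rw [hb2] at h
    linarith [(hl j).1]
  · exfalso
    rw [hb1] at h
    linarith [(hl i).2]
  · exfalso
    rw [hb2] at h
    linarith [(hl i).1]
  · have hi := Finset.mem_offDiag.1 (τ i).2
    have hj := Finset.mem_offDiag.1 (τ j).2
    rcases hX.2 _ hi.1 _ hi.2.1 _ hj.1 _ hj.2.1 hi.2.2 hj.2.2 z hz h with h' | h'
    · exact h'
    · exact absurd h' (hg i)

theorem cs_trap (X : Finset (ℝ × ℝ)) (hX : Gen X) (A Y : ℝ) (hB : Box X A Y) (s : ℕ)
    (z : ℝ × ℝ) (hz : z ∈ X) :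
    (s + 1) * (Finset.univ.filter
      (fun x : (Fin s → {e // e ∈ X.offDiag}) × {e // e ∈ X.offDiag} =>
        Good x.1 z ∧ ht (lin x.2.1.1 x.2.1.2) z.1 ≠ z.2 ∧
        ∃ T, IsTrap (SS Y x.1) A z T ∧ Meets (lin x.2.1.1 x.2.1.2) T.car)).card
      ≤ 4 * (Fintype.card {e // e ∈ X.offDiag}) ^ (s + 1) := by
  refine (le_of_eq ?_).trans (cs_abstract (E := {e // e ∈ X.offDiag}) s 4 (fun σ e =>
    Good σ z ∧ ht (lin e.1.1 e.1.2) z.1 ≠ z.2 ∧
      ∃ T, IsTrap (SS Y σ) A z T ∧ Meets (lin e.1.1 e.1.2) T.car) ?_)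
  · congr! 3
  have hmem : ∀ (P : Fin (s + 1) → Prop) (dP : DecidablePred P) (i : Fin (s + 1)),
      i ∈ @Finset.filter _ P dP Finset.univ → True ∧ P i := by
    intro P dP i hi
    exact ⟨trivial, (Finset.mem_filter.1 hi).2⟩
  intro τ
  rcases Finset.eq_empty_or_nonempty (Finset.univ.filter (fun i : Fin (s + 1) =>
      (fun (σ : Fin s → {e // e ∈ X.offDiag}) (e : {e // e ∈ X.offDiag}) =>
        Good σ z ∧ ht (lin e.1.1 e.1.2) z.1 ≠ z.2 ∧
        ∃ T, IsTrap (SS Y σ) A z T ∧ Meets (lin e.1.1 e.1.2) T.car)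
      (i.removeNth τ) (τ i))) with h0 | ⟨i0, hi0⟩
  · refine (le_of_eq ?_).trans (Nat.zero_le _)
    rw [Finset.card_eq_zero]
    convert h0
  · rw [Finset.mem_filter] at hi0
    obtain ⟨_, hg0, hz0, _⟩ := hi0
    have hgood : Good τ z := by
      intro j
      rcases Fin.eq_self_or_eq_succAbove i0 j with rfl | ⟨k, rfl⟩
      · exact hz0
      · exact hg0 k
    have hY := (hB.1 z hz).2
    have hY' := abs_lt.1 hY
    obtain ⟨T', hT'⟩ := isTrap_exists (SS Y τ) A Y z (mem_SS.2 (Or.inl rfl))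
      (mem_SS.2 (Or.inr (Or.inl rfl))) hY (hB.1 z hz).1 (by
        intro L hL
        rcases mem_SS.1 hL with rfl | rfl | ⟨i, rfl⟩
        · unfold ht
          simp only [zero_mul, zero_add]
          exact ne_of_gt hY'.2
        · unfold ht
          simp only [zero_mul, zero_add]
          exact ne_of_lt hY'.1
        · exact hgood i) (SS_tie hX hB τ hz hgood)
    obtain ⟨D, hD4, hDS, hD⟩ := isTrap_stable hT'
    have hsub : ∀ i : Fin (s + 1), SS Y (i.removeNth τ) ⊆ SS Y τ := by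
      intro i L hL
      rcases mem_SS.1 hL with rfl | rfl | ⟨k, rfl⟩
      · exact mem_SS.2 (Or.inl rfl)
      · exact mem_SS.2 (Or.inr (Or.inl rfl))
      · exact mem_SS.2 (Or.inr (Or.inr ⟨i.succAbove k, rfl⟩))
    refine le_trans (Finset.card_le_card_of_injOn
      (fun i => lin (τ i).1.1 (τ i).1.2) (t := D) ?_ ?_) hD4
    · intro i hi
      have hi' := hmem _ _ i (Finset.mem_coe.1 hi)
      obtain ⟨_, hgi, _, T, hT, hm⟩ := hi'
      by_contra hnD
      have hnD' : lin (τ i).1.1 (τ i).1.2 ∉ D := hnD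
      have hDi : D ⊆ SS Y (i.removeNth τ) := by
        intro L hL
        rcases mem_SS.1 (hDS hL) with rfl | rfl | ⟨j, rfl⟩
        · exact mem_SS.2 (Or.inl rfl)
        · exact mem_SS.2 (Or.inr (Or.inl rfl))
        · rcases Fin.eq_self_or_eq_succAbove i j with rfl | ⟨k, rfl⟩
          · exact absurd hL hnD'
          · exact mem_SS.2 (Or.inr (Or.inr ⟨k, rfl⟩))
      have hTi := hD _ hDi (hsub i)
      have he : T = T' := isTrap_unique (SS_tie hX hB (i.removeNth τ) hz hgi) hT hTi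
      subst he
      exact hT'.2.2.2.2.2.1 _ (mem_SS.2 (Or.inr (Or.inr ⟨i, rfl⟩))) hm
    · intro i hi j hj hij
      have hi' := hmem _ _ i (Finset.mem_coe.1 hi)
      obtain ⟨_, hgi, _, T, hT, hm⟩ := hi'
      by_contra hne
      rcases Fin.eq_self_or_eq_succAbove i j with rfl | ⟨k, rfl⟩
      · exact hne rfl
      · have h1 : lin (τ (i.succAbove k)).1.1 (τ (i.succAbove k)).1.2 ∈ SS Y (i.removeNth τ) :=
          mem_SS.2 (Or.inr (Or.inr ⟨k, rfl⟩))
        have hij' : lin (τ i).1.1 (τ i).1.2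
            = lin (τ (i.succAbove k)).1.1 (τ (i.succAbove k)).1.2 := hij
        rw [← hij'] at h1
        exact hT.2.2.2.2.2.1 _ h1 hm

end Pool.H34.BN
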