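import Pool.Agent.H34.BN.CutA
import Pool.Agent.H34.BN.Trap2
import Pool.Agent.H34.BN.Sample

/-! The averaging over samples for `cut`. -/

open Classical

namespace Pool.H34.BN.CutAux

/-- number of pairs whose line meets the trapezoid of `z` -/
noncomputable def XN {X : Finset (ℝ × ℝ)} (A Y : ℝ) {s : ℕ}
    (τ : Fin s → {e // e ∈ X.offDiag}) (z : ℝ × ℝ) : ℕ :=
  (Finset.univ.filter (fun e : {e // e ∈ X.offDiag} =>
    ∃ T, IsTrap (SS Y τ) A z T ∧ Meets (lin e.1.1 e.1.2) T.car)).card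

theorem sum_XN (X : Finset (ℝ × ℝ)) (hX : Gen X) (hX3 : NoThree X) (A Y : ℝ) (hB : Box X A Y)
    (s : ℕ) (z : ℝ × ℝ) (hz : z ∈ X) :
    (s + 1) * (X.card * ∑ τ ∈ Finset.univ.filter
      (fun τ : Fin s → {e // e ∈ X.offDiag} => Good τ z), XN A Y τ z)
      ≤ (4 * X.card + 2 * (s + 1)) * (Fintype.card {e // e ∈ X.offDiag}) ^ (s + 1) := by
  obtain ⟨E, hE⟩ : ∃ E : ℕ, E = Fintype.card {e // e ∈ X.offDiag} := ⟨_, rfl⟩
  obtain ⟨B, hBd⟩ : ∃ B : Finset {e // e ∈ X.offDiag}, B = Finset.univ.filter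
      (fun e : {e // e ∈ X.offDiag} => ht (lin e.1.1 e.1.2) z.1 = z.2) := ⟨_, rfl⟩
  have hBc : X.card * B.card ≤ 2 * E := by
    rw [hBd, hE]; exact on_line_card X hX hX3 z hz
  obtain ⟨W, hW⟩ : ∃ W : Finset ((Fin s → {e // e ∈ X.offDiag}) × {e // e ∈ X.offDiag}),
    W = (Finset.univ.filter
      (fun x : (Fin s → {e // e ∈ X.offDiag}) × {e // e ∈ X.offDiag} =>
        Good x.1 z ∧ ht (lin x.2.1.1 x.2.1.2) z.1 ≠ z.2 ∧
        ∃ T, IsTrap (SS Y x.1) A z T ∧ Meets (lin x.2.1.1 x.2.1.2) T.car)) := ⟨_, rfl⟩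
  have hWc : (s + 1) * W.card ≤ 4 * E ^ (s + 1) := by
    rw [hW, hE]; exact cs_trap X hX A Y hB s z hz
  -- the sum is at most |W| + |E|^s * |B|
  have h1 : ∑ τ ∈ Finset.univ.filter
      (fun τ : Fin s → {e // e ∈ X.offDiag} => Good τ z), XN A Y τ z ≤ W.card + E ^ s * B.card := by
    have h2 : ∑ τ ∈ Finset.univ.filter
      (fun τ : Fin s → {e // e ∈ X.offDiag} => Good τ z), XN A Y τ z
        = ((Finset.univ.filter
            (fun τ : Fin s → {e // e ∈ X.offDiag} => Good τ z)).sigma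
            (fun τ => Finset.univ.filter (fun e : {e // e ∈ X.offDiag} =>
              ∃ T, IsTrap (SS Y τ) A z T ∧ Meets (lin e.1.1 e.1.2) T.car))).card := by
      rw [Finset.card_sigma]; rfl
    rw [h2]
    have h3 : W.card + E ^ s * B.card
        = (W.disjSum ((Finset.univ : Finset (Fin s → {e // e ∈ X.offDiag})) ×ˢ B)).card := by
      rw [Finset.card_disjSum, Finset.card_product, Finset.card_univ, Fintype.card_fun,
        Fintype.card_fin, hE]
    rw [h3]
    refine Finset.card_le_card_of_injOn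
      (fun x => if ht (lin x.2.1.1 x.2.1.2) z.1 = z.2 then Sum.inr (x.1, x.2)
        else Sum.inl (x.1, x.2)) ?_ ?_
    · rintro ⟨τ, e⟩ hx
      simp only [Finset.coe_sigma, Set.mem_sigma_iff, Finset.mem_coe, Finset.mem_filter,
        Finset.mem_univ, true_and] at hx
      by_cases hc : ht (lin e.1.1 e.1.2) z.1 = z.2
      · simp only [hc, if_true, Finset.mem_coe, Finset.inr_mem_disjSum, Finset.mem_product,
          Finset.mem_univ, true_and]
        rw [hBd]; simpa using hc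
      · simp only [hc, if_false, Finset.mem_coe, Finset.inl_mem_disjSum]
        rw [hW]
        simp only [Finset.mem_filter, Finset.mem_univ, true_and]
        exact ⟨hx.1, hc, hx.2⟩
    · rintro ⟨τ, e⟩ _ ⟨τ', e'⟩ _ hab
      simp only at hab
      by_cases hc : ht (lin e.1.1 e.1.2) z.1 = z.2 <;>
        by_cases hc' : ht (lin e'.1.1 e'.1.2) z.1 = z.2 <;>
        simp only [hc, hc', if_true, if_false, Sum.inr.injEq, Sum.inl.injEq, Prod.mk.injEq,
          reduceCtorEq] at hab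
      · obtain ⟨rfl, rfl⟩ := hab; rfl
      · obtain ⟨rfl, rfl⟩ := hab; rfl
  rw [← hE]
  calc (s + 1) * (X.card * ∑ τ ∈ Finset.univ.filter
      (fun τ : Fin s → {e // e ∈ X.offDiag} => Good τ z), XN A Y τ z)
      ≤ (s + 1) * (X.card * (W.card + E ^ s * B.card)) :=
        Nat.mul_le_mul_left _ (Nat.mul_le_mul_left _ h1)
    _ = X.card * ((s + 1) * W.card) + (s + 1) * E ^ s * (X.card * B.card) := by ring
    _ ≤ X.card * (4 * E ^ (s + 1)) + (s + 1) * E ^ s * (2 * E) :=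
        Nat.add_le_add (Nat.mul_le_mul_left _ hWc) (Nat.mul_le_mul_left _ hBc)
    _ = (4 * X.card + 2 * (s + 1)) * E ^ (s + 1) := by ring

/-- some sample has few bad points and a small sum -/
theorem exists_sample (X : Finset (ℝ × ℝ)) (hX : Gen X) (hX3 : NoThree X) (A Y : ℝ)
    (hB : Box X A Y) (X' : Finset (ℝ × ℝ)) (hX' : X' ⊆ X) (s : ℕ) (hs : 1 ≤ s)
    (hsn : 8 * s ≤ X.card) :
    ∃ τ : Fin s → {e // e ∈ X.offDiag},
      2 * (X'.filter (fun z => ¬ Good τ z)).card ≤ X'.card ∧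
      s * ∑ z ∈ X'.filter (fun z => Good τ z), XN A Y τ z
        ≤ 12 * Fintype.card {e // e ∈ X.offDiag} * X'.card := by
  obtain ⟨E, hE⟩ : ∃ E : ℕ, E = Fintype.card {e // e ∈ X.offDiag} := ⟨_, rfl⟩
  have hn : 8 ≤ X.card := by omega
  have hEpos : 0 < E := by
    rw [hE, card_E]
    exact Nat.mul_pos (by omega) (by omega)
  have : Nonempty {e // e ∈ X.offDiag} := Fintype.card_pos_iff.mp (hE ▸ hEpos)
  -- the sum over all samples
  have hbad : X.card * ∑ τ : Fin s → {e // e ∈ X.offDiag}, (X'.filter (fun z => ¬ Good τ z)).card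
      ≤ X'.card * (2 * s * E ^ s) := by
    have h1 : ∑ τ : Fin s → {e // e ∈ X.offDiag}, (X'.filter (fun z => ¬ Good τ z)).card
        = ∑ z ∈ X', (Finset.univ.filter
          (fun τ : Fin s → {e // e ∈ X.offDiag} => ¬ Good τ z)).card := by
      simp only [Finset.card_filter]
      rw [Finset.sum_comm]
    rw [h1, Finset.mul_sum]
    calc _ ≤ ∑ _z ∈ X', 2 * s * E ^ s :=
          Finset.sum_le_sum (fun z hz => by rw [hE]; exact bad_card X hX hX3 z (hX' hz) s)
      _ = X'.card * (2 * s * E ^ s) := by rw [Finset.sum_const, smul_eq_mul]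
  have hsum : (s + 1) * (X.card * ∑ τ : Fin s → {e // e ∈ X.offDiag},
      ∑ z ∈ X'.filter (fun z => Good τ z), XN A Y τ z)
        ≤ X'.card * ((4 * X.card + 2 * (s + 1)) * E ^ (s + 1)) := by
    have h1 : ∑ τ : Fin s → {e // e ∈ X.offDiag},
        ∑ z ∈ X'.filter (fun z => Good τ z), XN A Y τ z
        = ∑ z ∈ X', ∑ τ ∈ Finset.univ.filter
          (fun τ : Fin s → {e // e ∈ X.offDiag} => Good τ z), XN A Y τ z := by
      simp only [Finset.sum_filter]
      rw [Finset.sum_comm]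
    rw [h1, Finset.mul_sum, Finset.mul_sum]
    calc _ ≤ ∑ _z ∈ X', (4 * X.card + 2 * (s + 1)) * E ^ (s + 1) :=
          Finset.sum_le_sum (fun z hz => by
            rw [hE]; exact sum_XN X hX hX3 A Y hB s z (hX' hz))
      _ = _ := by rw [Finset.sum_const, smul_eq_mul]
  have hcard : Fintype.card (Fin s → {e // e ∈ X.offDiag}) = E ^ s := by
    rw [Fintype.card_fun, Fintype.card_fin, hE]
  obtain ⟨τ, -, hτ⟩ : ∃ τ ∈ (Finset.univ : Finset (Fin s → {e // e ∈ X.offDiag})),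
      24 * E * (X'.filter (fun z => ¬ Good τ z)).card
        + s * ∑ z ∈ X'.filter (fun z => Good τ z), XN A Y τ z ≤ 12 * E * X'.card := by
    refine Finset.exists_le_of_sum_le Finset.univ_nonempty ?_
    rw [Finset.sum_const, Finset.card_univ, hcard, smul_eq_mul, Finset.sum_add_distrib,
      ← Finset.mul_sum, ← Finset.mul_sum]
    obtain ⟨b, hb⟩ : ∃ b, b = ∑ τ : Fin s → {e // e ∈ X.offDiag},
      (X'.filter (fun z => ¬ Good τ z)).card := ⟨_, rfl⟩
    obtain ⟨x, hx⟩ : ∃ x, x = ∑ τ : Fin s → {e // e ∈ X.offDiag},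
      ∑ z ∈ X'.filter (fun z => Good τ z), XN A Y τ z := ⟨_, rfl⟩
    rw [← hb] at hbad ⊢
    rw [← hx] at hsum ⊢
    have hnpos : 0 < X.card := by omega
    refine Nat.le_of_mul_le_mul_left ?_ hnpos
    have h1 : s * (X.card * x) ≤ X'.card * ((4 * X.card + 2 * (s + 1)) * E ^ (s + 1)) :=
      (Nat.mul_le_mul_right _ (Nat.le_succ s)).trans hsum
    calc X.card * (24 * E * b + s * x) = 24 * E * (X.card * b) + s * (X.card * x) := by ring
      _ ≤ 24 * E * (X'.card * (2 * s * E ^ s))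
          + X'.card * ((4 * X.card + 2 * (s + 1)) * E ^ (s + 1)) :=
          Nat.add_le_add (Nat.mul_le_mul_left _ hbad) h1
      _ = (48 * s + (4 * X.card + 2 * (s + 1))) * (X'.card * E ^ (s + 1)) := by ring
      _ ≤ (12 * X.card) * (X'.card * E ^ (s + 1)) := Nat.mul_le_mul_right _ (by omega)
      _ = X.card * (E ^ s * (12 * E * X'.card)) := by ring
  refine ⟨τ, ?_, ?_⟩
  · have h1 : 12 * E * (2 * (X'.filter (fun z => ¬ Good τ z)).card) ≤ 12 * E * X'.card := by
      calc _ = 24 * E * (X'.filter (fun z => ¬ Good τ z)).card := by ring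
        _ ≤ _ := (Nat.le_add_right _ _).trans hτ
    exact Nat.le_of_mul_le_mul_left h1 (by positivity)
  · rw [← hE]
    exact (Nat.le_add_left _ _).trans hτ

/-- the core of the cutting lemma -/
theorem core (X : Finset (ℝ × ℝ)) (hX : Gen X) (hX3 : NoThree X) (X' : Finset (ℝ × ℝ))
    (hX' : X' ⊆ X) (g s : ℕ) (hg : 1 ≤ g) (hs : 1 ≤ s)
    (hm : 8 * g * (s + 2) ^ 2 ≤ X'.card) :
    ∃ T : Trap, g ≤ (X'.filter (fun x => x ∈ T.car)).card ∧
      s * (X.offDiag.filter (fun e => Meets (lin e.1 e.2) T.car)).card ≤ 48 * X.card ^ 2 := by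
  obtain ⟨A, Y, hB⟩ := box_exists X
  have hmn : X'.card ≤ X.card := Finset.card_le_card hX'
  have h8s : 8 * s ≤ X'.card := by
    have h1 : 8 * 1 * s ≤ 8 * g * (s + 2) ^ 2 :=
      Nat.mul_le_mul (Nat.mul_le_mul_left 8 hg) (by nlinarith)
    linarith
  obtain ⟨τ, hτ1, hτ2⟩ := exists_sample X hX hX3 A Y hB X' hX' s hs (h8s.trans hmn)
  obtain ⟨E, hE⟩ : ∃ E : ℕ, E = Fintype.card {e // e ∈ X.offDiag} := ⟨_, rfl⟩
  rw [← hE] at hτ2
  have hEpos : 0 < E := by
    rw [hE, card_E]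
    exact Nat.mul_pos (by omega) (by omega)
  have hEle : E ≤ X.card ^ 2 := by
    rw [hE, card_E, sq]
    exact Nat.mul_le_mul_left _ (Nat.sub_le _ _)
  -- the good points with few meeting lines
  obtain ⟨G, hG⟩ : ∃ G : Finset (ℝ × ℝ), G = X'.filter (fun z => Good τ z) := ⟨_, rfl⟩
  rw [← hG] at hτ2
  have hGc : (X'.filter (fun z => ¬ Good τ z)).card + G.card = X'.card := by
    rw [hG, add_comm]; exact Finset.card_filter_add_card_filter_not _
  obtain ⟨Q, hQ⟩ : ∃ Q : Finset (ℝ × ℝ), Q = G.filter (fun z => s * XN A Y τ z ≤ 48 * E) :=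
    ⟨_, rfl⟩
  obtain ⟨R, hR⟩ : ∃ R : Finset (ℝ × ℝ), R = G.filter (fun z => ¬ s * XN A Y τ z ≤ 48 * E) :=
    ⟨_, rfl⟩
  have hQR : Q.card + R.card = G.card := by
    rw [hQ, hR]; exact Finset.card_filter_add_card_filter_not _
  have hRc : 4 * R.card ≤ X'.card := by
    have h1 : R.card * (48 * E) ≤ s * ∑ z ∈ G, XN A Y τ z := by
      rw [Finset.mul_sum]
      calc R.card * (48 * E) = ∑ _z ∈ R, 48 * E := by rw [Finset.sum_const, smul_eq_mul]
        _ ≤ ∑ z ∈ R, s * XN A Y τ z := by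
            refine Finset.sum_le_sum (fun z hz => ?_)
            rw [hR, Finset.mem_filter] at hz
            exact (not_le.mp hz.2).le
        _ ≤ ∑ z ∈ G, s * XN A Y τ z :=
            Finset.sum_le_sum_of_subset (by rw [hR]; exact Finset.filter_subset _ _)
    have h2 : 12 * E * (4 * R.card) ≤ 12 * E * X'.card := by
      calc 12 * E * (4 * R.card) = R.card * (48 * E) := by ring
        _ ≤ _ := h1.trans hτ2
    exact Nat.le_of_mul_le_mul_left h2 (by positivity)
  have hQc : X'.card ≤ 4 * Q.card := by omega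
  -- the trapezoids of the points of `Q`
  have hex : ∀ z ∈ Q, ∃ T, IsTrap (SS Y τ) A z T := by
    intro z hz
    rw [hQ, Finset.mem_filter, hG, Finset.mem_filter] at hz
    exact trap_of_good X hX A Y hB τ z (hX' hz.1.1) hz.1.2
  have : Nonempty Trap := ⟨⟨0, 0, (0, 0), (0, 0)⟩⟩
  choose! tr htr using hex
  have hFc : (Q.image tr).card ≤ 2 * (s + 2) ^ 2 := by
    refine (isTrap_count (SS Y τ) A (Q.image tr) ?_).trans ?_
    · intro T hT
      rw [Finset.mem_image] at hT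
      obtain ⟨z, hz, rfl⟩ := hT
      exact ⟨z, htr z hz⟩
    · exact Nat.mul_le_mul_left _ (Nat.pow_le_pow_left (SS_card Y τ) 2)
  have hQpos : 0 < Q.card := by omega
  obtain ⟨T, hTF, hTg⟩ := Finset.exists_le_card_fiber_of_mul_le_card_of_maps_to
    (s := Q) (t := Q.image tr) (f := tr) (n := g)
    (fun z hz => Finset.mem_image_of_mem _ hz) ((Finset.card_pos.mp hQpos).image _) (by
      have h1 : 4 * ((Q.image tr).card * g) ≤ 4 * Q.card := by
        calc 4 * ((Q.image tr).card * g) ≤ 4 * ((2 * (s + 2) ^ 2) * g) :=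
              Nat.mul_le_mul_left _ (Nat.mul_le_mul_right _ hFc)
          _ = 8 * g * (s + 2) ^ 2 := by ring
          _ ≤ _ := hm.trans hQc
      omega)
  refine ⟨T, hTg.trans (Finset.card_le_card ?_), ?_⟩
  · intro z hz
    rw [Finset.mem_filter] at hz
    rw [Finset.mem_filter]
    have hzQ := hz.1
    rw [hQ, Finset.mem_filter, hG, Finset.mem_filter] at hzQ
    refine ⟨hzQ.1.1, ?_⟩
    have := (htr z hz.1).2.2.1
    rw [hz.2] at this
    exact this
  · have hne : 0 < (Q.filter (fun z => tr z = T)).card := lt_of_lt_of_le hg hTg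
    obtain ⟨z, hz⟩ := Finset.card_pos.mp hne
    rw [Finset.mem_filter] at hz
    have hzQ := hz.1
    rw [hQ, Finset.mem_filter] at hzQ
    have hT : IsTrap (SS Y τ) A z T := hz.2 ▸ htr z hz.1
    have h1 : (X.offDiag.filter (fun e => Meets (lin e.1 e.2) T.car)).card ≤ XN A Y τ z := by
      unfold XN
      refine Finset.card_le_card_of_surjOn (fun e => e.1) ?_
      intro e he
      simp only [Finset.coe_filter, Set.mem_ofPred_eq] at he
      simp only [Set.mem_image, Finset.coe_filter, Finset.mem_univ, true_and, Set.mem_ofPred_eq]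
      exact ⟨⟨e, he.1⟩, ⟨T, hT, he.2⟩, rfl⟩
    calc _ ≤ s * XN A Y τ z := Nat.mul_le_mul_left _ h1
      _ ≤ 48 * E := hzQ.2
      _ ≤ 48 * X.card ^ 2 := Nat.mul_le_mul_left _ hEle

end Pool.H34.BN.CutAux
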