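import Pool.Agent.H34.BN.Defs

/-! Shrinking a trapezoid to a prescribed number of points, and the trivial case of `cut`. -/

open Classical

namespace Pool.H34.BN

/-- moving the right wall to the left until exactly `g` points are left -/
theorem shrink (X' : Finset (ℝ × ℝ)) (habs : ∀ p ∈ X', ∀ q ∈ X', p.1 = q.1 → p = q) (g : ℕ) :
    ∀ T : Trap, g ≤ (X'.filter (fun x => x ∈ T.car)).card →
      ∃ T' : Trap, T'.l = T.l ∧ T'.b = T.b ∧ T'.t = T.t ∧ T'.r ≤ T.r ∧ T'.car ⊆ T.car ∧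
        (X'.filter (fun x => x ∈ T'.car)).card = g := by
  suffices h : ∀ d : ℕ, ∀ T : Trap, (X'.filter (fun x => x ∈ T.car)).card = g + d →
      ∃ T' : Trap, T'.l = T.l ∧ T'.b = T.b ∧ T'.t = T.t ∧ T'.r ≤ T.r ∧ T'.car ⊆ T.car ∧
        (X'.filter (fun x => x ∈ T'.car)).card = g by
    intro T hT
    obtain ⟨d, hd⟩ := Nat.exists_eq_add_of_le hT
    exact h d T hd
  intro d
  induction d with
  | zero =>
    intro T hT
    exact ⟨T, rfl, rfl, rfl, le_rfl, subset_rfl, by simpa using hT⟩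
  | succ d ih =>
    intro T hT
    have hne : (X'.filter (fun x => x ∈ T.car)).Nonempty := by
      rw [← Finset.card_pos, hT]
      omega
    obtain ⟨p, hp, hmax⟩ := Finset.exists_max_image _ (fun x : ℝ × ℝ => x.1) hne
    have hpX : p ∈ X' := (Finset.mem_filter.mp hp).1
    have hpT : p ∈ T.car := (Finset.mem_filter.mp hp).2
    have hsub : (Trap.mk T.l p.1 T.b T.t).car ⊆ T.car := by
      rintro w ⟨h1, h2, h3, h4⟩
      have h5 : p.1 < T.r := hpT.2.1
      exact ⟨h1, lt_trans h2 h5, h3, h4⟩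
    have hfil : X'.filter (fun x => x ∈ (Trap.mk T.l p.1 T.b T.t).car)
        = (X'.filter (fun x => x ∈ T.car)).erase p := by
      ext w
      simp only [Finset.mem_filter, Finset.mem_erase]
      constructor
      · rintro ⟨hw, hc⟩
        refine ⟨?_, hw, hsub hc⟩
        rintro rfl
        exact lt_irrefl _ hc.2.1
      · rintro ⟨hne', hw, hc⟩
        refine ⟨hw, hc.1, ?_, hc.2.2.1, hc.2.2.2⟩
        have h6 : w.1 ≤ p.1 := hmax w (Finset.mem_filter.mpr ⟨hw, hc⟩)
        exact lt_of_le_of_ne h6 fun h7 => hne' (habs w hw p hpX h7)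
    have hcard : (X'.filter (fun x => x ∈ (Trap.mk T.l p.1 T.b T.t).car)).card = g + d := by
      rw [hfil, Finset.card_erase_of_mem hp, hT]
      omega
    obtain ⟨T', h1, h2, h3, h4, h5, h6⟩ := ih _ hcard
    exact ⟨T', h1, h2, h3, le_trans h4 hpT.2.1.le, h5.trans hsub, h6⟩

/-- a trapezoid containing the whole set -/
theorem exists_big (X' : Finset (ℝ × ℝ)) :
    ∃ T : Trap, X'.filter (fun x => x ∈ T.car) = X' := by
  have h : ∃ M : ℝ, ∀ p ∈ X', |p.1| < M ∧ |p.2| < M := by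
    induction X' using Finset.induction_on with
    | empty => exact ⟨0, by simp⟩
    | insert a s _ ih =>
      obtain ⟨M, hM⟩ := ih
      refine ⟨max M (|a.1| + |a.2| + 1), fun p hp => ?_⟩
      rcases Finset.mem_insert.mp hp with rfl | hp
      · constructor
        · exact lt_of_lt_of_le (by linarith [abs_nonneg p.2]) (le_max_right _ _)
        · exact lt_of_lt_of_le (by linarith [abs_nonneg p.1]) (le_max_right _ _)
      · exact ⟨lt_of_lt_of_le (hM p hp).1 (le_max_left _ _),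
          lt_of_lt_of_le (hM p hp).2 (le_max_left _ _)⟩
  obtain ⟨M, hM⟩ := h
  refine ⟨⟨-M, M, (0, -M), (0, M)⟩, ?_⟩
  rw [Finset.filter_eq_self]
  intro p hp
  obtain ⟨h1, h2⟩ := hM p hp
  rw [abs_lt] at h1 h2
  refine ⟨h1.1, h1.2, ?_, ?_⟩
  · simpa [ht] using h2.1
  · simpa [ht] using h2.2

/-- the case of `cut` in which the bound is trivial -/
theorem cut_trivial (X : Finset (ℝ × ℝ)) (hX : Gen X) (X' : Finset (ℝ × ℝ))
    (hX' : X' ⊆ X) (g : ℕ) (hg : 1 ≤ g) (hg' : g ≤ X'.card)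
    (hq : (X'.card : ℝ) ≤ 160000 * g) :
    ∃ T : Trap, (X'.filter (fun x => x ∈ T.car)).card = g ∧
      ((X.offDiag.filter (fun e => Meets (lin e.1 e.2) T.car)).card : ℝ)
        ≤ 400 * Real.sqrt ((g : ℝ) / X'.card) * (X.card : ℝ) ^ 2 := by
  obtain ⟨T₀, hT₀⟩ := exists_big X'
  obtain ⟨T, -, -, -, -, -, hT⟩ := shrink X'
    (fun p hp q hq h => hX.1 p (hX' hp) q (hX' hq) h) g T₀ (by rw [hT₀]; exact hg')
  refine ⟨T, hT, ?_⟩
  have hm : (0 : ℝ) < X'.card := by
    have : 0 < X'.card := lt_of_lt_of_le (by omega) hg'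
    exact_mod_cast this
  have h1 : (1 : ℝ) ≤ 400 * Real.sqrt ((g : ℝ) / X'.card) := by
    have h2 : (1 / 400 : ℝ) ≤ Real.sqrt ((g : ℝ) / X'.card) := by
      apply Real.le_sqrt_of_sq_le
      rw [le_div_iff₀ hm]
      linarith
    linarith
  have h3 : ((X.offDiag.filter (fun e => Meets (lin e.1 e.2) T.car)).card : ℝ)
      ≤ (X.card : ℝ) ^ 2 := by
    have h4 : (X.offDiag.filter (fun e => Meets (lin e.1 e.2) T.car)).card ≤ X.card ^ 2 := by
      calc _ ≤ X.offDiag.card := Finset.card_filter_le _ _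
        _ = X.card * X.card - X.card := Finset.offDiag_card X
        _ ≤ X.card ^ 2 := by rw [sq]; exact Nat.sub_le _ _
    exact_mod_cast h4
  calc _ ≤ (X.card : ℝ) ^ 2 := h3
    _ = 1 * (X.card : ℝ) ^ 2 := (one_mul _).symm
    _ ≤ _ := mul_le_mul_of_nonneg_right h1 (by positivity)

end Pool.H34.BN
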