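import Mathlib

/-! Definitions for the lower bound `(4 - o(1)) n` for blocking sets (MP_d0a74c_co). -/

open Classical

namespace Pool.H34.BN

/-- the height at abscissa `x` of the line with slope `L.1` and intercept `L.2` -/
def ht (L : ℝ × ℝ) (x : ℝ) : ℝ := L.1 * x + L.2

/-- slope and intercept of the line through `p` and `q` (for `p.1 ≠ q.1`) -/
noncomputable def lin (p q : ℝ × ℝ) : ℝ × ℝ :=
  ((q.2 - p.2) / (q.1 - p.1), p.2 - (q.2 - p.2) / (q.1 - p.1) * p.1)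

/-- a trapezoid with two vertical walls: `l < x < r`, above the line `b`, below the line `t` -/
structure Trap where
  l : ℝ
  r : ℝ
  b : ℝ × ℝ
  t : ℝ × ℝ

/-- the open region of a trapezoid -/
def Trap.car (T : Trap) : Set (ℝ × ℝ) :=
  {w | T.l < w.1 ∧ w.1 < T.r ∧ ht T.b w.1 < w.2 ∧ w.2 < ht T.t w.1}

/-- the line `L` meets the set `D` -/
def Meets (L : ℝ × ℝ) (D : Set (ℝ × ℝ)) : Prop := ∃ w ∈ D, w.2 = ht L w.1

/-- number of crossings of the segment `pq` with the boundary of the convex set `D` -/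
noncomputable def chi (D : Set (ℝ × ℝ)) (p q : ℝ × ℝ) : ℕ :=
  if p ∈ D then (if q ∈ D then 0 else 1)
  else (if q ∈ D then 1 else if ∃ w ∈ segment ℝ p q, w ∈ D then 2 else 0)

/-- no three points of `X` are collinear -/
def NoThree (X : Finset (ℝ × ℝ)) : Prop :=
  ∀ a ∈ X, ∀ b ∈ X, ∀ c ∈ X, a ≠ b → a ≠ c → b ≠ c → ¬ Collinear ℝ ({a, b, c} : Set (ℝ × ℝ))

/-- the abscissas are generic: distinct points have distinct abscissas, and two different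
connecting lines never have the same height at the abscissa of a point of `X` which is not on them -/
def Gen (X : Finset (ℝ × ℝ)) : Prop :=
  (∀ p ∈ X, ∀ q ∈ X, p.1 = q.1 → p = q) ∧
  (∀ p ∈ X, ∀ q ∈ X, ∀ p' ∈ X, ∀ q' ∈ X, p ≠ q → p' ≠ q' → ∀ z ∈ X,
    ht (lin p q) z.1 = ht (lin p' q') z.1 → lin p q = lin p' q' ∨ ht (lin p q) z.1 = z.2)

/-- `T` is the trapezoid of `z` in the vertical decomposition of the set `S` of lines,
cut at the abscissas `-A` and `A` -/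
def IsTrap (S : Finset (ℝ × ℝ)) (A : ℝ) (z : ℝ × ℝ) (T : Trap) : Prop :=
  T.t ∈ S ∧ T.b ∈ S ∧ z ∈ T.car ∧ -A ≤ T.l ∧ T.r ≤ A ∧
  (∀ L ∈ S, ¬ Meets L T.car) ∧
  (∀ L ∈ S, ∀ x, T.l < x → x < T.r →
    (L ≠ T.t → ht L x ≠ ht T.t x) ∧ (L ≠ T.b → ht L x ≠ ht T.b x)) ∧
  (T.l = -A ∨ ∃ L ∈ S, (L ≠ T.t ∧ ht L T.l = ht T.t T.l) ∨ (L ≠ T.b ∧ ht L T.l = ht T.b T.l)) ∧
  (T.r = A ∨ ∃ L ∈ S, (L ≠ T.t ∧ ht L T.r = ht T.t T.r) ∨ (L ≠ T.b ∧ ht L T.r = ht T.b T.r))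

/-- the weight function: `max u c` to the power `-σ` -/
noncomputable def wt (c σ : ℝ) (u : ℕ) : ℝ := (max (u : ℝ) c) ^ (-σ)

/-- value of an affine functional, given by its three coefficients -/
def aff (g : ℝ × ℝ × ℝ) (z : ℝ × ℝ) : ℝ := g.1 * z.1 + g.2.1 * z.2 + g.2.2

/-- sample lines together with the two box lines -/
noncomputable def SS {X : Finset (ℝ × ℝ)} (Y : ℝ) {s : ℕ} (τ : Fin s → {e // e ∈ X.offDiag}) :
    Finset (ℝ × ℝ) :=
  insert ((0 : ℝ), Y) (insert ((0 : ℝ), -Y)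
    (Finset.univ.image (fun i => lin (τ i).1.1 (τ i).1.2)))

/-- no sample line passes through `z` -/
def Good {X : Finset (ℝ × ℝ)} {s : ℕ} (τ : Fin s → {e // e ∈ X.offDiag}) (z : ℝ × ℝ) : Prop :=
  ∀ i, ht (lin (τ i).1.1 (τ i).1.2) z.1 ≠ z.2

/-- the box is large enough -/
def Box (X : Finset (ℝ × ℝ)) (A Y : ℝ) : Prop :=
  (∀ z ∈ X, |z.1| < A ∧ |z.2| < Y) ∧
  (∀ e ∈ X.offDiag, ∀ z ∈ X, |ht (lin e.1 e.2) z.1| < Y)

end Pool.H34.BN
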