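import Pool.Agent.H34.BN.Defs

/-! T6: the energy inequality. -/

open Classical

namespace Pool.H34.BN

theorem wt_nonneg {c σ : ℝ} (hc : 0 < c) (u : ℕ) : 0 ≤ wt c σ u := by
  unfold wt
  exact Real.rpow_nonneg (le_trans hc.le (le_max_right _ _)) _

theorem rpow_mid {x y σ : ℝ} (hx : 0 < x) (hy : 0 < y) (hσ : 0 < σ) :
    (2 : ℝ) ^ (1 + σ) * (x + y) ^ (-σ) ≤ x ^ (-σ) + y ^ (-σ) := by
  have h1 : x ^ (-σ) = (x ^ (-(σ / 2))) ^ 2 := by
    rw [← Real.rpow_natCast, ← Real.rpow_mul hx.le]; congr 1; push_cast; ring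
  have h2 : y ^ (-σ) = (y ^ (-(σ / 2))) ^ 2 := by
    rw [← Real.rpow_natCast, ← Real.rpow_mul hy.le]; congr 1; push_cast; ring
  have h3 : 2 * (x ^ (-(σ / 2)) * y ^ (-(σ / 2))) ≤ x ^ (-σ) + y ^ (-σ) := by
    rw [h1, h2]; nlinarith [sq_nonneg (x ^ (-(σ / 2)) - y ^ (-(σ / 2)))]
  have h4 : x ^ (-(σ / 2)) * y ^ (-(σ / 2)) = (x * y) ^ (-(σ / 2)) := by
    rw [Real.mul_rpow hx.le hy.le]
  have h5 : x * y ≤ ((x + y) / 2) ^ 2 := by nlinarith [sq_nonneg (x - y)]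
  have h6 : (((x + y) / 2) ^ 2) ^ (-(σ / 2)) ≤ (x * y) ^ (-(σ / 2)) :=
    Real.rpow_le_rpow_of_nonpos (mul_pos hx hy) h5 (by linarith)
  have h7 : (((x + y) / 2) ^ 2) ^ (-(σ / 2)) = ((x + y) / 2) ^ (-σ) := by
    rw [← Real.rpow_natCast, ← Real.rpow_mul (by linarith)]; congr 1; push_cast; ring
  have h8 : ((x + y) / 2) ^ (-σ) = (2 : ℝ) ^ σ * (x + y) ^ (-σ) := by
    rw [Real.div_rpow (by linarith) (by norm_num), Real.rpow_neg (by norm_num : (0:ℝ) ≤ 2)]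
    rw [div_inv_eq_mul]; ring
  have h9 : (2 : ℝ) ^ (1 + σ) = 2 * (2 : ℝ) ^ σ := by
    rw [Real.rpow_add (by norm_num)]; norm_num
  rw [h9, mul_assoc, ← h8, ← h7]
  rw [h4] at h3
  linarith

theorem wt_step {c σ : ℝ} (hc : 0 < c) (hc1 : c ≤ 1) (hσ : 0 < σ) {u u1 u2 : ℕ}
    (hu : u = u1 + u2) (h1 : 1 ≤ u) :
    wt c σ u ≤ (2 : ℝ) ^ (-1 - σ) * (1 + c) ^ σ * (wt c σ u1 + wt c σ u2) := by
  set x : ℝ := max (u1 : ℝ) c with hx
  set y : ℝ := max (u2 : ℝ) c with hy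
  have hx0 : 0 < x := lt_of_lt_of_le hc (le_max_right _ _)
  have hy0 : 0 < y := lt_of_lt_of_le hc (le_max_right _ _)
  have hU1 : (1 : ℝ) ≤ u := by exact_mod_cast h1
  have hU : (u : ℝ) = u1 + u2 := by rw [hu]; push_cast; ring
  have hxy : x + y ≤ (1 + c) * u := by
    have hxy' : x + y ≤ u + c := by
      rcases Nat.eq_zero_or_pos u1 with h | h
      · have : x = c := by rw [hx, h]; simp [hc.le]
        rw [this]
        have : y ≤ u := by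
          apply max_le
          · rw [hU]; linarith [Nat.cast_nonneg (α := ℝ) u1]
          · linarith
        linarith
      · have hxe : x = u1 := by
          apply max_eq_left
          have : (1 : ℝ) ≤ u1 := by exact_mod_cast h
          linarith
        have hye : y ≤ u2 + c := by
          apply max_le
          · linarith
          · linarith [Nat.cast_nonneg (α := ℝ) u2]
        rw [hxe, hU]; linarith
    nlinarith
  have e1 : wt c σ u = (u : ℝ) ^ (-σ) := by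
    unfold wt; rw [max_eq_left (by linarith)]
  have h2 : (u : ℝ) ^ (-σ) ≤ ((x + y) / (1 + c)) ^ (-σ) := by
    apply Real.rpow_le_rpow_of_nonpos
    · exact div_pos (by linarith) (by linarith)
    · rw [div_le_iff₀ (by linarith)]; linarith
    · linarith
  have h3 : ((x + y) / (1 + c)) ^ (-σ) = (1 + c) ^ σ * (x + y) ^ (-σ) := by
    rw [Real.div_rpow (by linarith) (by linarith), Real.rpow_neg (by linarith : (0:ℝ) ≤ 1 + c),
      div_inv_eq_mul]; ring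
  have h4 := rpow_mid hx0 hy0 hσ
  have h5 : (x + y) ^ (-σ) ≤ (2 : ℝ) ^ (-1 - σ) * (x ^ (-σ) + y ^ (-σ)) := by
    have e : (2 : ℝ) ^ (-1 - σ) * (2 : ℝ) ^ (1 + σ) = 1 := by
      rw [← Real.rpow_add (by norm_num)]; simp
    have hp : 0 < (2 : ℝ) ^ (-1 - σ) := Real.rpow_pos_of_pos (by norm_num) _
    calc (x + y) ^ (-σ) = (2 : ℝ) ^ (-1 - σ) * ((2 : ℝ) ^ (1 + σ) * (x + y) ^ (-σ)) := by
          rw [← mul_assoc, e, one_mul]
      _ ≤ _ := by gcongr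
  rw [e1]
  have hcp : 0 ≤ (1 + c) ^ σ := Real.rpow_nonneg (by linarith) _
  calc (u : ℝ) ^ (-σ) ≤ (1 + c) ^ σ * (x + y) ^ (-σ) := by rw [← h3]; exact h2
    _ ≤ (1 + c) ^ σ * ((2 : ℝ) ^ (-1 - σ) * (x ^ (-σ) + y ^ (-σ))) := by gcongr
    _ = (2 : ℝ) ^ (-1 - σ) * (1 + c) ^ σ * (wt c σ u1 + wt c σ u2) := by
        unfold wt; ring

/-- if `b` lies in the open segments `p q` and `p q'` then `p`, `q`, `q'` are collinear -/
theorem collinear_of_open {p q q' b : ℝ × ℝ} (hpq : p ≠ q)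
    (h : b ∈ openSegment ℝ p q) (h' : b ∈ openSegment ℝ p q') :
    Collinear ℝ ({p, q, q'} : Set (ℝ × ℝ)) := by
  rw [openSegment_eq_image'] at h h'
  obtain ⟨t, ⟨ht0, ht1⟩, rfl⟩ := h
  obtain ⟨s, ⟨hs0, hs1⟩, hs⟩ := h'
  have hs' : s • (q' - p) = t • (q - p) := by
    have := hs
    simp only at this
    exact add_left_cancel this
  have hq' : q' = (t / s) • (q - p) + p := by
    have : q' - p = (t / s) • (q - p) := by
      rw [div_eq_inv_mul, mul_smul, ← hs', smul_smul, inv_mul_cancel₀ hs0.ne', one_smul]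
    rw [← this]; simp
  rw [collinear_iff_of_mem (p₀ := p) (by simp)]
  refine ⟨q - p, ?_⟩
  intro z hz
  simp only [Set.mem_insert_iff, Set.mem_singleton_iff] at hz
  rcases hz with rfl | rfl | rfl
  · exact ⟨0, by simp⟩
  · exact ⟨1, by simp⟩
  · exact ⟨t / s, by simpa using hq'⟩

theorem energy (X Y : Finset (ℝ × ℝ)) (hX : NoThree X)
    (hY : ∀ x ∈ X, ∀ y ∈ X, x ≠ y → ∃ z ∈ Y, z ∈ openSegment ℝ x y)
    (U : ℝ × ℝ → ℝ × ℝ → ℕ) (hs : ∀ p q, U p q = U q p)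
    (hadd : ∀ p q b, b ∈ segment ℝ p q → U p q = U p b + U b q)
    (c σ : ℝ) (hc : 0 < c) (hc1 : c ≤ 1) (hσ : 0 < σ) :
    ∑ e ∈ X.offDiag.filter (fun e => 1 ≤ U e.1 e.2), wt c σ (U e.1 e.2)
      ≤ (2 : ℝ) ^ (-σ) * (1 + c) ^ σ * ∑ p ∈ X, ∑ b ∈ Y, wt c σ (U p b) := by
  have hY' : ∀ e : (ℝ × ℝ) × (ℝ × ℝ), ∃ z : ℝ × ℝ, e ∈ X.offDiag →
      z ∈ Y ∧ z ∈ openSegment ℝ e.1 e.2 := by
    intro e
    by_cases he : e ∈ X.offDiag
    · rw [Finset.mem_offDiag] at he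
      obtain ⟨z, hz, hz'⟩ := hY e.1 he.1 e.2 he.2.1 he.2.2
      exact ⟨z, fun _ => ⟨hz, hz'⟩⟩
    · exact ⟨0, fun h => absurd h he⟩
  choose β hβ using hY'
  set F := X.offDiag.filter (fun e => 1 ≤ U e.1 e.2) with hF
  have hFo : ∀ e ∈ F, e ∈ X.offDiag := fun e he => (Finset.mem_filter.1 he).1
  have hS : ∀ g : (ℝ × ℝ) × (ℝ × ℝ) → (ℝ × ℝ) × (ℝ × ℝ), Set.InjOn g F →
      (∀ e ∈ F, g e ∈ X ×ˢ Y) →
      ∑ e ∈ F, wt c σ (U (g e).1 (g e).2) ≤ ∑ p ∈ X, ∑ b ∈ Y, wt c σ (U p b) := by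
    intro g hg hm
    rw [← Finset.sum_product']
    rw [← Finset.sum_image (f := fun x : (ℝ × ℝ) × (ℝ × ℝ) => wt c σ (U x.1 x.2)) hg]
    apply Finset.sum_le_sum_of_subset_of_nonneg
    · intro x hx
      obtain ⟨e, he, rfl⟩ := Finset.mem_image.1 hx
      exact hm e he
    · intro i _ _; exact wt_nonneg hc _
  have hA : ∑ e ∈ F, wt c σ (U e.1 (β e)) ≤ ∑ p ∈ X, ∑ b ∈ Y, wt c σ (U p b) := by
    apply hS (fun e => (e.1, β e))
    · intro e he e' he' h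
      simp only [Prod.mk.injEq] at h
      have h1 := hβ e (hFo e he)
      have h2 := hβ e' (hFo e' he')
      have o1 := Finset.mem_offDiag.1 (hFo e he)
      have o2 := Finset.mem_offDiag.1 (hFo e' he')
      by_contra hne
      have hq : e.2 ≠ e'.2 := fun h2 => hne (Prod.ext h.1 h2)
      have h2' : β e ∈ openSegment ℝ e.1 e'.2 := by rw [h.1, h.2]; exact h2.2
      exact hX e.1 o1.1 e.2 o1.2.1 e'.2 o2.2.1 o1.2.2 (by rw [h.1]; exact o2.2.2) hq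
        (collinear_of_open o1.2.2 h1.2 h2')
    · intro e he
      exact Finset.mem_product.2 ⟨(Finset.mem_offDiag.1 (hFo e he)).1, (hβ e (hFo e he)).1⟩
  have hB : ∑ e ∈ F, wt c σ (U (β e) e.2) ≤ ∑ p ∈ X, ∑ b ∈ Y, wt c σ (U p b) := by
    have : ∑ e ∈ F, wt c σ (U (β e) e.2) = ∑ e ∈ F, wt c σ (U e.2 (β e)) := by
      apply Finset.sum_congr rfl
      intro e _
      rw [hs]
    rw [this]
    apply hS (fun e => (e.2, β e))
    · intro e he e' he' h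
      simp only [Prod.mk.injEq] at h
      have h1 := hβ e (hFo e he)
      have h2 := hβ e' (hFo e' he')
      have o1 := Finset.mem_offDiag.1 (hFo e he)
      have o2 := Finset.mem_offDiag.1 (hFo e' he')
      by_contra hne
      have hq : e.1 ≠ e'.1 := fun h2 => hne (Prod.ext h2 h.1)
      have h1' : β e ∈ openSegment ℝ e.2 e.1 := by rw [openSegment_symm]; exact h1.2
      have h2' : β e ∈ openSegment ℝ e.2 e'.1 := by
        rw [h.1, h.2, openSegment_symm]; exact h2.2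
      exact hX e.2 o1.2.1 e.1 o1.1 e'.1 o2.1 (Ne.symm o1.2.2)
        (by rw [h.1]; exact Ne.symm o2.2.2) hq
        (collinear_of_open (Ne.symm o1.2.2) h1' h2')
    · intro e he
      exact Finset.mem_product.2 ⟨(Finset.mem_offDiag.1 (hFo e he)).2.1, (hβ e (hFo e he)).1⟩
  have hstep : ∀ e ∈ F, wt c σ (U e.1 e.2) ≤
      (2 : ℝ) ^ (-1 - σ) * (1 + c) ^ σ * (wt c σ (U e.1 (β e)) + wt c σ (U (β e) e.2)) := by
    intro e he
    apply wt_step hc hc1 hσ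
    · exact hadd _ _ _ (openSegment_subset_segment ℝ _ _ (hβ e (hFo e he)).2)
    · exact (Finset.mem_filter.1 he).2
  have hpos : 0 ≤ (2 : ℝ) ^ (-1 - σ) * (1 + c) ^ σ :=
    mul_nonneg (Real.rpow_nonneg (by norm_num) _) (Real.rpow_nonneg (by linarith) _)
  have h2e : (2 : ℝ) ^ (-1 - σ) * 2 = (2 : ℝ) ^ (-σ) := by
    have : (-1 - σ) = -σ - 1 := by ring
    rw [this, Real.rpow_sub (by norm_num)]; norm_num
  calc ∑ e ∈ F, wt c σ (U e.1 e.2)
      ≤ ∑ e ∈ F, (2 : ℝ) ^ (-1 - σ) * (1 + c) ^ σ *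
          (wt c σ (U e.1 (β e)) + wt c σ (U (β e) e.2)) := Finset.sum_le_sum hstep
    _ = (2 : ℝ) ^ (-1 - σ) * (1 + c) ^ σ *
          (∑ e ∈ F, wt c σ (U e.1 (β e)) + ∑ e ∈ F, wt c σ (U (β e) e.2)) := by
        rw [← Finset.mul_sum, Finset.sum_add_distrib]
    _ ≤ (2 : ℝ) ^ (-1 - σ) * (1 + c) ^ σ *
          ((∑ p ∈ X, ∑ b ∈ Y, wt c σ (U p b)) + ∑ p ∈ X, ∑ b ∈ Y, wt c σ (U p b)) := by
        gcongr
    _ = ((2 : ℝ) ^ (-1 - σ) * 2) * (1 + c) ^ σ * ∑ p ∈ X, ∑ b ∈ Y, wt c σ (U p b) := by ring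
    _ = (2 : ℝ) ^ (-σ) * (1 + c) ^ σ * ∑ p ∈ X, ∑ b ∈ Y, wt c σ (U p b) := by rw [h2e]

end Pool.H34.BN
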