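import Pool.Agent.H34.BN.Energy

/-! Energy inequality for the blocked pairs (variant of `energy` by helper47). -/

open Classical

namespace Pool.H34.BN

theorem energy_part (X Y : Finset (ℝ × ℝ)) (hX : NoThree X)
    (U : ℝ × ℝ → ℝ × ℝ → ℕ) (hs : ∀ p q, U p q = U q p)
    (hadd : ∀ p q b, b ∈ segment ℝ p q → U p q = U p b + U b q)
    (c σ : ℝ) (hc : 0 < c) (hc1 : c ≤ 1) (hσ : 0 < σ) :
    ∑ e ∈ X.offDiag.filter (fun e => 1 ≤ U e.1 e.2 ∧ ∃ z ∈ Y, z ∈ openSegment ℝ e.1 e.2),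
        wt c σ (U e.1 e.2)
      ≤ (2 : ℝ) ^ (-σ) * (1 + c) ^ σ * ∑ p ∈ X, ∑ b ∈ Y, wt c σ (U p b) := by
  set F := X.offDiag.filter
    (fun e => 1 ≤ U e.1 e.2 ∧ ∃ z ∈ Y, z ∈ openSegment ℝ e.1 e.2) with hF
  have hY' : ∀ e : (ℝ × ℝ) × (ℝ × ℝ), ∃ z : ℝ × ℝ, e ∈ F →
      z ∈ Y ∧ z ∈ openSegment ℝ e.1 e.2 := by
    intro e
    by_cases he : e ∈ F
    · obtain ⟨z, hz, hz'⟩ := (Finset.mem_filter.1 he).2.2
      exact ⟨z, fun _ => ⟨hz, hz'⟩⟩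
    · exact ⟨0, fun h => absurd h he⟩
  choose β hβ using hY'
  have hFo : ∀ e ∈ F, e ∈ X.offDiag := fun e he => (Finset.mem_filter.1 he).1
  have hS : ∀ g : (ℝ × ℝ) × (ℝ × ℝ) → (ℝ × ℝ) × (ℝ × ℝ), Set.InjOn g F →
      (∀ e ∈ F, g e ∈ X ×ˢ Y) →
      ∑ e ∈ F, wt c σ (U (g e).1 (g e).2) ≤ ∑ p ∈ X, ∑ b ∈ Y, wt c σ (U p b) := by
    intro g hg hm
    rw [← Finset.sum_product']
    rw [← Finset.sum_image (f := fun x : (ℝ × ℝ) × (ℝ × ℝ) => wt c σ (U x.1 x.2)) hg]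
    apply Finset.sum_le_sum_of_subset_of_nonneg
    · intro x hx
      obtain ⟨e, he, rfl⟩ := Finset.mem_image.1 hx
      exact hm e he
    · intro i _ _; exact wt_nonneg hc _
  have hA : ∑ e ∈ F, wt c σ (U e.1 (β e)) ≤ ∑ p ∈ X, ∑ b ∈ Y, wt c σ (U p b) := by
    apply hS (fun e => (e.1, β e))
    · intro e he e' he' h
      simp only [Prod.mk.injEq] at h
      have h1 := hβ e he
      have h2 := hβ e' he'
      have o1 := Finset.mem_offDiag.1 (hFo e he)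
      have o2 := Finset.mem_offDiag.1 (hFo e' he')
      by_contra hne
      have hq : e.2 ≠ e'.2 := fun h2 => hne (Prod.ext h.1 h2)
      have h2' : β e ∈ openSegment ℝ e.1 e'.2 := by rw [h.1, h.2]; exact h2.2
      exact hX e.1 o1.1 e.2 o1.2.1 e'.2 o2.2.1 o1.2.2 (by rw [h.1]; exact o2.2.2) hq
        (collinear_of_open o1.2.2 h1.2 h2')
    · intro e he
      exact Finset.mem_product.2 ⟨(Finset.mem_offDiag.1 (hFo e he)).1, (hβ e he).1⟩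
  have hB : ∑ e ∈ F, wt c σ (U (β e) e.2) ≤ ∑ p ∈ X, ∑ b ∈ Y, wt c σ (U p b) := by
    have : ∑ e ∈ F, wt c σ (U (β e) e.2) = ∑ e ∈ F, wt c σ (U e.2 (β e)) := by
      apply Finset.sum_congr rfl
      intro e _
      rw [hs]
    rw [this]
    apply hS (fun e => (e.2, β e))
    · intro e he e' he' h
      simp only [Prod.mk.injEq] at h
      have h1 := hβ e he
      have h2 := hβ e' he'
      have o1 := Finset.mem_offDiag.1 (hFo e he)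
      have o2 := Finset.mem_offDiag.1 (hFo e' he')
      by_contra hne
      have hq : e.1 ≠ e'.1 := fun h2 => hne (Prod.ext h2 h.1)
      have h1' : β e ∈ openSegment ℝ e.2 e.1 := by rw [openSegment_symm]; exact h1.2
      have h2' : β e ∈ openSegment ℝ e.2 e'.1 := by
        rw [h.1, h.2, openSegment_symm]; exact h2.2
      exact hX e.2 o1.2.1 e.1 o1.1 e'.1 o2.1 (Ne.symm o1.2.2)
        (by rw [h.1]; exact Ne.symm o2.2.2) hq
        (collinear_of_open (Ne.symm o1.2.2) h1' h2')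
    · intro e he
      exact Finset.mem_product.2 ⟨(Finset.mem_offDiag.1 (hFo e he)).2.1, (hβ e he).1⟩
  have hstep : ∀ e ∈ F, wt c σ (U e.1 e.2) ≤
      (2 : ℝ) ^ (-1 - σ) * (1 + c) ^ σ * (wt c σ (U e.1 (β e)) + wt c σ (U (β e) e.2)) := by
    intro e he
    apply wt_step hc hc1 hσ
    · exact hadd _ _ _ (openSegment_subset_segment ℝ _ _ (hβ e he).2)
    · exact (Finset.mem_filter.1 he).2.1
  have hpos : 0 ≤ (2 : ℝ) ^ (-1 - σ) * (1 + c) ^ σ :=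
    mul_nonneg (Real.rpow_nonneg (by norm_num) _) (Real.rpow_nonneg (by linarith) _)
  have h2e : (2 : ℝ) ^ (-1 - σ) * 2 = (2 : ℝ) ^ (-σ) := by
    have : (-1 - σ) = -σ - 1 := by ring
    rw [this, Real.rpow_sub (by norm_num)]; norm_num
  calc ∑ e ∈ F, wt c σ (U e.1 e.2)
      ≤ ∑ e ∈ F, (2 : ℝ) ^ (-1 - σ) * (1 + c) ^ σ *
          (wt c σ (U e.1 (β e)) + wt c σ (U (β e) e.2)) := Finset.sum_le_sum hstep
    _ = (2 : ℝ) ^ (-1 - σ) * (1 + c) ^ σ *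
          (∑ e ∈ F, wt c σ (U e.1 (β e)) + ∑ e ∈ F, wt c σ (U (β e) e.2)) := by
        rw [← Finset.mul_sum, Finset.sum_add_distrib]
    _ ≤ (2 : ℝ) ^ (-1 - σ) * (1 + c) ^ σ *
          ((∑ p ∈ X, ∑ b ∈ Y, wt c σ (U p b)) + ∑ p ∈ X, ∑ b ∈ Y, wt c σ (U p b)) := by
        gcongr
    _ = ((2 : ℝ) ^ (-1 - σ) * 2) * (1 + c) ^ σ * ∑ p ∈ X, ∑ b ∈ Y, wt c σ (U p b) := by ring
    _ = (2 : ℝ) ^ (-σ) * (1 + c) ^ σ * ∑ p ∈ X, ∑ b ∈ Y, wt c σ (U p b) := by rw [h2e]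

end Pool.H34.BN
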