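import Pool.Agent.H34.BN.Defs

/-! Equidistribution: the blockers seen through sign cells. -/

open Classical

namespace Pool.H34.BN

theorem aff_convex_pos (g : ℝ × ℝ × ℝ) : Convex ℝ {z : ℝ × ℝ | 0 < aff g z} := by
  intro x hx y hy u v hu hv huv
  simp only [Set.mem_ofPred_eq, aff, Prod.fst_add, Prod.snd_add, Prod.smul_fst, Prod.smul_snd,
    smul_eq_mul] at *
  have e : g.1 * (u * x.1 + v * y.1) + g.2.1 * (u * x.2 + v * y.2) + g.2.2
      = u * (g.1 * x.1 + g.2.1 * x.2 + g.2.2) + v * (g.1 * y.1 + g.2.1 * y.2 + g.2.2) := by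
    have : g.2.2 = (u + v) * g.2.2 := by rw [huv, one_mul]
    linear_combination this
  rw [e]
  rcases hu.eq_or_lt with h | h
  · rw [← h] at huv ⊢
    have : v = 1 := by linarith
    rw [this]; linarith
  · have := mul_pos h hx
    have := mul_nonneg hv hy.le
    linarith

theorem aff_convex_neg (g : ℝ × ℝ × ℝ) : Convex ℝ {z : ℝ × ℝ | ¬ 0 < aff g z} := by
  intro x hx y hy u v hu hv huv
  simp only [Set.mem_ofPred_eq, aff, Prod.fst_add, Prod.snd_add, Prod.smul_fst, Prod.smul_snd,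
    smul_eq_mul, not_lt] at *
  have e : g.1 * (u * x.1 + v * y.1) + g.2.1 * (u * x.2 + v * y.2) + g.2.2
      = u * (g.1 * x.1 + g.2.1 * x.2 + g.2.2) + v * (g.1 * y.1 + g.2.1 * y.2 + g.2.2) := by
    have : g.2.2 = (u + v) * g.2.2 := by rw [huv, one_mul]
    linear_combination this
  rw [e]
  have := mul_nonpos_of_nonneg_of_nonpos hu hx
  have := mul_nonpos_of_nonneg_of_nonpos hv hy
  linarith

/-- sign pattern of a point -/
noncomputable def pat {ι : Type} (G : ι → ℝ × ℝ × ℝ) (z : ℝ × ℝ) : ι → Bool :=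
  fun i => decide (0 < aff (G i) z)

theorem cell_convex {ι : Type} (G : ι → ℝ × ℝ × ℝ) (s : ι → Bool) :
    Convex ℝ {z : ℝ × ℝ | pat G z = s} := by
  have : {z : ℝ × ℝ | pat G z = s} = ⋂ i, {z : ℝ × ℝ | pat G z i = s i} := by
    ext z
    simp [funext_iff]
  rw [this]
  refine convex_iInter fun i => ?_
  cases h : s i with
  | true =>
    have e : {z : ℝ × ℝ | pat G z i = true} = {z : ℝ × ℝ | 0 < aff (G i) z} := by
      ext z; simp [pat]
    rw [e]; exact aff_convex_pos _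
  | false =>
    have e : {z : ℝ × ℝ | pat G z i = false} = {z : ℝ × ℝ | ¬ 0 < aff (G i) z} := by
      ext z; simp [pat]
    rw [e]; exact aff_convex_neg _

theorem equi (X Y : Finset (ℝ × ℝ)) (a m0 : ℝ) (ha : 0 ≤ a) (hm0 : 0 ≤ m0)
    (hlow : ∀ C : Set (ℝ × ℝ), Convex ℝ C →
      a * (((X.filter (fun x => x ∈ C)).card : ℝ) - m0) ≤ ((Y.filter (fun y => y ∈ C)).card : ℝ))
    {ι : Type} [Fintype ι] (G : ι → ℝ × ℝ × ℝ) (f : ℝ × ℝ → ℝ) (w : ℝ)
    (hf0 : ∀ z, 0 ≤ f z) (hfw : ∀ z, f z ≤ w)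
    (hG : ∀ z z' : ℝ × ℝ, (∀ i, 0 < aff (G i) z ↔ 0 < aff (G i) z') → f z = f z') :
    ∑ y ∈ Y, f y ≤ a * ∑ x ∈ X, f x
      + w * ((Y.card : ℝ) - a * X.card + a * 2 ^ (Fintype.card ι) * m0) := by
  have hG' : ∀ z z' : ℝ × ℝ, pat G z = pat G z' → f z = f z' := by
    intro z z' h
    apply hG
    intro i
    have := congrFun h i
    simpa [pat] using this
  set fs : (ι → Bool) → ℝ := fun s => if h : ∃ z, pat G z = s then f h.choose else 0 with hfs
  have hfs1 : ∀ z, f z = fs (pat G z) := by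
    intro z
    have h : ∃ z', pat G z' = pat G z := ⟨z, rfl⟩
    simp only [hfs, dif_pos h]
    exact hG' _ _ h.choose_spec.symm
  have hw : 0 ≤ w := le_trans (hf0 0) (hfw 0)
  have hfs0 : ∀ s, 0 ≤ fs s := by
    intro s; simp only [hfs]; split_ifs with h
    · exact hf0 _
    · exact le_rfl
  have hfsw : ∀ s, fs s ≤ w := by
    intro s; simp only [hfs]; split_ifs with h
    · exact hfw _
    · exact hw
  have hsum : ∀ Z : Finset (ℝ × ℝ), ∑ y ∈ Z, f y
      = ∑ s : ι → Bool, fs s * ((Z.filter (fun y => pat G y = s)).card : ℝ) := by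
    intro Z
    rw [← Finset.sum_fiberwise Z (pat G) f]
    refine Finset.sum_congr rfl fun s _ => ?_
    rw [Finset.sum_congr rfl (g := fun _ => fs s) (fun y hy => by
      rw [Finset.mem_filter] at hy; rw [hfs1 y, hy.2])]
    simp [mul_comm]
  have hcard : ∀ Z : Finset (ℝ × ℝ), (Z.card : ℝ)
      = ∑ s : ι → Bool, ((Z.filter (fun y => pat G y = s)).card : ℝ) := by
    intro Z
    rw [← Nat.cast_sum]
    congr 1
    exact Finset.card_eq_sum_card_fiberwise (fun x _ => Finset.mem_coe.mpr (Finset.mem_univ _))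
  have hpt : ∀ s : ι → Bool, fs s * ((Y.filter (fun y => pat G y = s)).card : ℝ)
      ≤ a * (fs s * ((X.filter (fun y => pat G y = s)).card : ℝ))
        + w * (((Y.filter (fun y => pat G y = s)).card : ℝ)
          - a * ((X.filter (fun y => pat G y = s)).card : ℝ) + a * m0) := by
    intro s
    have h := hlow _ (cell_convex G s)
    simp only [Set.mem_ofPred_eq] at h
    set xs : ℝ := ((X.filter (fun y => pat G y = s)).card : ℝ)
    set ys : ℝ := ((Y.filter (fun y => pat G y = s)).card : ℝ)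
    have h1 : 0 ≤ ys - a * (xs - m0) := by linarith
    have h2 : fs s * (ys - a * (xs - m0)) ≤ w * (ys - a * (xs - m0)) :=
      mul_le_mul_of_nonneg_right (hfsw s) h1
    have h3 : 0 ≤ fs s * (a * m0) := mul_nonneg (hfs0 s) (mul_nonneg ha hm0)
    nlinarith
  rw [hsum Y, hsum X, hcard Y, hcard X]
  refine (Finset.sum_le_sum fun s _ => hpt s).trans (le_of_eq ?_)
  rw [Finset.sum_add_distrib, ← Finset.mul_sum, ← Finset.mul_sum, Finset.sum_add_distrib,
    Finset.sum_sub_distrib, ← Finset.mul_sum]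
  simp only [Finset.sum_const, Finset.card_univ, Fintype.card_fun, Fintype.card_bool,
    nsmul_eq_mul]
  push_cast
  ring

end Pool.H34.BN
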