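import Pool.Agent.H34.BN.Trap2

/-! After a shear the abscissas of a finite set are generic. -/

open Classical

namespace Pool.H34.BN

namespace ShearAux

/-- the shear `(x, y) ↦ (x + c y, y)` -/
noncomputable def phi (c : ℝ) : (ℝ × ℝ) ≃ₗ[ℝ] (ℝ × ℝ) where
  toFun p := (p.1 + c * p.2, p.2)
  invFun p := (p.1 - c * p.2, p.2)
  map_add' p q := by
    ext
    · simp only [Prod.fst_add, Prod.snd_add]; ring
    · simp
  map_smul' a p := by
    ext
    · simp only [Prod.smul_fst, Prod.smul_snd, smul_eq_mul, RingHom.id_apply]; ring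
    · simp
  left_inv p := by
    ext
    · simp
    · simp
  right_inv p := by
    ext
    · simp
    · simp

theorem phi_fst (c : ℝ) (p : ℝ × ℝ) : (phi c p).1 = p.1 + c * p.2 := rfl

theorem phi_snd (c : ℝ) (p : ℝ × ℝ) : (phi c p).2 = p.2 := rfl

theorem ht_lin {p q : ℝ × ℝ} (h : p.1 ≠ q.1) (x y : ℝ) :
    y = ht (lin p q) x ↔ (q.1 - p.1) * (y - p.2) = (q.2 - p.2) * (x - p.1) := by
  have h1 : q.1 - p.1 ≠ 0 := fun e => h (by linarith)
  unfold ht lin
  simp only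
  constructor
  · intro e
    rw [e]
    field_simp
    ring
  · intro e
    have e2 : y - p.2 = (q.2 - p.2) * (x - p.1) / (q.1 - p.1) := by
      rw [eq_div_iff h1]
      linarith
    have e3 : y = p.2 + (q.2 - p.2) * (x - p.1) / (q.1 - p.1) := by linarith
    rw [e3]
    field_simp
    ring

/-- the height of the line `pq`, in the coordinates given by `c`, at the abscissa of a point `w`
which lies on this line -/
theorem ht_phi {c : ℝ} {p q w : ℝ × ℝ} (h : (phi c p).1 ≠ (phi c q).1) :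
    (phi c w).2 = ht (lin (phi c p) (phi c q)) (phi c w).1 ↔
      (q.1 - p.1) * (w.2 - p.2) = (q.2 - p.2) * (w.1 - p.1) := by
  rw [ht_lin h]
  simp only [phi_fst, phi_snd]
  constructor
  · intro e
    nlinarith [e]
  · intro e
    nlinarith [e]

def Bad1 (p q : ℝ × ℝ) : Set ℝ := {c | p ≠ q ∧ (phi c p).1 = (phi c q).1}

def Bad2 (p q p' q' z : ℝ × ℝ) : Set ℝ :=
  {c | (phi c p).1 ≠ (phi c q).1 ∧ (phi c p').1 ≠ (phi c q').1 ∧
    ht (lin (phi c p) (phi c q)) (phi c z).1 = ht (lin (phi c p') (phi c q')) (phi c z).1 ∧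
    lin (phi c p) (phi c q) ≠ lin (phi c p') (phi c q') ∧
    ht (lin (phi c p) (phi c q)) (phi c z).1 ≠ (phi c z).2}

theorem bad1_sub (p q : ℝ × ℝ) : (Bad1 p q).Subsingleton := by
  intro c hc c' hc'
  obtain ⟨h1, h2⟩ := hc
  obtain ⟨_, h3⟩ := hc'
  rw [phi_fst, phi_fst] at h2 h3
  by_contra hne
  apply h1
  have e : (c - c') * (p.2 - q.2) = 0 := by linarith
  have e2 : p.2 = q.2 := by
    rcases mul_eq_zero.1 e with e | e
    · exact absurd (by linarith) hne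
    · linarith
  have e1 : p.1 = q.1 := by rw [e2] at h2; linarith
  exact Prod.ext e1 e2

theorem bad2_sub (p q p' q' z : ℝ × ℝ) : (Bad2 p q p' q' z).Subsingleton := by
  intro c hc c' hc'
  obtain ⟨a1, a2, a3, a4, a5⟩ := hc
  obtain ⟨b1, b2, b3, b4, b5⟩ := hc'
  by_contra hne
  set h := ht (lin (phi c p) (phi c q)) (phi c z).1 with hh
  set k := ht (lin (phi c' p) (phi c' q)) (phi c' z).1 with hk
  -- the common points of the two lines, in the old coordinates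
  let w : ℝ × ℝ := ((phi c z).1 - c * h, h)
  let v : ℝ × ℝ := ((phi c' z).1 - c' * k, k)
  have w1 : (phi c w).1 = (phi c z).1 := by
    rw [phi_fst c w]
    show (phi c z).1 - c * h + c * h = (phi c z).1
    ring
  have w2 : (phi c w).2 = h := rfl
  have v1 : (phi c' v).1 = (phi c' z).1 := by
    rw [phi_fst c' v]
    show (phi c' z).1 - c' * k + c' * k = (phi c' z).1
    ring
  have v2 : (phi c' v).2 = k := rfl
  have W1 : (q.1 - p.1) * (w.2 - p.2) = (q.2 - p.2) * (w.1 - p.1) := by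
    rw [← ht_phi a1, w1, w2]
  have W2 : (q'.1 - p'.1) * (w.2 - p'.2) = (q'.2 - p'.2) * (w.1 - p'.1) := by
    rw [← ht_phi a2, w1, w2]
    exact a3
  have V1 : (q.1 - p.1) * (v.2 - p.2) = (q.2 - p.2) * (v.1 - p.1) := by
    rw [← ht_phi b1, v1, v2]
  have V2 : (q'.1 - p'.1) * (v.2 - p'.2) = (q'.2 - p'.2) * (v.1 - p'.1) := by
    rw [← ht_phi b2, v1, v2]
    exact b3
  have X1 := (ht_phi (w := v) a1).2 V1
  have X2 := (ht_phi (w := v) a2).2 V2
  have Y1 := (ht_phi (w := w) a1).2 W1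
  have Y2 := (ht_phi (w := w) a2).2 W2
  have hwv : w = v := by
    by_contra hwv
    have hx : (phi c w).1 ≠ (phi c v).1 := by
      intro e
      apply hwv
      apply (phi c).injective
      apply Prod.ext e
      rw [Y1, X1, e]
    exact a4 (ht_two hx (Y1.symm.trans Y2) (X1.symm.trans X2))
  have e1 : h = k := congrArg Prod.snd hwv
  have e2 : (phi c z).1 - c * h = (phi c' z).1 - c' * k := congrArg Prod.fst hwv
  rw [phi_fst, phi_fst, ← e1] at e2
  have e3 : (c - c') * (z.2 - h) = 0 := by linarith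
  rcases mul_eq_zero.1 e3 with e | e
  · exact hne (by linarith)
  · apply a5
    rw [phi_snd]
    linarith

end ShearAux

open ShearAux

theorem exists_shear (X : Finset (ℝ × ℝ)) :
    ∃ φ : (ℝ × ℝ) ≃ₗ[ℝ] (ℝ × ℝ), Gen (X.map φ.toEquiv.toEmbedding) := by
  have hX : (X : Set (ℝ × ℝ)).Finite := X.finite_toSet
  have h1 : (⋃ p ∈ (X : Set (ℝ × ℝ)), ⋃ q ∈ (X : Set (ℝ × ℝ)), Bad1 p q).Finite :=
    hX.biUnion fun p _ => hX.biUnion fun q _ => (bad1_sub p q).finite
  have h2 : (⋃ p ∈ (X : Set (ℝ × ℝ)), ⋃ q ∈ (X : Set (ℝ × ℝ)), ⋃ p' ∈ (X : Set (ℝ × ℝ)),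
      ⋃ q' ∈ (X : Set (ℝ × ℝ)), ⋃ z ∈ (X : Set (ℝ × ℝ)), Bad2 p q p' q' z).Finite :=
    hX.biUnion fun p _ => hX.biUnion fun q _ => hX.biUnion fun p' _ =>
      hX.biUnion fun q' _ => hX.biUnion fun z _ => (bad2_sub p q p' q' z).finite
  obtain ⟨c, hc⟩ := (h1.union h2).infinite_compl.nonempty
  rw [Set.mem_compl_iff, Set.mem_union, not_or] at hc
  obtain ⟨hc1, hc2⟩ := hc
  have g1 : ∀ p ∈ X, ∀ q ∈ X, p ≠ q → (phi c p).1 ≠ (phi c q).1 := by
    intro p hp q hq hpq e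
    apply hc1
    simp only [Set.mem_iUnion]
    exact ⟨p, hp, q, hq, hpq, e⟩
  refine ⟨phi c, ?_, ?_⟩
  · intro P hP Q hQ hPQ
    obtain ⟨p, hp, rfl⟩ := Finset.mem_map.1 hP
    obtain ⟨q, hq, rfl⟩ := Finset.mem_map.1 hQ
    by_contra hne
    have hpq : p ≠ q := fun e => hne (by rw [e])
    exact g1 p hp q hq hpq hPQ
  · intro P hP Q hQ P' hP' Q' hQ' hPQ hPQ' Z hZ heq
    obtain ⟨p, hp, rfl⟩ := Finset.mem_map.1 hP
    obtain ⟨q, hq, rfl⟩ := Finset.mem_map.1 hQ
    obtain ⟨p', hp', rfl⟩ := Finset.mem_map.1 hP'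
    obtain ⟨q', hq', rfl⟩ := Finset.mem_map.1 hQ'
    obtain ⟨z, hz, rfl⟩ := Finset.mem_map.1 hZ
    have hpq : p ≠ q := fun e => hPQ (by rw [e])
    have hpq' : p' ≠ q' := fun e => hPQ' (by rw [e])
    by_contra hcon
    push Not at hcon
    apply hc2
    simp only [Set.mem_iUnion]
    exact ⟨p, hp, q, hq, p', hp', q', hq', z, hz, g1 p hp q hq hpq, g1 p' hp' q' hq' hpq', heq,
      hcon.1, hcon.2⟩

end Pool.H34.BN
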