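import Pool.Agent.H34.BN.Part
import Pool.Agent.H34.BN.Chi
import Pool.Agent.H34.BN.ChiSign
import Pool.Agent.H34.BN.EnergyP
import Pool.Agent.H34.BN.Equi
import Pool.Agent.H34.BN.Shear

open Classical

namespace Pool.H34.BN

/-- the ordered pairs of different points of `X` which are not blocked by `Y` -/
noncomputable def unb (X Y : Finset (ℝ × ℝ)) : Finset ((ℝ × ℝ) × (ℝ × ℝ)) :=
  X.offDiag.filter (fun e => ¬ ∃ z ∈ Y, z ∈ openSegment ℝ e.1 e.2)

theorem exists_param {κ : ℝ} (hκ : κ < 4) :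
    ∃ c σ : ℝ, 0 < c ∧ c ≤ 1 ∧ 0 < σ ∧ σ < 2 ∧ (2 : ℝ) ^ (-σ) * (1 + c) ^ σ * κ < 1 := by
  have hcont : ContinuousAt (fun t : ℝ => (2 : ℝ) ^ (-(2 - t)) * (1 + t) ^ (2 - t) * κ) 0 := by
    have h1 : ContinuousAt (fun t : ℝ => (2 : ℝ) ^ (-(2 - t))) 0 := by
      apply ContinuousAt.rpow continuousAt_const (by fun_prop)
      left; norm_num
    have h2 : ContinuousAt (fun t : ℝ => (1 + t) ^ (2 - t)) 0 := by
      apply ContinuousAt.rpow (by fun_prop) (by fun_prop)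
      left; norm_num
    exact (h1.mul h2).mul continuousAt_const
  have h0 : (fun t : ℝ => (2 : ℝ) ^ (-(2 - t)) * (1 + t) ^ (2 - t) * κ) 0 < 1 := by
    have e1 : (2 : ℝ) ^ (-(2 - (0:ℝ))) = 1 / 4 := by
      rw [show (-(2 - (0:ℝ))) = ((-2 : ℤ) : ℝ) by norm_num, Real.rpow_intCast]; norm_num
    have e2 : (1 + (0:ℝ)) ^ (2 - (0:ℝ)) = 1 := by simp
    simp only [e1, e2]
    linarith
  have hev := hcont.eventually (gt_mem_nhds h0)
  obtain ⟨ε, hε, hball⟩ := Metric.eventually_nhds_iff.mp hev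
  set t := min (ε / 2) (1 / 2) with ht
  have ht0 : 0 < t := lt_min (by linarith) (by norm_num)
  have ht1 : t ≤ 1 / 2 := min_le_right _ _
  have ht2 : t ≤ ε / 2 := min_le_left _ _
  have := hball (y := t) (by rw [Real.dist_eq, sub_zero, abs_of_pos ht0]; linarith)
  exact ⟨t, 2 - t, ht0, by linarith, by linarith, by linarith, this⟩

theorem wt_le {c σ : ℝ} (hc : 0 < c) (hσ : 0 < σ) (u : ℕ) : wt c σ u ≤ c ^ (-σ) :=
  Real.rpow_le_rpow_of_nonpos hc (le_max_right _ _) (by linarith)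

theorem chi_self (D : Set (ℝ × ℝ)) (p : ℝ × ℝ) : chi D p p = 0 := by
  unfold chi
  by_cases h : p ∈ D
  · simp [h]
  · simp [h, segment_same]

/-- total crossing number -/
noncomputable def UU {k : ℕ} (T : Fin k → Trap) (p q : ℝ × ℝ) : ℕ := ∑ i, chi (T i).car p q

theorem UU_sign {k : ℕ} (T : Fin k → Trap) (p : ℝ × ℝ) :
    ∃ G : Fin k × Fin 20 → ℝ × ℝ × ℝ, ∀ z z' : ℝ × ℝ,
      (∀ i, 0 < aff (G i) z ↔ 0 < aff (G i) z') → UU T p z = UU T p z' := by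
  choose G hG using fun i => chi_sign (T i) p
  refine ⟨fun x => G x.1 x.2, fun z z' h => ?_⟩
  unfold UU
  exact Finset.sum_congr rfl fun i _ => hG i z z' (fun j => h (i, j))

/-- the growth of `N ^ (1 - σ/2)` -/
theorem exists_N {σ : ℝ} (hσ2 : σ < 2) (M δ : ℝ) (hδ : 0 < δ) :
    ∃ N : ℕ, 1 ≤ N ∧ M / N ≤ δ * (1 / 2 * (6400 * Real.sqrt (2 * N)) ^ (-σ)) := by
  have hlim : Filter.Tendsto (fun N : ℕ => ((N : ℝ)) ^ (1 - σ / 2)) Filter.atTop Filter.atTop :=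
    (tendsto_rpow_atTop (by linarith)).comp tendsto_natCast_atTop_atTop
  set K := (6400 * Real.sqrt 2) ^ (-σ) with hK
  have hKpos : 0 < K := Real.rpow_pos_of_pos (by positivity) _
  obtain ⟨N, hN1, hN⟩ := ((Filter.eventually_ge_atTop 1).and
    (hlim.eventually_ge_atTop (M / (δ * (1 / 2 * K))))).exists
  refine ⟨N, hN1, ?_⟩
  have hNpos : (0 : ℝ) < N := by exact_mod_cast hN1
  have e : (6400 * Real.sqrt (2 * N)) ^ (-σ) = K * (N : ℝ) ^ (-(σ / 2)) := by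
    rw [Real.sqrt_mul (by norm_num), ← mul_assoc, Real.mul_rpow (by positivity) (Real.sqrt_nonneg _),
      hK, Real.sqrt_eq_rpow (N : ℝ), ← Real.rpow_mul hNpos.le]
    congr 2
    ring
  rw [e, div_le_iff₀ hNpos]
  have e2 : (N : ℝ) ^ (1 - σ / 2) = (N : ℝ) ^ (-(σ / 2)) * N := by
    rw [show (1 - σ / 2) = -(σ / 2) + 1 by ring, Real.rpow_add_one hNpos.ne']
  rw [e2, div_le_iff₀ (by positivity)] at hN
  linarith

/-- lower bound for the total weight -/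
theorem weight_lower (X : Finset (ℝ × ℝ)) {k : ℕ} (T : Fin k → Trap) (N : ℕ) (hN : 1 ≤ N)
    (g : ℕ) (hgN : (X.card : ℝ) / g ≤ 2 * N) (h4 : 4 ≤ X.card)
    (hsum : ((∑ e ∈ X.offDiag, ∑ i, chi (T i).car e.1 e.2 : ℕ) : ℝ)
        ≤ 1600 * (X.card : ℝ) ^ 2 * Real.sqrt ((X.card : ℝ) / g))
    {c σ : ℝ} (hc : 0 < c) (hc1 : c ≤ 1) (hσ : 0 < σ) :
    (1 / 2 * (6400 * Real.sqrt (2 * N)) ^ (-σ)) * (X.card : ℝ) ^ 2
      ≤ ∑ e ∈ X.offDiag, wt c σ (UU T e.1 e.2) := by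
  set n := X.card with hn
  set M : ℝ := 6400 * Real.sqrt (2 * N) with hM
  have hN' : (1 : ℝ) ≤ N := by exact_mod_cast hN
  have hsq : 1 ≤ Real.sqrt (2 * N) := by
    rw [Real.one_le_sqrt]; linarith
  have hM1 : 1 ≤ M := by rw [hM]; linarith
  have hS : ((∑ e ∈ X.offDiag, UU T e.1 e.2 : ℕ) : ℝ) ≤ 1600 * (n : ℝ) ^ 2 * Real.sqrt (2 * N) := by
    refine hsum.trans ?_
    have : Real.sqrt ((n : ℝ) / g) ≤ Real.sqrt (2 * N) := Real.sqrt_le_sqrt hgN
    have h0 : (0 : ℝ) ≤ 1600 * (n : ℝ) ^ 2 := by positivity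
    exact mul_le_mul_of_nonneg_left this h0
  set F := X.offDiag.filter (fun e => M < (UU T e.1 e.2 : ℝ)) with hF
  set Gd := X.offDiag.filter (fun e => ¬ M < (UU T e.1 e.2 : ℝ)) with hGd
  have hFcard : (F.card : ℝ) * M ≤ 1600 * (n : ℝ) ^ 2 * Real.sqrt (2 * N) := by
    refine le_trans ?_ hS
    push_cast
    calc (F.card : ℝ) * M = ∑ e ∈ F, M := by simp
      _ ≤ ∑ e ∈ F, (UU T e.1 e.2 : ℝ) := Finset.sum_le_sum fun e he => by
          rw [hF, Finset.mem_filter] at he; exact he.2.le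
      _ ≤ ∑ e ∈ X.offDiag, (UU T e.1 e.2 : ℝ) :=
          Finset.sum_le_sum_of_subset_of_nonneg (Finset.filter_subset _ _)
            (fun _ _ _ => Nat.cast_nonneg _)
  have hF2 : (F.card : ℝ) ≤ (n : ℝ) ^ 2 / 4 := by
    have hspos : 0 < Real.sqrt (2 * N) := by linarith
    have : (F.card : ℝ) * 6400 * Real.sqrt (2 * N) ≤ 1600 * (n : ℝ) ^ 2 * Real.sqrt (2 * N) := by
      rw [hM] at hFcard; linarith
    have := le_of_mul_le_mul_right this hspos
    linarith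
  have hcardsum : F.card + Gd.card = X.offDiag.card := by
    rw [hF, hGd]; exact Finset.card_filter_add_card_filter_not _
  have hoff : (X.offDiag.card : ℝ) = (n : ℝ) * n - n := by
    rw [Finset.offDiag_card, Nat.cast_sub (Nat.le_mul_self _)]; push_cast; rfl
  have hn4 : (4 : ℝ) ≤ n := by exact_mod_cast h4
  have hG : (n : ℝ) ^ 2 / 2 ≤ Gd.card := by
    have h1 : (F.card : ℝ) + Gd.card = (n : ℝ) * n - n := by rw [← hoff]; exact_mod_cast hcardsum
    nlinarith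
  have hMσ : 0 ≤ M ^ (-σ) := Real.rpow_nonneg (by linarith) _
  calc (1 / 2 * M ^ (-σ)) * (n : ℝ) ^ 2 = ((n : ℝ) ^ 2 / 2) * M ^ (-σ) := by ring
    _ ≤ Gd.card * M ^ (-σ) := mul_le_mul_of_nonneg_right hG hMσ
    _ = ∑ e ∈ Gd, M ^ (-σ) := by simp
    _ ≤ ∑ e ∈ Gd, wt c σ (UU T e.1 e.2) := Finset.sum_le_sum fun e he => by
        rw [hGd, Finset.mem_filter] at he
        have := not_lt.mp he.2
        unfold wt
        exact Real.rpow_le_rpow_of_nonpos (lt_of_lt_of_le hc (le_max_right _ _))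
          (max_le this (by linarith)) (by linarith)
    _ ≤ ∑ e ∈ X.offDiag, wt c σ (UU T e.1 e.2) :=
        Finset.sum_le_sum_of_subset_of_nonneg (Finset.filter_subset _ _)
          (fun _ _ _ => wt_nonneg hc _)

theorem core {κ : ℝ} (hκ0 : 0 ≤ κ) (hκ : κ < 4) :
    ∃ η : ℝ, 0 < η ∧ ∃ ρ : ℝ, 0 < ρ ∧ ∀ m0 : ℝ, 0 ≤ m0 → ∃ n0 : ℕ, ∀ X Y : Finset (ℝ × ℝ),
      Gen X → NoThree X → ((unb X Y).card : ℝ) ≤ ρ * (X.card : ℝ) ^ 2 → n0 ≤ X.card →
      ∀ a : ℝ, 0 ≤ a → a ≤ κ →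
      (∀ C : Set (ℝ × ℝ), Convex ℝ C →
        a * (((X.filter (fun x => x ∈ C)).card : ℝ) - (m0 + ρ * X.card)) ≤
          ((Y.filter (fun y => y ∈ C)).card : ℝ)) →
      (a + 2 * η) * X.card ≤ Y.card := by
  obtain ⟨c, σ, hc, hc1, hσ, hσ2, hθ⟩ := exists_param hκ
  set θ := (2 : ℝ) ^ (-σ) * (1 + c) ^ σ with hθdef
  have hθ0 : 0 < θ := mul_pos (Real.rpow_pos_of_pos (by norm_num) _)
    (Real.rpow_pos_of_pos (by linarith) _)
  set q := c ^ (-σ) with hq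
  have hq0 : 0 < q := Real.rpow_pos_of_pos hc _
  have hδ : 0 < 1 - θ * κ := by linarith
  obtain ⟨N, hN1, hN⟩ := exists_N hσ2 q ((1 - θ * κ) / 8) (by linarith)
  set w0 := 1 / 2 * (6400 * Real.sqrt (2 * N)) ^ (-σ) with hw0
  have hNpos : (0 : ℝ) < N := by exact_mod_cast hN1
  have hw0pos : 0 < w0 := by
    rw [hw0]
    have : 0 < 6400 * Real.sqrt (2 * N) := by positivity
    have := Real.rpow_pos_of_pos this (-σ)
    linarith
  refine ⟨(1 - θ * κ) * w0 / (16 * θ * q), by positivity,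
    (1 - θ * κ) / 8 * w0 / (q + θ * q * κ * 2 ^ (40 * N)), by positivity, fun m0 hm0 => ?_⟩
  set η := (1 - θ * κ) * w0 / (16 * θ * q) with hη
  have hηeq : θ * q * (2 * η) = (1 - θ * κ) / 8 * w0 := by
    rw [hη]; field_simp; ring
  have hη0 : 0 < η := by rw [hη]; positivity
  set ρ := (1 - θ * κ) / 8 * w0 / (q + θ * q * κ * 2 ^ (40 * N)) with hρ
  have hρ0 : 0 < ρ := by rw [hρ]; positivity
  have hρeq : q * ρ + θ * q * κ * 2 ^ (40 * N) * ρ = (1 - θ * κ) / 8 * w0 := by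
    have : (q + θ * q * κ * 2 ^ (40 * N)) ≠ 0 := by positivity
    rw [hρ]; field_simp
  set R := θ * q * (κ + κ * 2 ^ (40 * N) * m0) with hR
  obtain ⟨n1, hn1⟩ := exists_nat_gt (R / ((1 - θ * κ) / 8 * w0))
  refine ⟨max (max n1 N) 4, fun X Y hGen h3 hB hn0 a ha0 haκ hlow => ?_⟩
  have hn1' : n1 ≤ X.card := le_trans (le_trans (le_max_left _ _) (le_max_left _ _)) hn0
  have hnN : N ≤ X.card := le_trans (le_trans (le_max_right _ _) (le_max_left _ _)) hn0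
  have hn4 : 4 ≤ X.card := le_trans (le_max_right _ _) hn0
  by_contra hcon
  push Not at hcon
  set n := X.card with hn
  have hnpos : (0 : ℝ) < n := by exact_mod_cast (by omega : 0 < n)
  set g := n / N with hg
  have hg1 : 1 ≤ g := (Nat.one_le_div_iff (by omega)).mpr hnN
  have hg1' : (1 : ℝ) ≤ g := by exact_mod_cast hg1
  have hgle : (g : ℝ) ≤ n / N := Nat.cast_div_le
  have hggt : n < (g + 1) * N := by
    rw [hg, Nat.mul_comm]
    exact Nat.lt_mul_div_succ n (show 0 < N by omega)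
  have hgN : (n : ℝ) / g ≤ 2 * N := by
    rw [div_le_iff₀ (by linarith)]
    have : (n : ℝ) < (g + 1) * N := by exact_mod_cast hggt
    nlinarith
  obtain ⟨k, T, hk, hE0, hsum⟩ := part X hGen h3 g hg1
  have hk2 : k ≤ 2 * N := by
    have h1 : (k : ℝ) * g ≤ n := by exact_mod_cast hk
    have h2 : (n : ℝ) ≤ 2 * N * g := by rwa [div_le_iff₀ (by linarith)] at hgN
    have h3 : (k : ℝ) ≤ 2 * N := le_of_mul_le_mul_right (h1.trans h2) (by linarith)
    exact_mod_cast h3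
  have hW := weight_lower X T N hN1 g hgN hn4 hsum hc hc1 hσ
  set W := ∑ e ∈ X.offDiag, wt c σ (UU T e.1 e.2) with hWdef
  have hsymm : ∀ p q, UU T p q = UU T q p := fun p q =>
    Finset.sum_congr rfl fun i _ => chi_symm _ _ _
  have hadd : ∀ p q b, b ∈ segment ℝ p q → UU T p q = UU T p b + UU T b q := fun p q b hb => by
    unfold UU
    rw [← Finset.sum_add_distrib]
    exact Finset.sum_congr rfl fun i _ => chi_add (trap_convex _) hb
  have hen := energy_part X Y h3 (UU T) hsymm hadd c σ hc hc1 hσ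
  -- the pairs with `U = 0`
  have hzero : ∑ e ∈ X.offDiag.filter (fun e => ¬ 1 ≤ UU T e.1 e.2), wt c σ (UU T e.1 e.2)
      ≤ q * ((n : ℝ) * (n / N)) := by
    have h1 : ∑ e ∈ X.offDiag.filter (fun e => ¬ 1 ≤ UU T e.1 e.2), wt c σ (UU T e.1 e.2)
        ≤ ∑ e ∈ X.offDiag.filter (fun e => ¬ 1 ≤ UU T e.1 e.2), q :=
      Finset.sum_le_sum fun e _ => wt_le hc hσ _
    refine h1.trans ?_
    rw [Finset.sum_const, nsmul_eq_mul, mul_comm]
    apply mul_le_mul_of_nonneg_left _ hq0.le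
    have h2 : (X.offDiag.filter (fun e => ¬ 1 ≤ UU T e.1 e.2)).card ≤ n * g := by
      refine le_trans (le_of_eq ?_) hE0
      congr 1
      apply Finset.filter_congr
      intro e _
      unfold UU
      omega
    calc ((X.offDiag.filter (fun e => ¬ 1 ≤ UU T e.1 e.2)).card : ℝ) ≤ ((n * g : ℕ) : ℝ) := by
          exact_mod_cast h2
      _ = (n : ℝ) * g := by push_cast; ring
      _ ≤ (n : ℝ) * (n / N) := mul_le_mul_of_nonneg_left hgle hnpos.le
  -- the unblocked pairs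
  have hunb : ∑ e ∈ unb X Y, wt c σ (UU T e.1 e.2) ≤ q * (ρ * (n : ℝ) ^ 2) := by
    have h1 : ∑ e ∈ unb X Y, wt c σ (UU T e.1 e.2) ≤ ∑ e ∈ unb X Y, q :=
      Finset.sum_le_sum fun e _ => wt_le hc hσ _
    refine h1.trans ?_
    rw [Finset.sum_const, nsmul_eq_mul, mul_comm]
    exact mul_le_mul_of_nonneg_left hB hq0.le
  have hsplit : W ≤ ∑ e ∈ X.offDiag.filter
        (fun e => 1 ≤ UU T e.1 e.2 ∧ ∃ z ∈ Y, z ∈ openSegment ℝ e.1 e.2), wt c σ (UU T e.1 e.2)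
      + ∑ e ∈ X.offDiag.filter (fun e => ¬ 1 ≤ UU T e.1 e.2), wt c σ (UU T e.1 e.2)
      + ∑ e ∈ unb X Y, wt c σ (UU T e.1 e.2) := by
    have hsub : X.offDiag ⊆ (X.offDiag.filter
        (fun e => 1 ≤ UU T e.1 e.2 ∧ ∃ z ∈ Y, z ∈ openSegment ℝ e.1 e.2)
        ∪ X.offDiag.filter (fun e => ¬ 1 ≤ UU T e.1 e.2)) ∪ unb X Y := by
      intro e he
      simp only [Finset.mem_union, Finset.mem_filter, unb]
      by_cases h1 : 1 ≤ UU T e.1 e.2
      · by_cases h2 : ∃ z ∈ Y, z ∈ openSegment ℝ e.1 e.2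
        · exact Or.inl (Or.inl ⟨he, h1, h2⟩)
        · exact Or.inr ⟨he, h2⟩
      · exact Or.inl (Or.inr ⟨he, h1⟩)
    have hnn : ∀ e : (ℝ × ℝ) × (ℝ × ℝ), 0 ≤ wt c σ (UU T e.1 e.2) := fun e => wt_nonneg hc _
    have hu : ∀ A B : Finset ((ℝ × ℝ) × (ℝ × ℝ)), ∑ e ∈ A ∪ B, wt c σ (UU T e.1 e.2) ≤
        ∑ e ∈ A, wt c σ (UU T e.1 e.2) + ∑ e ∈ B, wt c σ (UU T e.1 e.2) := by
      intro A B
      have := Finset.sum_union_inter (s₁ := A) (s₂ := B)
        (f := fun e => wt c σ (UU T e.1 e.2))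
      have h0 : 0 ≤ ∑ e ∈ A ∩ B, wt c σ (UU T e.1 e.2) := Finset.sum_nonneg fun e _ => hnn e
      linarith
    calc W ≤ _ := Finset.sum_le_sum_of_subset_of_nonneg hsub fun e _ _ => hnn e
      _ ≤ _ := hu _ _
      _ ≤ _ := by
        have := hu (X.offDiag.filter
          (fun e => 1 ≤ UU T e.1 e.2 ∧ ∃ z ∈ Y, z ∈ openSegment ℝ e.1 e.2))
          (X.offDiag.filter (fun e => ¬ 1 ≤ UU T e.1 e.2))
        linarith
  -- the blockers seen from a point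
  have hpt : ∀ p ∈ X, ∑ b ∈ Y, wt c σ (UU T p b) ≤
      a * ∑ x ∈ X, wt c σ (UU T p x)
        + q * (2 * η * n + a * 2 ^ (40 * N) * (m0 + ρ * n)) := by
    intro p _
    obtain ⟨G, hG⟩ := UU_sign T p
    have hm0' : 0 ≤ m0 + ρ * (n : ℝ) := by positivity
    have h := equi X Y a (m0 + ρ * n) ha0 hm0' hlow G (fun z => wt c σ (UU T p z)) q
      (fun z => wt_nonneg hc _) (fun z => wt_le hc hσ _)
      (fun z z' hz => by simp only [hG z z' hz])
    refine h.trans ?_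
    have hcard : Fintype.card (Fin k × Fin 20) = k * 20 := by simp
    have hpow : (2 : ℝ) ^ (Fintype.card (Fin k × Fin 20)) ≤ 2 ^ (40 * N) := by
      rw [hcard]; exact pow_le_pow_right₀ (by norm_num) (by omega)
    have h1 : a * 2 ^ (Fintype.card (Fin k × Fin 20)) * (m0 + ρ * n)
        ≤ a * 2 ^ (40 * N) * (m0 + ρ * n) :=
      mul_le_mul_of_nonneg_right (mul_le_mul_of_nonneg_left hpow ha0) hm0'
    have h2 : (Y.card : ℝ) - a * n + a * 2 ^ (Fintype.card (Fin k × Fin 20)) * (m0 + ρ * n)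
        ≤ 2 * η * n + a * 2 ^ (40 * N) * (m0 + ρ * n) := by linarith
    have h3 := mul_le_mul_of_nonneg_left h2 hq0.le
    linarith
  have hdiag : ∑ p ∈ X, ∑ x ∈ X, wt c σ (UU T p x) = W + n * q := by
    rw [hWdef, ← Finset.sum_product', ← Finset.diag_union_offDiag,
      Finset.sum_union (Finset.disjoint_diag_offDiag X), add_comm]
    congr 1
    rw [Finset.sum_diag]
    have : ∀ p ∈ X, wt c σ (UU T p p) = q := by
      intro p _
      have h0 : UU T p p = 0 := Finset.sum_eq_zero fun i _ => chi_self _ _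
      rw [h0, wt, hq]
      congr 1
      simp [hc.le]
    rw [Finset.sum_congr rfl this]; simp [hn]
  have hWB : ∑ p ∈ X, ∑ b ∈ Y, wt c σ (UU T p b) ≤
      a * (W + n * q) + n * (q * (2 * η * n + a * 2 ^ (40 * N) * (m0 + ρ * n))) := by
    refine (Finset.sum_le_sum hpt).trans ?_
    rw [Finset.sum_add_distrib, ← Finset.mul_sum, hdiag]
    simp [hn]
  have hW0 : 0 ≤ W := Finset.sum_nonneg fun e _ => wt_nonneg hc _
  have hmain : W ≤ q * ((n : ℝ) * (n / N)) + q * (ρ * (n : ℝ) ^ 2) + θ * (a * (W + n * q)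
      + n * (q * (2 * η * n + a * 2 ^ (40 * N) * (m0 + ρ * n)))) := by
    have := mul_le_mul_of_nonneg_left hWB hθ0.le
    linarith
  -- conclusion
  have hN2 : q * ((n : ℝ) * (n / N)) ≤ (1 - θ * κ) / 8 * w0 * (n : ℝ) ^ 2 := by
    have : q * ((n : ℝ) * (n / N)) = q / N * (n : ℝ) ^ 2 := by field_simp
    rw [this]
    exact mul_le_mul_of_nonneg_right hN (by positivity)
  have hRn : R ≤ (1 - θ * κ) / 8 * w0 * n := by
    have h1 : R / ((1 - θ * κ) / 8 * w0) < n := lt_of_lt_of_le hn1 (by exact_mod_cast hn1')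
    rw [div_lt_iff₀ (by positivity)] at h1
    linarith
  have haW : θ * (a * W) ≤ θ * κ * W := by
    have := mul_le_mul_of_nonneg_right haκ hW0
    have := mul_le_mul_of_nonneg_left this hθ0.le
    linarith
  have hR2 : θ * (a * (n * q)) + θ * (n * (q * (a * 2 ^ (40 * N) * m0))) ≤ R * n := by
    have h1 : a * (n * q) ≤ κ * (n * q) := mul_le_mul_of_nonneg_right haκ (by positivity)
    have h2 : a * 2 ^ (40 * N) * m0 ≤ κ * 2 ^ (40 * N) * m0 := by
      apply mul_le_mul_of_nonneg_right (mul_le_mul_of_nonneg_right haκ (by positivity)) hm0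
    have h3 : (n : ℝ) * (q * (a * 2 ^ (40 * N) * m0)) ≤ n * (q * (κ * 2 ^ (40 * N) * m0)) :=
      mul_le_mul_of_nonneg_left (mul_le_mul_of_nonneg_left h2 hq0.le) hnpos.le
    have h4 := mul_le_mul_of_nonneg_left (add_le_add h1 h3) hθ0.le
    rw [hR]
    linarith
  have hR3 : R * n ≤ (1 - θ * κ) / 8 * w0 * (n : ℝ) ^ 2 := by
    have := mul_le_mul_of_nonneg_right hRn hnpos.le
    nlinarith
  have hη3 : θ * (n * (q * (2 * η * n))) = (1 - θ * κ) / 8 * w0 * (n : ℝ) ^ 2 := by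
    rw [← hηeq]; ring
  have hρ3 : q * (ρ * (n : ℝ) ^ 2) + θ * (n * (q * (a * 2 ^ (40 * N) * (ρ * n))))
      ≤ (1 - θ * κ) / 8 * w0 * (n : ℝ) ^ 2 := by
    have h1 : θ * (n * (q * (a * 2 ^ (40 * N) * (ρ * n))))
        ≤ θ * (n * (q * (κ * 2 ^ (40 * N) * (ρ * n)))) := by
      apply mul_le_mul_of_nonneg_left _ hθ0.le
      apply mul_le_mul_of_nonneg_left _ hnpos.le
      apply mul_le_mul_of_nonneg_left _ hq0.le
      exact mul_le_mul_of_nonneg_right (mul_le_mul_of_nonneg_right haκ (by positivity))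
        (by positivity)
    have h2 : q * (ρ * (n : ℝ) ^ 2) + θ * (n * (q * (κ * 2 ^ (40 * N) * (ρ * n))))
        = (1 - θ * κ) / 8 * w0 * (n : ℝ) ^ 2 := by
      rw [← hρeq]; ring
    linarith
  have hfin : (1 - θ * κ) * W ≤ 4 * ((1 - θ * κ) / 8 * w0 * (n : ℝ) ^ 2) := by
    have : θ * (a * (W + n * q) + n * (q * (2 * η * n + a * 2 ^ (40 * N) * (m0 + ρ * n))))
      = θ * (a * W) + (θ * (a * (n * q)) + θ * (n * (q * (a * 2 ^ (40 * N) * m0))))
        + θ * (n * (q * (2 * η * n))) + θ * (n * (q * (a * 2 ^ (40 * N) * (ρ * n)))) := by ring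
    rw [this, hη3] at hmain
    linarith
  have hlow2 : (1 - θ * κ) * (w0 * (n : ℝ) ^ 2) ≤ (1 - θ * κ) * W :=
    mul_le_mul_of_nonneg_left hW hδ.le
  have hpos : 0 < (1 - θ * κ) * w0 * (n : ℝ) ^ 2 := by positivity
  nlinarith

/-- lower bound with slope `a` for all sets blocked up to `ε |X|^2` pairs -/
def LB (ε a : ℝ) : Prop := ∃ m0 : ℝ, 0 ≤ m0 ∧ ∀ X Y : Finset (ℝ × ℝ), NoThree X →
  ((unb X Y).card : ℝ) ≤ ε * (X.card : ℝ) ^ 2 → a * ((X.card : ℝ) - m0) ≤ Y.card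

theorem noThree_sub {X X' : Finset (ℝ × ℝ)} (h : NoThree X) (hs : X' ⊆ X) : NoThree X' :=
  fun a ha b hb c hc => h a (hs ha) b (hs hb) c (hs hc)

theorem unb_filter (X Y : Finset (ℝ × ℝ)) {C : Set (ℝ × ℝ)} (hC : Convex ℝ C) :
    (unb (X.filter (fun x => x ∈ C)) (Y.filter (fun y => y ∈ C))).card ≤ (unb X Y).card := by
  apply Finset.card_le_card
  intro e he
  simp only [unb, Finset.mem_filter, Finset.mem_offDiag] at he ⊢
  obtain ⟨⟨⟨h1, h1C⟩, ⟨h2, h2C⟩, hne⟩, hno⟩ := he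
  refine ⟨⟨h1, h2, hne⟩, fun ⟨z, hz, hzs⟩ => hno ⟨z, ⟨hz, ?_⟩, hzs⟩⟩
  exact hC.openSegment_subset h1C h2C hzs

theorem noThree_map {X : Finset (ℝ × ℝ)} (h : NoThree X) (φ : (ℝ × ℝ) ≃ₗ[ℝ] (ℝ × ℝ)) :
    NoThree (X.map φ.toEquiv.toEmbedding) := by
  intro a ha b hb c hc hab hac hbc hcol
  simp only [Finset.mem_map, Equiv.coe_toEmbedding, LinearEquiv.coe_toEquiv] at ha hb hc
  obtain ⟨a', ha', rfl⟩ := ha
  obtain ⟨b', hb', rfl⟩ := hb
  obtain ⟨c', hc', rfl⟩ := hc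
  refine h a' ha' b' hb' c' hc' (fun e => hab (by rw [e])) (fun e => hac (by rw [e]))
    (fun e => hbc (by rw [e])) ?_
  rw [collinear_iff_of_mem (p₀ := φ a') (by simp)] at hcol
  rw [collinear_iff_of_mem (p₀ := a') (by simp)]
  obtain ⟨v, hv⟩ := hcol
  refine ⟨φ.symm v, fun p hp => ?_⟩
  have hp' : φ p ∈ ({φ a', φ b', φ c'} : Set (ℝ × ℝ)) := by
    simp only [Set.mem_insert_iff, Set.mem_singleton_iff] at hp ⊢
    rcases hp with rfl | rfl | rfl <;> simp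
  obtain ⟨r, hr⟩ := hv (φ p) hp'
  refine ⟨r, ?_⟩
  apply φ.injective
  rw [hr]
  simp

theorem unb_map (X Y : Finset (ℝ × ℝ)) (φ : (ℝ × ℝ) ≃ₗ[ℝ] (ℝ × ℝ)) :
    (unb (X.map φ.toEquiv.toEmbedding) (Y.map φ.toEquiv.toEmbedding)).card
      ≤ (unb X Y).card := by
  apply Finset.card_le_card_of_injOn (fun e => (φ.symm e.1, φ.symm e.2))
  · intro e he
    simp only [unb, Finset.coe_filter, Finset.mem_offDiag, Finset.mem_map,
      Equiv.coe_toEmbedding, LinearEquiv.coe_toEquiv, Set.mem_ofPred_eq] at he ⊢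
    obtain ⟨⟨⟨x, hx, hx1⟩, ⟨y, hy, hy1⟩, hne⟩, hno⟩ := he
    rw [← hx1, ← hy1, LinearEquiv.symm_apply_apply, LinearEquiv.symm_apply_apply]
    refine ⟨⟨hx, hy, fun e => hne (by rw [← hx1, ← hy1, e])⟩, fun ⟨z, hz, hzs⟩ => hno ?_⟩
    refine ⟨φ z, ⟨z, hz, rfl⟩, ?_⟩
    obtain ⟨u, v, hu, hv, huv, rfl⟩ := hzs
    exact ⟨u, v, hu, hv, huv, by rw [← hx1, ← hy1]; simp⟩
  · intro e _ e' _ h
    simp only [Prod.mk.injEq, EmbeddingLike.apply_eq_iff_eq] at h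
    exact Prod.ext h.1 h.2

/-- supersaturated form of the bound `(4 - o(1)) n` -/
theorem main : ∀ C : ℝ, C < 4 → ∃ c : ℝ, 0 < c ∧ ∃ N : ℕ, ∀ n : ℕ, N ≤ n →
    ∀ X Y : Finset (ℝ × ℝ), X.card = n → NoThree X →
      ((unb X Y).card : ℝ) ≤ c * (n : ℝ) ^ 2 → C * (n : ℝ) ≤ (Y.card : ℝ) := by
  intro C hC
  by_contra hcon
  push Not at hcon
  set S : Set ℝ := {a | 0 ≤ a ∧ ∃ ε : ℝ, 0 < ε ∧ LB ε a} with hS
  have h0S : (0 : ℝ) ∈ S := ⟨le_rfl, 1, one_pos, 0, le_rfl, fun X Y _ _ => by simp⟩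
  have hub : ∀ a ∈ S, a ≤ max C 0 := by
    rintro a ⟨ha0, ε, hε, m0, hm0, ha⟩
    by_contra hlt
    push Not at hlt
    have haC : C < a := lt_of_le_of_lt (le_max_left _ _) hlt
    obtain ⟨N, hN⟩ := exists_nat_gt (a * m0 / (a - C))
    obtain ⟨n, hn, X, Y, hXn, h3, hB, hY⟩ := hcon ε hε N
    have h1 := ha X Y h3 (by rw [hXn]; exact hB)
    rw [hXn] at h1
    have h2 : a * m0 / (a - C) < n := lt_of_lt_of_le hN (by exact_mod_cast hn)
    rw [div_lt_iff₀ (by linarith)] at h2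
    nlinarith
  set κ := sSup S with hκ
  have hbdd : BddAbove S := ⟨max C 0, hub⟩
  have hκ0 : 0 ≤ κ := le_csSup hbdd h0S
  have hκ4 : κ < 4 := lt_of_le_of_lt (csSup_le ⟨0, h0S⟩ hub) (max_lt hC (by norm_num))
  obtain ⟨η, hη, ρ, hρ, hcore⟩ := core hκ0 hκ4
  obtain ⟨a, ⟨ha0, ε1, hε1, m0, hm0, ha⟩, haκ⟩ := exists_lt_of_lt_csSup ⟨0, h0S⟩
    (show κ - η < sSup S by linarith)
  have haκ' : a ≤ κ := le_csSup hbdd ⟨ha0, ε1, hε1, m0, hm0, ha⟩
  obtain ⟨n0, hn0⟩ := hcore m0 hm0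
  set ε := min ρ (ε1 * ρ ^ 2) with hε
  have hε0 : 0 < ε := lt_min hρ (by positivity)
  have hnot : κ + η ∉ S := fun h => by linarith [le_csSup hbdd h]
  have hnLB : ¬ LB ε (κ + η) := fun h => hnot ⟨by linarith, ε, hε0, h⟩
  unfold LB at hnLB
  push Not at hnLB
  obtain ⟨X, Y, h3, hB, hlt⟩ := hnLB n0 (Nat.cast_nonneg _)
  have hXn0 : n0 ≤ X.card := by
    by_contra h
    push Not at h
    have h' : (X.card : ℝ) < n0 := by exact_mod_cast h
    have : (0 : ℝ) ≤ Y.card := Nat.cast_nonneg _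
    nlinarith
  obtain ⟨φ, hφ⟩ := exists_shear X
  have h3' := noThree_map h3 φ
  set X' := X.map φ.toEquiv.toEmbedding with hX'
  set Y' := Y.map φ.toEquiv.toEmbedding with hY'
  have hcX : X'.card = X.card := Finset.card_map _
  have hcY : Y'.card = Y.card := Finset.card_map _
  have hB' : ((unb X' Y').card : ℝ) ≤ ε * (X'.card : ℝ) ^ 2 := by
    rw [hcX]
    exact le_trans (by exact_mod_cast unb_map X Y φ) hB
  have hlow : ∀ D : Set (ℝ × ℝ), Convex ℝ D →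
      a * (((X'.filter (fun x => x ∈ D)).card : ℝ) - (m0 + ρ * X'.card)) ≤
        ((Y'.filter (fun y => y ∈ D)).card : ℝ) := by
    intro D hD
    set m : ℝ := ((X'.filter (fun x => x ∈ D)).card : ℝ) with hm
    have hYD : (0 : ℝ) ≤ ((Y'.filter (fun y => y ∈ D)).card : ℝ) := Nat.cast_nonneg _
    have hnn : (0 : ℝ) ≤ X'.card := Nat.cast_nonneg _
    rcases le_or_gt m (ρ * X'.card) with h | h
    · have : a * (m - (m0 + ρ * X'.card)) ≤ 0 :=
        mul_nonpos_of_nonneg_of_nonpos ha0 (by linarith)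
      linarith
    · have h1 : ((unb (X'.filter (fun x => x ∈ D)) (Y'.filter (fun y => y ∈ D))).card : ℝ)
          ≤ ε1 * m ^ 2 := by
        have h2 : ((unb (X'.filter (fun x => x ∈ D)) (Y'.filter (fun y => y ∈ D))).card : ℝ)
          ≤ (unb X' Y').card := by exact_mod_cast unb_filter X' Y' hD
        have h3 : ε * (X'.card : ℝ) ^ 2 ≤ ε1 * ρ ^ 2 * (X'.card : ℝ) ^ 2 :=
          mul_le_mul_of_nonneg_right (min_le_right _ _) (by positivity)
        have h4 : (ρ * X'.card) ^ 2 ≤ m ^ 2 := by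
          apply pow_le_pow_left₀ (by positivity) h.le
        have h5 : ε1 * (ρ * X'.card) ^ 2 ≤ ε1 * m ^ 2 := mul_le_mul_of_nonneg_left h4 hε1.le
        nlinarith
      have h6 := ha _ _ (noThree_sub h3' (Finset.filter_subset _ _)) h1
      rw [← hm] at h6
      have h7 : a * (m - (m0 + ρ * X'.card)) ≤ a * (m - m0) :=
        mul_le_mul_of_nonneg_left (by have := mul_nonneg hρ.le hnn; linarith) ha0
      linarith
  have h := hn0 X' Y' hφ h3' (hB'.trans (mul_le_mul_of_nonneg_right (min_le_left _ _)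
    (by positivity))) (by rwa [hcX]) a ha0 haκ' hlow
  rw [hcX, hcY] at h
  have hn0' : (0 : ℝ) ≤ n0 := Nat.cast_nonneg _
  have hX0 : (0 : ℝ) ≤ X.card := Nat.cast_nonneg _
  have h5 : (κ + η) * ((X.card : ℝ) - n0) ≤ (κ + η) * X.card :=
    mul_le_mul_of_nonneg_left (by linarith) (by linarith)
  have h6 : (κ + η) * X.card ≤ (a + 2 * η) * X.card :=
    mul_le_mul_of_nonneg_right (by linarith) hX0
  linarith

end Pool.H34.BN
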