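import Pool.Agent.H34.BN.Cut

/-! The partition lemma `part`: repeated application of the cutting lemma. -/

open Classical

namespace Pool.H34.BN

namespace PartAux

theorem chi_le_two (D : Set (ℝ × ℝ)) (p q : ℝ × ℝ) : chi D p q ≤ 2 := by
  unfold chi; split_ifs <;> omega

theorem mem_iff_of_chi {D : Set (ℝ × ℝ)} {p q : ℝ × ℝ} (h : chi D p q = 0) :
    p ∈ D ↔ q ∈ D := by
  unfold chi at h
  split_ifs at h with h1 h2 h3 <;> simp_all

theorem meets_of_chi (D : Set (ℝ × ℝ)) {p q : ℝ × ℝ} (hpq : p.1 ≠ q.1) (h : chi D p q ≠ 0) :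
    Meets (lin p q) D := by
  have hd : q.1 - p.1 ≠ 0 := sub_ne_zero.mpr (Ne.symm hpq)
  obtain ⟨w, hw, hwD⟩ : ∃ w ∈ segment ℝ p q, w ∈ D := by
    unfold chi at h
    split_ifs at h with h1 h2 h3 h4
    · exact absurd rfl h
    · exact ⟨p, left_mem_segment ℝ p q, h1⟩
    · exact ⟨q, right_mem_segment ℝ p q, h3⟩
    · exact h4
    · exact absurd rfl h
  refine ⟨w, hwD, ?_⟩
  rw [segment_eq_image] at hw
  obtain ⟨t, -, rfl⟩ := hw
  simp only [ht, lin, Prod.snd_add, Prod.smul_snd, Prod.fst_add, Prod.smul_fst, smul_eq_mul]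
  field_simp
  ring

theorem sqrt_step {m g : ℝ} (hg : 0 < g) (hm : g ≤ m) :
    1 / 2 * Real.sqrt (g / m) + Real.sqrt ((m - g) / g) ≤ Real.sqrt (m / g) := by
  have hm0 : 0 < m := lt_of_lt_of_le hg hm
  obtain ⟨a, ha⟩ : ∃ a, a = Real.sqrt (m / g) := ⟨_, rfl⟩
  obtain ⟨b, hb⟩ : ∃ b, b = Real.sqrt ((m - g) / g) := ⟨_, rfl⟩
  have ha0 : 0 < a := by rw [ha]; exact Real.sqrt_pos.mpr (by positivity)
  have hb0 : 0 ≤ b := by rw [hb]; exact Real.sqrt_nonneg _
  have ha2 : a ^ 2 = m / g := by rw [ha]; exact Real.sq_sqrt (by positivity)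
  have hb2 : b ^ 2 = m / g - 1 := by
    rw [hb, Real.sq_sqrt (div_nonneg (by linarith) hg.le)]
    field_simp
  have hinv : Real.sqrt (g / m) = a⁻¹ := by
    rw [ha, ← Real.sqrt_inv, inv_div]
  rw [hinv, ← ha, ← hb]
  have hba : b ≤ a := by
    refine abs_le_of_sq_le_sq' (by rw [ha2, hb2]; linarith) ha0.le |>.2
  have h1 : (a + b) * (a - b) = 1 := by
    have : (a + b) * (a - b) = a ^ 2 - b ^ 2 := by ring
    rw [this, ha2, hb2]; ring
  have h2 : 1 ≤ (2 * a) * (a - b) := by
    calc (1 : ℝ) = (a + b) * (a - b) := h1.symm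
      _ ≤ (2 * a) * (a - b) := mul_le_mul_of_nonneg_right (by linarith) (by linarith)
  have h3 : 1 / 2 * a⁻¹ ≤ a - b := by
    rw [← div_eq_mul_inv, div_le_iff₀ ha0]
    nlinarith
  linarith

theorem main (X : Finset (ℝ × ℝ)) (hX : Gen X) (hX3 : NoThree X) (g : ℕ) (hg : 1 ≤ g) :
    ∀ (N : ℕ) (X' : Finset (ℝ × ℝ)), X' ⊆ X → X'.card = N →
    ∃ (k : ℕ) (T : Fin k → Trap), k * g ≤ X'.card ∧
      (X'.offDiag.filter (fun e => ∑ i, chi (T i).car e.1 e.2 = 0)).card ≤ X'.card * g ∧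
      ((∑ e ∈ X.offDiag, ∑ i, chi (T i).car e.1 e.2 : ℕ) : ℝ)
        ≤ 1600 * (X.card : ℝ) ^ 2 * Real.sqrt ((X'.card : ℝ) / g) := by
  intro N
  induction N using Nat.strong_induction_on with
  | _ N ih =>
  intro X' hX' hN
  by_cases hlt : X'.card < g
  · refine ⟨0, Fin.elim0, by simp, ?_, ?_⟩
    · refine (Finset.card_filter_le _ _).trans ?_
      rw [Finset.offDiag_card]
      exact (Nat.sub_le _ _).trans (Nat.mul_le_mul_left _ hlt.le)
    · simp only [Finset.univ_eq_empty, Finset.sum_empty, Finset.sum_const_zero, Nat.cast_zero]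
      positivity
  · have hle : g ≤ X'.card := not_lt.mp hlt
    obtain ⟨T₀, hT₀g, hT₀m⟩ := cut X hX hX3 X' hX' g hg hle
    obtain ⟨X'', hX''⟩ : ∃ X'', X'' = X'.filter (fun x => ¬ x ∈ T₀.car) := ⟨_, rfl⟩
    have hcard : g + X''.card = X'.card := by
      rw [hX'', ← hT₀g]; exact Finset.card_filter_add_card_filter_not _
    have hsub : X'' ⊆ X := by
      rw [hX'']; exact (Finset.filter_subset _ _).trans hX'
    obtain ⟨k, T, hk, hpairs, hsum⟩ := ih X''.card (by omega) X'' hsub rfl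
    refine ⟨k + 1, Fin.cons T₀ T, ?_, ?_, ?_⟩
    · calc (k + 1) * g = g + k * g := by ring
        _ ≤ g + X''.card := Nat.add_le_add_left hk _
        _ = X'.card := hcard
    · have hsubset : (X'.offDiag.filter
          (fun e => ∑ i, chi ((Fin.cons T₀ T : Fin (k + 1) → Trap) i).car e.1 e.2 = 0))
          ⊆ ((X'.filter (fun x => x ∈ T₀.car)) ×ˢ (X'.filter (fun x => x ∈ T₀.car)))
            ∪ (X''.offDiag.filter (fun e => ∑ i, chi (T i).car e.1 e.2 = 0)) := by
        intro e he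
        rw [Finset.mem_filter, Finset.mem_offDiag] at he
        obtain ⟨⟨hp, hq, hne⟩, hz⟩ := he
        rw [Fin.sum_univ_succ] at hz
        simp only [Fin.cons_zero, Fin.cons_succ] at hz
        obtain ⟨hz1, hz2⟩ := Nat.add_eq_zero_iff.mp hz
        have hiff := mem_iff_of_chi hz1
        rw [Finset.mem_union]
        by_cases hin : e.1 ∈ T₀.car
        · left
          rw [Finset.mem_product, Finset.mem_filter, Finset.mem_filter]
          exact ⟨⟨hp, hin⟩, hq, hiff.mp hin⟩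
        · right
          rw [Finset.mem_filter, Finset.mem_offDiag, hX'', Finset.mem_filter, Finset.mem_filter]
          exact ⟨⟨⟨hp, hin⟩, ⟨hq, fun h => hin (hiff.mpr h)⟩, hne⟩, hz2⟩
      refine (Finset.card_le_card hsubset).trans ((Finset.card_union_le _ _).trans ?_)
      rw [Finset.card_product, hT₀g]
      calc _ ≤ g * g + X''.card * g := Nat.add_le_add_left hpairs _
        _ = (g + X''.card) * g := by ring
        _ = X'.card * g := by rw [hcard]
    · have hmpos : (0 : ℝ) < X'.card := by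
        have : 0 < X'.card := lt_of_lt_of_le hg hle
        exact_mod_cast this
      have hgpos : (0 : ℝ) < g := by exact_mod_cast hg
      have h1 : ∑ e ∈ X.offDiag, chi T₀.car e.1 e.2
          ≤ 2 * (X.offDiag.filter (fun e => Meets (lin e.1 e.2) T₀.car)).card := by
        calc _ ≤ ∑ e ∈ X.offDiag, if Meets (lin e.1 e.2) T₀.car then 2 else 0 := by
              refine Finset.sum_le_sum (fun e he => ?_)
              rw [Finset.mem_offDiag] at he
              have hpq : e.1.1 ≠ e.2.1 := fun h => he.2.2 (hX.1 _ he.1 _ he.2.1 h)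
              by_cases hc : chi T₀.car e.1 e.2 = 0
              · rw [hc]; exact Nat.zero_le _
              · rw [if_pos (meets_of_chi _ hpq hc)]
                exact chi_le_two _ _ _
          _ = _ := by
              rw [← Finset.sum_filter, Finset.sum_const, smul_eq_mul, mul_comm]
      have h2 : ((∑ e ∈ X.offDiag, chi T₀.car e.1 e.2 : ℕ) : ℝ)
          ≤ 2 * (400 * Real.sqrt ((g : ℝ) / X'.card) * (X.card : ℝ) ^ 2) := by
        calc _ ≤ ((2 * (X.offDiag.filter
                (fun e => Meets (lin e.1 e.2) T₀.car)).card : ℕ) : ℝ) := by exact_mod_cast h1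
          _ = 2 * ((X.offDiag.filter (fun e => Meets (lin e.1 e.2) T₀.car)).card : ℝ) := by
              push_cast; ring
          _ ≤ _ := mul_le_mul_of_nonneg_left hT₀m (by norm_num)
      have h3 : ((∑ e ∈ X.offDiag,
          ∑ i, chi ((Fin.cons T₀ T : Fin (k + 1) → Trap) i).car e.1 e.2 : ℕ) : ℝ)
          = ((∑ e ∈ X.offDiag, chi T₀.car e.1 e.2 : ℕ) : ℝ)
            + ((∑ e ∈ X.offDiag, ∑ i, chi (T i).car e.1 e.2 : ℕ) : ℝ) := by
        rw [← Nat.cast_add, ← Finset.sum_add_distrib]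
        refine congrArg _ (Finset.sum_congr rfl (fun e _ => ?_))
        rw [Fin.sum_univ_succ]
        simp only [Fin.cons_zero, Fin.cons_succ]
      rw [h3]
      have h4 : (X''.card : ℝ) = X'.card - g := by
        have : (g : ℝ) + X''.card = X'.card := by exact_mod_cast hcard
        linarith
      rw [h4] at hsum
      have h5 := sqrt_step hgpos (by exact_mod_cast hle : (g : ℝ) ≤ X'.card)
      have h6 := mul_le_mul_of_nonneg_left h5
        (by positivity : (0 : ℝ) ≤ 1600 * (X.card : ℝ) ^ 2)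
      calc _ ≤ 2 * (400 * Real.sqrt ((g : ℝ) / X'.card) * (X.card : ℝ) ^ 2)
            + 1600 * (X.card : ℝ) ^ 2 * Real.sqrt (((X'.card : ℝ) - g) / g) :=
            add_le_add h2 hsum
        _ = 1600 * (X.card : ℝ) ^ 2 * (1 / 2 * Real.sqrt ((g : ℝ) / X'.card)
            + Real.sqrt (((X'.card : ℝ) - g) / g)) := by ring
        _ ≤ _ := h6

end PartAux

theorem part (X : Finset (ℝ × ℝ)) (hX : Gen X) (hX3 : NoThree X) (g : ℕ) (hg : 1 ≤ g) :
    ∃ (k : ℕ) (T : Fin k → Trap), k * g ≤ X.card ∧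
      (X.offDiag.filter (fun e => ∑ i, chi (T i).car e.1 e.2 = 0)).card ≤ X.card * g ∧
      ((∑ e ∈ X.offDiag, ∑ i, chi (T i).car e.1 e.2 : ℕ) : ℝ)
        ≤ 1600 * (X.card : ℝ) ^ 2 * Real.sqrt ((X.card : ℝ) / g) :=
  PartAux.main X hX hX3 g hg X.card X subset_rfl rfl

end Pool.H34.BN
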