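import Pool.Agent.H34.BN.Defs

/-! Existence of the trapezoid of a point (helper6). -/

open Classical

namespace Pool.H34.BN

lemma trap1_subsingleton (L M : ℝ × ℝ) :
    {x : ℝ | L ≠ M ∧ ht L x = ht M x}.Subsingleton := by
  rintro x ⟨hne, hx⟩ y ⟨_, hy⟩
  unfold ht at hx hy
  by_contra hxy
  have h1 : (L.1 - M.1) * (x - y) = 0 := by linear_combination hx - hy
  rcases mul_eq_zero.1 h1 with h2 | h2
  · apply hne
    have h3 : L.1 = M.1 := sub_eq_zero.1 h2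
    refine Prod.ext h3 ?_
    rw [h3] at hx
    linarith
  · exact hxy (sub_eq_zero.1 h2)

lemma trap1_finite (S : Finset (ℝ × ℝ)) (M : ℝ × ℝ) :
    {x : ℝ | ∃ L ∈ S, L ≠ M ∧ ht L x = ht M x}.Finite := by
  have h1 : {x : ℝ | ∃ L ∈ S, L ≠ M ∧ ht L x = ht M x}
      = ⋃ L ∈ (S : Set (ℝ × ℝ)), {x : ℝ | L ≠ M ∧ ht L x = ht M x} := by
    ext x
    rw [Set.mem_iUnion₂]
    constructor
    · rintro ⟨L, hL, h⟩
      exact ⟨L, hL, h⟩
    · rintro ⟨L, hL, h⟩
      exact ⟨L, hL, h⟩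
  rw [h1]
  exact S.finite_toSet.biUnion fun L _ => (trap1_subsingleton L M).finite

lemma trap1_ivt (L M : ℝ × ℝ) {l r u v : ℝ} (hu : u ∈ Set.Ioo l r) (hv : v ∈ Set.Ioo l r)
    (h1 : ht M u < ht L u) (h2 : ht L v < ht M v) : ∃ x ∈ Set.Ioo l r, ht L x = ht M x := by
  have hc : ContinuousOn (fun x => ht L x - ht M x) (Set.uIcc u v) := by
    unfold ht
    fun_prop
  have h3 : (0 : ℝ) ∈ Set.uIcc (ht L u - ht M u) (ht L v - ht M v) := by
    rw [Set.mem_uIcc]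
    right
    constructor <;> linarith
  obtain ⟨x, hx, hx0⟩ := intermediate_value_uIcc hc h3
  exact ⟨x, Set.ordConnected_Ioo.uIcc_subset hu hv hx, sub_eq_zero.1 hx0⟩

theorem isTrap_exists (S : Finset (ℝ × ℝ)) (A Y : ℝ) (z : ℝ × ℝ)
    (hY1 : ((0 : ℝ), Y) ∈ S) (hY2 : ((0 : ℝ), -Y) ∈ S) (hzY : |z.2| < Y) (hzA : |z.1| < A)
    (hz : ∀ L ∈ S, ht L z.1 ≠ z.2)
    (htie : ∀ L ∈ S, ∀ M ∈ S, ht L z.1 = ht M z.1 → L = M) :
    ∃ T, IsTrap S A z T := by
  have hzY' := abs_lt.1 hzY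
  have hzA' := abs_lt.1 hzA
  -- the upper line
  obtain ⟨t, ht1, ht2⟩ := Finset.exists_min_image (S.filter fun L => z.2 < ht L z.1)
    (fun L => ht L z.1) ⟨((0 : ℝ), Y), by
      rw [Finset.mem_filter]
      refine ⟨hY1, ?_⟩
      unfold ht
      simp only [zero_mul, zero_add]
      exact hzY'.2⟩
  rw [Finset.mem_filter] at ht1
  obtain ⟨htS, htz⟩ := ht1
  -- the lower line
  obtain ⟨b, hb1, hb2⟩ := Finset.exists_max_image (S.filter fun L => ht L z.1 < z.2)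
    (fun L => ht L z.1) ⟨((0 : ℝ), -Y), by
      rw [Finset.mem_filter]
      refine ⟨hY2, ?_⟩
      unfold ht
      simp only [zero_mul, zero_add]
      exact hzY'.1⟩
  rw [Finset.mem_filter] at hb1
  obtain ⟨hbS, hbz⟩ := hb1
  -- the crossings
  set Cr : Set ℝ := {x | ∃ L ∈ S, L ≠ t ∧ ht L x = ht t x}
    ∪ {x | ∃ L ∈ S, L ≠ b ∧ ht L x = ht b x} with hCr
  have hfin : Cr.Finite := (trap1_finite S t).union (trap1_finite S b)
  have hzCr : z.1 ∉ Cr := by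
    rintro (⟨L, hL, hne, h⟩ | ⟨L, hL, hne, h⟩)
    · exact hne (htie L hL t htS h)
    · exact hne (htie L hL b hbS h)
  set R : Finset ℝ := insert A (hfin.toFinset.filter fun x => z.1 < x) with hR
  set Q : Finset ℝ := insert (-A) (hfin.toFinset.filter fun x => x < z.1) with hQ
  have hRne : R.Nonempty := ⟨A, Finset.mem_insert_self _ _⟩
  have hQne : Q.Nonempty := ⟨-A, Finset.mem_insert_self _ _⟩
  set r : ℝ := R.min' hRne with hr
  set l : ℝ := Q.max' hQne with hl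
  have hrmem : r ∈ R := Finset.min'_mem _ _
  have hlmem : l ∈ Q := Finset.max'_mem _ _
  have hrA : r ≤ A := Finset.min'_le _ _ (Finset.mem_insert_self _ _)
  have hlA : -A ≤ l := Finset.le_max' _ _ (Finset.mem_insert_self _ _)
  have hzr : z.1 < r := by
    rcases Finset.mem_insert.1 hrmem with h | h
    · rw [h]
      exact hzA'.2
    · exact (Finset.mem_filter.1 h).2
  have hlz : l < z.1 := by
    rcases Finset.mem_insert.1 hlmem with h | h
    · rw [h]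
      exact hzA'.1
    · exact (Finset.mem_filter.1 h).2
  have hno : ∀ x, l < x → x < r → x ∉ Cr := by
    intro x hlx hxr hx
    rcases lt_trichotomy x z.1 with h | h | h
    · have : x ≤ l := Finset.le_max' _ _ (Finset.mem_insert_of_mem
        (Finset.mem_filter.2 ⟨hfin.mem_toFinset.2 hx, h⟩))
      linarith
    · rw [h] at hx
      exact hzCr hx
    · have : r ≤ x := Finset.min'_le _ _ (Finset.mem_insert_of_mem
        (Finset.mem_filter.2 ⟨hfin.mem_toFinset.2 hx, h⟩))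
      linarith
  have hwall : ∀ x ∈ Cr, ∃ L ∈ S, (L ≠ t ∧ ht L x = ht t x) ∨ (L ≠ b ∧ ht L x = ht b x) := by
    rintro x (⟨L, hL, h⟩ | ⟨L, hL, h⟩)
    · exact ⟨L, hL, Or.inl h⟩
    · exact ⟨L, hL, Or.inr h⟩
  refine ⟨⟨l, r, b, t⟩, htS, hbS, ⟨hlz, hzr, hbz, htz⟩, hlA, hrA, ?_, ?_, ?_, ?_⟩
  · rintro L hL ⟨w, ⟨hw1, hw2, hw3, hw4⟩, hwL⟩
    change l < w.1 at hw1
    change w.1 < r at hw2
    change ht b w.1 < w.2 at hw3
    change w.2 < ht t w.1 at hw4
    rw [hwL] at hw3 hw4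
    rcases lt_or_gt_of_ne (hz L hL) with h | h
    · -- `L` is below `z`
      have h1 : ht L z.1 ≤ ht b z.1 := hb2 L (Finset.mem_filter.2 ⟨hL, h⟩)
      have hne : L ≠ b := by
        rintro rfl
        exact lt_irrefl _ hw3
      have h2 : ht L z.1 < ht b z.1 := lt_of_le_of_ne h1 fun h3 => hne (htie L hL b hbS h3)
      obtain ⟨x, hx, hx'⟩ := trap1_ivt b L ⟨hlz, hzr⟩ ⟨hw1, hw2⟩ h2 hw3
      exact hno x hx.1 hx.2 (Or.inr ⟨L, hL, hne, hx'.symm⟩)
    · have h1 : ht t z.1 ≤ ht L z.1 := ht2 L (Finset.mem_filter.2 ⟨hL, h⟩)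
      have hne : L ≠ t := by
        rintro rfl
        exact lt_irrefl _ hw4
      have h2 : ht t z.1 < ht L z.1 := lt_of_le_of_ne h1 fun h3 => hne (htie L hL t htS h3.symm)
      obtain ⟨x, hx, hx'⟩ := trap1_ivt L t ⟨hlz, hzr⟩ ⟨hw1, hw2⟩ h2 hw4
      exact hno x hx.1 hx.2 (Or.inl ⟨L, hL, hne, hx'⟩)
  · intro L hL x hlx hxr
    have h := hno x hlx hxr
    exact ⟨fun hne he => h (Or.inl ⟨L, hL, hne, he⟩), fun hne he => h (Or.inr ⟨L, hL, hne, he⟩)⟩
  · rcases Finset.mem_insert.1 hlmem with h | h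
    · exact Or.inl h
    · exact Or.inr (hwall l (hfin.mem_toFinset.1 (Finset.mem_filter.1 h).1))
  · rcases Finset.mem_insert.1 hrmem with h | h
    · exact Or.inl h
    · exact Or.inr (hwall r (hfin.mem_toFinset.1 (Finset.mem_filter.1 h).1))

end Pool.H34.BN
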